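import Pool.Agent.LibSW73.R12
import Pool.Agent.LibSR85Z.Z1

/-! Row R13: the sum rule in windows of a surface. 45 min.
PLAN. `GH.SF_of`: the identity `key` inside the proof of `GH.sumrule_of` (`LibGH18/Main`): copy (`fin_if` is private there:
copy). `sumrule2`: copy of `SR85Z.sumrule` (`LibSR85Z/Z1`): for `0 ≤ t`, `(Lam G A ψ t).toReal = ∑ᶠ c ..` (`Lam_class`,
`Z_fin`) `= 2 * SF t`; then `Lam_win` along `atTop ×ˢ atTop` (eventually `0 ≤ q.1` and `0 ≤ q.1 + q.2`). -/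

open MeasureTheory Set Filter Topology
open scoped ContDiff ENNReal NNReal ComplexConjugate

namespace GH

open GWin

variable {Γ : Type} [Group Γ] {ell tr : Γ → ℝ} {κ : ℝ}

private theorem R13_fin_if {α : Type} (P Q : α → Prop) [DecidablePred Q] (f : α → ℝ) :
    ∑ᶠ c ∈ {c | P c ∧ Q c}, f c = ∑ᶠ c ∈ {c | P c}, (if Q c then f c else 0) := by
  refine finsum_congr fun c => ?_
  by_cases hp : P c <;> by_cases hq : Q c <;> simp [hp, hq]

theorem SF_of (h : GrpData ell tr κ) (t : ℝ) :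
    ∑ᶠ c ∈ {c : ConjClasses Γ | c ≠ ConjClasses.mk 1 ∧ cf ell c ≤ t},
      cf (ellp ell) c / (cf tr c - 2) = 2 * SF (geo ell tr) t := by
  classical
  have hce : ∀ g : Γ, cf ell (ConjClasses.mk g) = ell g := fun g =>
    cf_mk fun γ => (h.conj g γ).1
  have hct : ∀ g : Γ, cf tr (ConjClasses.mk g) = tr g := fun g =>
    cf_mk fun γ => (h.conj g γ).2
  have hcp : ∀ g : Γ, g ≠ 1 → cf (ellp ell) (ConjClasses.mk g) = ellp ell g := fun g hg =>
    cf_mk fun γ => ellp_conj h hg γ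
  unfold SF
  rw [R13_fin_if (fun c : ConjClasses Γ => c ≠ ConjClasses.mk 1) (fun c => cf ell c ≤ t),
    dict h (fun c => if cf ell c ≤ t then cf (ellp ell) c / (cf tr c - 2) else 0) (t := t)
    (fun g => by
      by_cases hg : g = 1
      · subst hg
        rw [inv_one]
      · have hg' : g⁻¹ ≠ 1 := inv_ne_one.2 hg
        show (if cf ell (ConjClasses.mk g⁻¹) ≤ t then _ else _) = _
        rw [hce, hct, hcp _ hg', hce, hct, hcp _ hg, (h.inv g).1, (h.inv g).2, ellp_inv h hg])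
    (fun g hg => by
      show (if cf ell (ConjClasses.mk g) ≤ t then _ else _) = (0 : ℝ)
      rw [hce, if_neg (not_le.2 hg)]),
    R13_fin_if (fun q : (geo ell tr).P × ℕ => 1 ≤ q.2) (fun q => q.2 * (geo ell tr).len q.1 ≤ t)]
  congr 1
  refine finsum_mem_congr rfl fun q hq => ?_
  have hq1 : 1 ≤ q.2 := hq
  rw [hce, hct, hcp _ (pow_ne h q.1 hq1), ellp_pow h (rep_prim q.1) hq1, h.pow]
  rfl

end GH

namespace SR85Z

open BGS BR HG20

variable {Γ : Type} [Group Γ] [MulAction Γ Pl] {D : Set Pl}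

/-- **The sum rule in windows.** -/
theorem sumrule2 (hX : Surface Γ D) (hO : Ori Γ) (m : Mt Γ D) :
    GWin.SumRule2 (GH.geo (BGM.tl m.1.1) (GD.trg m.1.1) (Γ := Γ)) := by
  obtain ⟨a, b, LK, hc, hG⟩ := hg_of hX hO m
  have hD := GD.grpData hX hO hc.hm hc.a_pos hc.K_le
  obtain ⟨A, hll, hA⟩ := axes_of hc hG hD
  obtain ⟨ψ, hψ⟩ := SR85.exists_part hX
  have hout : ∀ c : ConjClasses Γ, ConjClasses.mk (Quotient.out c : Γ) = c :=
    fun c => Quotient.out_eq c
  have hne : ∀ c : ConjClasses Γ, c ≠ ConjClasses.mk 1 → (Quotient.out c : Γ) ≠ 1 := by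
    intro c hc h1
    exact hc (by rw [← hout c, h1])
  have key : ∀ t : ℝ, 0 ≤ t → (SR85.Lam _ A ψ t).toReal =
      2 * GWin.SF (GH.geo (BGM.tl m.1.1) (GD.trg m.1.1) (Γ := Γ)) t := by
    intro t ht
    rw [SR85.Lam_class hX hG A hψ (GH.ellp (BGM.tl m.1.1)) (fun g hg => (hA g hg).2) t,
      ← GH.SF_of hD t, ← Z_fin hD ht]
    congr 1
    refine tsum_congr fun c => ?_
    rw [hll, (hA _ (hne c.1 c.2)).1]
  have h1 := (SR85.Lam_win hX hG A hψ).const_mul (1 / 2)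
  rw [mul_one] at h1
  unfold GWin.SumRule2
  refine h1.congr' ?_
  have e1 : ∀ᶠ q : ℝ × ℝ in atTop ×ˢ atTop, 0 ≤ q.1 :=
    tendsto_fst.eventually (eventually_ge_atTop 0)
  have e2 : ∀ᶠ q : ℝ × ℝ in atTop ×ˢ atTop, 0 ≤ q.2 :=
    tendsto_snd.eventually (eventually_ge_atTop 0)
  filter_upwards [e1, e2] with q hq1 hq2
  rw [key _ hq1, key _ (add_nonneg hq1 hq2)]
  ring

end SR85Z
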