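import Pool.Agent.LibSW73.Defs
import Pool.Agent.LibGWa.V2

/-! Row R14: from all repetitions to the primitive closed geodesics, in windows. 50 min.
PLAN. `SF G t = Psi G t + E t`, where `E t = ∑ p ∈ ball G t, ∑ k ∈ Icc 2 n, [k * len p ≤ t] len p / tw p k` (`n` large) is
nonnegative, monotone and bounded: by `h.pw` `len p / tw p k ≤ w G p * exp (-((k - 1) * (κ * len p)))`, the sum over `k ≥ 2`
is `≤ C w G p * exp (-(κ * len p))` (the lengths are bounded below: `h.pos`, `h.fin`), and `∑ p ∈ ball G t, w G p *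
exp (-(κ len p)) ≤ C'` for all `t` as `Psi G t ≤ C'' t` (`Psi_growth`; sum over the unit blocks of lengths, or Abel
summation). See `exp_sum_small`, `Psi_tendsto` (`LibGWa/V2`) for the finsum bookkeeping. Hence
`|(SF (x + M) - SF x) - (Psi (x + M) - Psi x)| ≤ C'` for `0 ≤ M` and `C' / M → 0` along `atTop ×ˢ atTop`. -/

open MeasureTheory Set Filter Topology
open scoped ContDiff

namespace GWin

variable {G : Geo} {κ : ℝ}

/-- the blocks -/
theorem R14_block (h : Ok G κ) (M : ℝ) (hg : ∀ t : ℝ, 0 ≤ t → Psi G t ≤ M * (1 + t)) (N : ℕ) :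
    ∑ p ∈ ball G (N : ℝ), w G p * Real.exp (-(κ * G.len p)) ≤
      ∑ n ∈ Finset.range N, M * ((n : ℝ) + 2) * Real.exp (-κ) ^ n := by
  classical
  induction N with
  | zero =>
    rw [Finset.range_zero, Finset.sum_empty]
    refine le_of_eq (Finset.sum_eq_zero fun p hp => ?_)
    rw [mem_ball h, Nat.cast_zero] at hp
    exact absurd hp (not_le.2 (h.pos p))
  | succ N ih =>
    have hNN : (N : ℝ) ≤ ((N + 1 : ℕ) : ℝ) := by push_cast; linarith
    rw [Finset.sum_range_succ, ← Finset.sum_sdiff (ball_mono h hNN), add_comm]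
    refine add_le_add ih ?_
    have h7 : ∑ p ∈ ball G ((N + 1 : ℕ) : ℝ) \ ball G (N : ℝ), w G p * Real.exp (-(κ * G.len p))
        ≤ ∑ p ∈ ball G ((N + 1 : ℕ) : ℝ) \ ball G (N : ℝ), w G p * Real.exp (-κ) ^ N := by
      refine Finset.sum_le_sum fun p hp => ?_
      rw [Finset.mem_sdiff, mem_ball h, mem_ball h, not_le] at hp
      refine mul_le_mul_of_nonneg_left ?_ (w_pos h p).le
      rw [← Real.exp_nat_mul, Real.exp_le_exp]
      have := hp.2
      have hk := h.kpos
      nlinarith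
    refine h7.trans ?_
    rw [← Finset.sum_mul]
    refine mul_le_mul_of_nonneg_right ?_ (by positivity)
    have h8 : ∑ p ∈ ball G ((N + 1 : ℕ) : ℝ) \ ball G (N : ℝ), w G p ≤ Psi G ((N + 1 : ℕ) : ℝ) :=
      Finset.sum_le_sum_of_subset_of_nonneg Finset.sdiff_subset fun p _ _ => (w_pos h p).le
    refine h8.trans ((hg _ (Nat.cast_nonneg _)).trans (le_of_eq ?_))
    push_cast
    ring

/-- the exponentially weighted sum is bounded -/
theorem R14_bdd (h : Ok G κ) (hS : SumRule G) : ∃ K : ℝ, ∀ t : ℝ,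
    ∑ p ∈ ball G t, w G p * Real.exp (-(κ * G.len p)) ≤ K := by
  obtain ⟨M, hM, hg⟩ := Psi_growth h hS
  have hk := h.kpos
  have hr : ‖Real.exp (-κ)‖ < 1 := by
    rw [Real.norm_eq_abs, abs_of_pos (Real.exp_pos _), Real.exp_lt_one_iff]
    linarith
  have hs : Summable fun n : ℕ => M * ((n : ℝ) + 2) * Real.exp (-κ) ^ n := by
    have h1 := summable_pow_mul_geometric_of_norm_lt_one 1 hr
    have h2 := summable_pow_mul_geometric_of_norm_lt_one 0 hr
    have h3 := (h1.mul_left M).add (h2.mul_left (2 * M))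
    refine h3.congr fun n => ?_
    ring
  refine ⟨∑' n : ℕ, M * ((n : ℝ) + 2) * Real.exp (-κ) ^ n, fun t => ?_⟩
  have h1 : ∑ p ∈ ball G t, w G p * Real.exp (-(κ * G.len p)) ≤
      ∑ p ∈ ball G (⌈t⌉₊ : ℝ), w G p * Real.exp (-(κ * G.len p)) :=
    Finset.sum_le_sum_of_subset_of_nonneg (ball_mono h (Nat.le_ceil t))
      fun p _ _ => mul_nonneg (w_pos h p).le (Real.exp_pos _).le
  refine h1.trans ((R14_block h M hg _).trans ?_)
  exact hs.sum_le_tsum _ fun n _ => by positivity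

theorem win_of (h : Ok G κ) (hS : SumRule G) (hW : SumRule2 G) : WinRule G := by
  obtain ⟨C, hC, hb⟩ := full_bounds h
  obtain ⟨K, hK⟩ := R14_bdd h hS
  have hE : ∀ t, 0 ≤ SF G t - Psi G t ∧ SF G t - Psi G t ≤ C * K := by
    intro t
    have h1 := hb t
    have h2 := mul_le_mul_of_nonneg_left (hK t) hC
    unfold SF
    constructor
    · linarith [h1.1]
    · linarith [h1.2]
  have hsnd : Tendsto (fun q : ℝ × ℝ => q.2) (atTop ×ˢ atTop) atTop := tendsto_snd
  have h0 : Tendsto (fun q : ℝ × ℝ => C * K / q.2) (atTop ×ˢ atTop) (𝓝 0) :=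
    hsnd.const_div_atTop (C * K)
  have h1 : Tendsto (fun q : ℝ × ℝ => ((SF G (q.1 + q.2) - Psi G (q.1 + q.2)) -
      (SF G q.1 - Psi G q.1)) / q.2) (atTop ×ˢ atTop) (𝓝 0) := by
    refine squeeze_zero_norm' ?_ h0
    filter_upwards [hsnd.eventually (eventually_gt_atTop 0)] with q hq
    rw [Real.norm_eq_abs, abs_div, abs_of_pos hq]
    refine div_le_div_of_nonneg_right ?_ hq.le
    have h2 := hE (q.1 + q.2)
    have h3 := hE q.1
    rw [abs_le]
    constructor <;> linarith [h2.1, h2.2, h3.1, h3.2]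
  have h2 := Tendsto.sub hW h1
  rw [sub_zero] at h2
  refine h2.congr fun q => ?_
  ring

end GWin
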