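import Pool.Agent.LibSW73.R15
import Pool.Agent.LibNV73.Q7

/-! Row R16: the variance of one mollified sharp window. 40 min.
PLAN. As `vr_log` (`LibNV73/Q7`; `Q7_ftF`, `Q7_norm`, `Q7_b`, `Q7_low` are private there: copy), with `c = 1` and no integral:
by `Q7_low` with `x = x0 * L` and `cos_log` (`ε' ` small, `y = η * L * M`)
`Vr ≥ 16 (1 - δ) / (4 π^2) * ((1 / 2 - δ) log (η M / x0) - 1) ≥ (2 / π^2 - ε) log M` for `M` large. -/

open MeasureTheory Set Filter Topology FG33 SC35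
open scoped ContDiff

namespace NV73

open GWin EM73

private theorem R16_ftF (c x : ℝ) : ftF (ind c) x =
    ∫ u in (0 : ℝ)..(max c 0), Complex.exp (-(Complex.I * (x * u : ℝ))) := by
  unfold ftF ind
  have e1 : (fun u : ℝ => ((indicator (Ico (0 : ℝ) c) (1 : ℝ → ℝ) u : ℝ) : ℂ) *
      Complex.exp (-(Complex.I * (x * u : ℝ)))) =
      indicator (Ico (0 : ℝ) c) (fun u : ℝ => Complex.exp (-(Complex.I * (x * u : ℝ)))) := by
    funext u
    by_cases hu : u ∈ Ico (0 : ℝ) c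
    · rw [indicator_of_mem hu, indicator_of_mem hu]
      simp only [Pi.one_apply, Complex.ofReal_one, one_mul]
    · rw [indicator_of_notMem hu, indicator_of_notMem hu]
      simp
  rw [e1, integral_indicator measurableSet_Ico]
  rcases le_total c 0 with hc | hc
  · rw [max_eq_right hc, Ico_eq_empty (not_lt.mpr hc)]
    simp
  · rw [max_eq_left hc, integral_Ico_eq_integral_Ioc, ← intervalIntegral.integral_of_le hc]

private theorem R16_norm (c x : ℝ) (hc : 0 ≤ c) (h : x ≠ 0) : ‖ftF (ind c) x‖ ^ 2 =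
    (2 - 2 * Real.cos (c * x)) / x ^ 2 := by
  have h0 : ftF (ind c) x = (Complex.exp (-(Complex.I * ((c * x : ℝ) : ℂ))) - 1) /
      (-(Complex.I * (x : ℂ))) := by
    rw [R16_ftF, max_eq_left hc]
    have e1 : (fun u : ℝ => Complex.exp (-(Complex.I * (x * u : ℝ)))) =
        fun u : ℝ => Complex.exp (-(Complex.I * (x : ℂ)) * u) := by
      funext u
      congr 1
      push_cast
      ring
    rw [e1, integral_exp_mul_complex]
    · congr 2
      · congr 1
        push_cast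
        ring
      · simp
    · simp [h]
  rw [h0, norm_div, div_pow]
  have h1 : ‖(-(Complex.I * (x : ℂ)) : ℂ)‖ ^ 2 = x ^ 2 := by
    simp
  have h2 : ‖Complex.exp (-(Complex.I * ((c * x : ℝ) : ℂ))) - 1‖ ^ 2 =
      2 - 2 * Real.cos (c * x) := by
    have e : Complex.exp (-(Complex.I * ((c * x : ℝ) : ℂ))) =
        (Real.cos (c * x) : ℂ) - (Real.sin (c * x) : ℂ) * Complex.I := by
      rw [show (-(Complex.I * ((c * x : ℝ) : ℂ)) : ℂ) = ((-(c * x) : ℝ) : ℂ) * Complex.I by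
        push_cast; ring, Complex.exp_mul_I,
        ← Complex.ofReal_cos, ← Complex.ofReal_sin, Real.cos_neg, Real.sin_neg]
      push_cast
      ring
    rw [e, ← Complex.normSq_eq_norm_sq, Complex.normSq_apply]
    simp only [Complex.sub_re, Complex.sub_im, Complex.mul_re, Complex.mul_im, Complex.ofReal_re,
      Complex.ofReal_im, Complex.I_re, Complex.I_im, Complex.one_re, Complex.one_im]
    nlinarith [Real.sin_sq_add_cos_sq (c * x)]
  rw [h1, h2]

private theorem R16_b {b : ℝ → ℂ} (hb : Ker b) {δ : ℝ} (hδ : 0 < δ) : ∃ η : ℝ, 0 < η ∧ η ≤ 1 ∧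
    ∀ y, 0 ≤ y → y ≤ η → (1 - δ) / (4 * Real.pi ^ 2) ≤ ‖b y‖ ^ 2 := by
  have hc : Continuous fun y => ‖b y‖ ^ 2 := (hb.amp.smooth.continuous.norm).pow 2
  have hpi := Real.pi_pos
  have h0 : ‖b 0‖ ^ 2 = 1 / (4 * Real.pi ^ 2) := by
    rw [hb.zero, Complex.norm_real, Real.norm_eq_abs, sq_abs]
    field_simp
    norm_num
  have h1 : (1 - δ) / (4 * Real.pi ^ 2) < ‖b 0‖ ^ 2 := by
    rw [h0]
    apply div_lt_div_of_pos_right _ (by positivity)
    linarith
  have h2 : ∀ᶠ y in 𝓝 (0 : ℝ), (1 - δ) / (4 * Real.pi ^ 2) < ‖b y‖ ^ 2 :=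
    hc.continuousAt.eventually (lt_mem_nhds h1)
  obtain ⟨r, hr, hr'⟩ := Metric.eventually_nhds_iff.mp h2
  refine ⟨min 1 (r / 2), lt_min one_pos (by linarith), min_le_left _ _, fun y hy0 hy => ?_⟩
  refine (hr' ?_).le
  rw [Real.dist_eq, sub_zero, abs_of_nonneg hy0]
  have := hy.trans (min_le_right _ _)
  linarith

open Classical in
private theorem R16_low {G : Geo} {κ : ℝ} (h : Ok G κ) {b : ℝ → ℂ} {ρ η δ : ℝ}
    (hρ : 1 ≤ ρ) (hη : 0 < η) (hη1 : η ≤ 1)
    (hb2 : ∀ y, 0 ≤ y → y ≤ η → (1 - δ) / (4 * Real.pi ^ 2) ≤ ‖b y‖ ^ 2)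
    {M L : ℝ} (hM : 0 < M) (hL : 0 < L) (c x : ℝ) (hc : 0 ≤ c) (hx : 0 < x) :
    ∑ p ∈ ball G (η * L * M) with x < G.len p,
      (16 * ((1 - δ) / (4 * Real.pi ^ 2))) * (w G p / G.len p) *
        (1 - Real.cos (c * (G.len p / L))) ≤ Vr G (aR b (ind c) M) (ρ * M) L := by
  unfold Vr
  rw [Finset.mul_sum]
  have hsub : (ball G (η * L * M)).filter (fun p => x < G.len p) ⊆ ball G (ρ * M * L) := by
    intro p hp
    rw [Finset.mem_filter, mem_ball h] at hp
    rw [mem_ball h]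
    refine hp.1.trans ?_
    have h1 : η * L * M ≤ 1 * L * M := by gcongr
    have h2 : 1 * L * M ≤ ρ * L * M := by gcongr
    calc η * L * M ≤ 1 * L * M := h1
      _ ≤ ρ * L * M := h2
      _ = ρ * M * L := by ring
  have hnn : ∀ p ∈ ball G (ρ * M * L), 0 ≤ 1 / 2 * ∑ k ∈ Finset.range (KK G (ρ * M * L)),
      ‖amp G (aR b (ind c) M) L p k‖ ^ 2 := by
    intro p _
    have : 0 ≤ ∑ k ∈ Finset.range (KK G (ρ * M * L)), ‖amp G (aR b (ind c) M) L p k‖ ^ 2 :=
      Finset.sum_nonneg fun k _ => by positivity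
    linarith
  refine le_trans ?_ (Finset.sum_le_sum_of_subset_of_nonneg hsub fun p hp _ => hnn p hp)
  refine Finset.sum_le_sum fun p hp => ?_
  have hpb := hsub hp
  rw [Finset.mem_filter, mem_ball h] at hp
  have hlen := h.pos p
  have hw := w_pos h p
  -- one repetition
  have hK : 1 ≤ KK G (ρ * M * L) := by
    by_contra hcon
    have h0 : KK G (ρ * M * L) = 0 := by omega
    have h1 := KK_spec h (ρ * M * L) p
    rw [h0] at h1
    have h2 := (mem_ball h).1 hpb
    simp at h1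
    linarith
  have h1 : ‖amp G (aR b (ind c) M) L p 0‖ ^ 2 ≤ ∑ k ∈ Finset.range (KK G (ρ * M * L)),
      ‖amp G (aR b (ind c) M) L p k‖ ^ 2 :=
    Finset.single_le_sum (f := fun k => ‖amp G (aR b (ind c) M) L p k‖ ^ 2)
      (fun k _ => by positivity) (Finset.mem_range.mpr hK)
  have hxp : 0 < G.len p / L := div_pos hlen hL
  have h2 : ‖amp G (aR b (ind c) M) L p 0‖ ^ 2 = 32 * (w G p / G.len p) *
      (1 - Real.cos (c * (G.len p / L))) * ‖b (G.len p / L / M)‖ ^ 2 := by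
    rw [amp_sq h _ hL]
    unfold aR
    rw [norm_mul, mul_pow]
    have e1 : ((((0 : ℕ) : ℝ) + 1) * G.len p / L) = G.len p / L := by
      simp
    rw [e1, R16_norm c _ hc hxp.ne']
    unfold w
    have ht := tw1_pos h p
    simp only [zero_add]
    field_simp
    ring
  have h3 : (1 - δ) / (4 * Real.pi ^ 2) ≤ ‖b (G.len p / L / M)‖ ^ 2 := by
    apply hb2 _ (by positivity)
    rw [div_le_iff₀ hM, div_le_iff₀ hL]
    calc G.len p ≤ η * L * M := hp.1
      _ = η * M * L := by ring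
  have h4 : 0 ≤ 1 - Real.cos (c * (G.len p / L)) := by
    have := Real.cos_le_one (c * (G.len p / L))
    linarith
  have h5 : 0 ≤ w G p / G.len p * (1 - Real.cos (c * (G.len p / L))) := by positivity
  calc (16 * ((1 - δ) / (4 * Real.pi ^ 2))) * (w G p / G.len p) *
        (1 - Real.cos (c * (G.len p / L)))
      = 16 * (w G p / G.len p * (1 - Real.cos (c * (G.len p / L)))) *
          ((1 - δ) / (4 * Real.pi ^ 2)) := by ring
    _ ≤ 16 * (w G p / G.len p * (1 - Real.cos (c * (G.len p / L)))) *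
          ‖b (G.len p / L / M)‖ ^ 2 := by
        apply mul_le_mul_of_nonneg_left h3 (by positivity)
    _ = 1 / 2 * ‖amp G (aR b (ind c) M) L p 0‖ ^ 2 := by rw [h2]; ring
    _ ≤ _ := by linarith

theorem vr_log1 {G : Geo} {κ : ℝ} (h : Ok G κ) (hW : WinRule G) {b : ℝ → ℂ} (hb : Ker b) {ρ : ℝ}
    (hρ : 1 ≤ ρ) {ε : ℝ} (hε : 0 < ε) : ∃ M0 : ℝ, 1 ≤ M0 ∧ ∀ M L : ℝ, M0 ≤ M → M0 ≤ L →
      (2 / Real.pi ^ 2 - ε) * Real.log M ≤ Vr G (aR b (ind 1) M) (ρ * M) L := by
  classical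
  have hpi := Real.pi_pos
  have hpi9 : 9 < Real.pi ^ 2 := by nlinarith [Real.pi_gt_three]
  set δ : ℝ := min (ε / 2) (1 / 4) with hδd
  have hδ : 0 < δ := lt_min (by linarith) (by norm_num)
  have hδ4 : δ ≤ 1 / 4 := min_le_right _ _
  have hδε : δ ≤ ε / 2 := min_le_left _ _
  obtain ⟨η, hη, hη1, hb2⟩ := R16_b hb hδ
  obtain ⟨x0, hx0, hlog⟩ := cos_log h hW hδ
  have hx00 : 0 < x0 := by linarith
  set K : ℝ := 16 * ((1 - δ) / (4 * Real.pi ^ 2)) with hKd
  have hKv : K = 4 / Real.pi ^ 2 * (1 - δ) := by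
    rw [hKd]
    field_simp
    ring
  have hK0 : 0 ≤ K := by
    rw [hKv]
    have : 0 ≤ 1 - δ := by linarith
    positivity
  set β : ℝ := K * (1 / 2 - δ) with hβd
  set C : ℝ := β * Real.log (x0 / η) + K with hCd
  refine ⟨max (max x0 (x0 / η)) (Real.exp (2 * C / ε)),
    hx0.trans ((le_max_left _ _).trans (le_max_left _ _)), fun M L hM hL => ?_⟩
  have hM1 : x0 ≤ M := ((le_max_left _ _).trans (le_max_left _ _)).trans hM
  have hM2 : x0 / η ≤ M := ((le_max_right _ _).trans (le_max_left _ _)).trans hM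
  have hM3 : Real.exp (2 * C / ε) ≤ M := (le_max_right _ _).trans hM
  have hL1 : x0 ≤ L := ((le_max_left _ _).trans (le_max_left _ _)).trans hL
  have hM0 : 0 < M := by linarith
  have hL0 : 0 < L := by linarith
  have hAL : 0 < x0 * L := by positivity
  -- the logarithmic sum
  have h1 := hlog L (x0 * L) (η * L * M) hL1 le_rfl (by
    rw [div_le_iff₀ hη] at hM2
    calc x0 * L ≤ (M * η) * L := by gcongr
      _ = η * L * M := by ring)
  have e1 : η * L * M / (x0 * L) = M / (x0 / η) := by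
    field_simp
  rw [e1, Real.log_div hM0.ne' (by positivity)] at h1
  -- the lower bound of the variance
  have hlow : K * (∑ p ∈ ball G (η * L * M) with x0 * L < G.len p,
      w G p / G.len p * (1 - Real.cos (G.len p / L))) ≤ Vr G (aR b (ind 1) M) (ρ * M) L := by
    have h2 := R16_low h hρ hη hη1 hb2 hM0 hL0 1 (x0 * L) (by norm_num) hAL
    refine le_trans (le_of_eq ?_) h2
    rw [Finset.mul_sum]
    refine Finset.sum_congr rfl fun p _ => ?_
    rw [one_mul, hKd]
    ring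
  refine le_trans ?_ hlow
  have hlogM : 2 * C / ε ≤ Real.log M := by
    rw [← Real.log_exp (2 * C / ε)]
    exact Real.log_le_log (Real.exp_pos _) hM3
  have hlogM0 : 0 ≤ Real.log M := Real.log_nonneg (by linarith)
  refine le_trans ?_ (mul_le_mul_of_nonneg_left h1 hK0)
  have h3 : K * ((1 / 2 - δ) * (Real.log M - Real.log (x0 / η)) - 1) = β * Real.log M - C := by
    rw [hCd, hβd]
    ring
  rw [h3]
  have hC : C ≤ ε / 2 * Real.log M := by
    rw [div_le_iff₀ hε] at hlogM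
    linarith
  have hβ : 2 / Real.pi ^ 2 - ε / 2 ≤ β := by
    rw [hβd, hKv]
    have e2 : 4 / Real.pi ^ 2 * (1 - δ) * (1 / 2 - δ) =
        2 / Real.pi ^ 2 - 6 * δ / Real.pi ^ 2 + 4 / Real.pi ^ 2 * δ ^ 2 := by
      field_simp
      ring
    rw [e2]
    have h4 : 6 * δ / Real.pi ^ 2 ≤ δ := by
      rw [div_le_iff₀ (by positivity)]
      nlinarith
    have h5 : 0 ≤ 4 / Real.pi ^ 2 * δ ^ 2 := by positivity
    linarith
  have h6 : (2 / Real.pi ^ 2 - ε / 2) * Real.log M ≤ β * Real.log M :=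
    mul_le_mul_of_nonneg_right hβ hlogM0
  have h7 : (2 / Real.pi ^ 2 - ε) * Real.log M =
      (2 / Real.pi ^ 2 - ε / 2) * Real.log M - ε / 2 * Real.log M := by ring
  rw [h7]
  linarith

end NV73
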