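import Pool.Agent.LibSW73.R16
import Pool.Agent.LibNV73.Q9

/-! Row R17: the number variance of one window. 30 min.
PLAN. Copy of `num_low` (`LibNV73/Q9`) with `c = 1` only: `hmain` for `c = 1` and `vr_log1` instead of `vr_log`; no
integration over `c` (drop `hcontV`, `hint`, `Q9_ofReal`). -/

open MeasureTheory Set Filter Topology FG33 SC35
open scoped ContDiff

namespace NV73

open GWin EM73

/-- the numerical error terms, `T = y^20`, `δ = y` -/
private theorem R17_err {y : ℝ} (hy : 1 ≤ y) :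
    (1 + y) ^ (4 * 2 + 1) / y ^ 20 + (1 + y ^ 20) ^ (4 * 2) / y ^ 200 ≤ 768 := by
  have hy0 : 0 < y := by linarith
  have h1 : (1 + y) ^ (4 * 2 + 1) / y ^ 20 ≤ 512 := by
    rw [div_le_iff₀ (by positivity)]
    calc (1 + y) ^ (4 * 2 + 1) ≤ (2 * y) ^ (4 * 2 + 1) := by gcongr; linarith
      _ = 512 * y ^ 9 := by ring
      _ ≤ 512 * y ^ 20 := by
        have : y ^ 9 ≤ y ^ 20 := pow_le_pow_right₀ hy (by norm_num)
        linarith
  have h2 : (1 + y ^ 20) ^ (4 * 2) / y ^ 200 ≤ 256 := by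
    rw [div_le_iff₀ (by positivity)]
    have h3 : 1 ≤ y ^ 20 := one_le_pow₀ hy
    calc (1 + y ^ 20) ^ (4 * 2) ≤ (2 * y ^ 20) ^ (4 * 2) := by gcongr; linarith
      _ = 256 * y ^ 160 := by ring
      _ ≤ 256 * y ^ 200 := by
        have : y ^ 160 ≤ y ^ 200 := pow_le_pow_right₀ hy (by norm_num)
        linarith
  linarith

private theorem R17_pow {y : ℝ} (hy : 2 ≤ y) : 4 * y ≤ y ^ 20 := by
  have h1 : (2 : ℝ) ^ 19 ≤ y ^ 19 := by gcongr
  have h2 : y ^ 20 = y ^ 19 * y := by ring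
  rw [h2]
  have : (4 : ℝ) ≤ y ^ 19 := le_trans (by norm_num) h1
  nlinarith

/-- `(T - δ)^(-1/2) ≤ 2 y^(-10)` -/
private theorem R17_rpow {y : ℝ} (hy : 2 ≤ y) :
    y ^ 5 * (y ^ 20 - y) ^ (-(1 / 2) : ℝ) ≤ 2 := by
  have hy0 : 0 < y := by linarith
  have h4 := R17_pow hy
  have h1 : (y ^ 10 / 2) ^ 2 ≤ y ^ 20 - y := by
    have : (y ^ 10 / 2) ^ 2 = y ^ 20 / 4 := by ring
    rw [this]
    linarith
  have h0 : 0 < y ^ 10 / 2 := by positivity
  have h2 : (y ^ 20 - y) ^ (-(1 / 2) : ℝ) ≤ ((y ^ 10 / 2) ^ 2) ^ (-(1 / 2) : ℝ) :=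
    Real.rpow_le_rpow_of_nonpos (by positivity) h1 (by norm_num)
  have h3 : ((y ^ 10 / 2) ^ 2) ^ (-(1 / 2) : ℝ) = (y ^ 10 / 2)⁻¹ := by
    rw [Real.rpow_neg (by positivity), ← Real.sqrt_eq_rpow, Real.sqrt_sq h0.le]
  rw [h3] at h2
  calc y ^ 5 * (y ^ 20 - y) ^ (-(1 / 2) : ℝ) ≤ y ^ 5 * (y ^ 10 / 2)⁻¹ := by gcongr
    _ = 2 * (y ^ 5)⁻¹ := by
      field_simp
    _ ≤ 2 * 1 := by
      have : (y ^ 5)⁻¹ ≤ 1 := inv_le_one_of_one_le₀ (one_le_pow₀ (by linarith))
      linarith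
    _ = 2 := by norm_num

theorem num_low1 {G : Geo} {κ : ℝ} (h : Ok G κ) (hW : WinRule G) {lev : ℕ → ℝ} (hl : Lev lev)
    (hT : Trace G lev) {L : ℝ → ℝ} (hL : Tendsto L atTop atTop)
    (hL' : Tendsto (fun T => L T / Real.log T) atTop (𝓝 0)) {ε : ℝ} (hε : 0 < ε) :
    ∀ᶠ T in atTop, (2 / Real.pi ^ 2 - ε) * Real.log (Real.log T / L T) ≤
      tm T fun u => stF lev (ind 1) (L T) u ^ 2 := by
  obtain ⟨A, hA⟩ : ∃ A, A = 2 / Real.pi ^ 2 := ⟨_, rfl⟩
  have hA0 : 0 < A := by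
    rw [hA]
    positivity
  rw [← hA]
  -- `x → ∞`
  have hx : Tendsto (fun T => Real.log T / L T) atTop atTop := by
    have h1 : Tendsto (fun T => L T / Real.log T) atTop (𝓝[>] 0) := by
      refine tendsto_nhdsWithin_iff.2 ⟨hL', ?_⟩
      filter_upwards [hL.eventually (eventually_gt_atTop 0), eventually_gt_atTop 1] with T h2 h3
      exact div_pos h2 (Real.log_pos h3)
    refine (h1.inv_tendsto_nhdsGT_zero).congr fun T => ?_
    simp only [Pi.inv_apply, inv_div]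
  have hlx : Tendsto (fun T => Real.log (Real.log T / L T)) atTop atTop :=
    Real.tendsto_log_atTop.comp hx
  by_cases hAε : A - ε / 4 < 0
  · filter_upwards [hlx.eventually (eventually_ge_atTop 0), eventually_ge_atTop 0] with T h1 hT0
    have h2 : (A - ε) * Real.log (Real.log T / L T) ≤ 0 :=
      mul_nonpos_of_nonpos_of_nonneg (by linarith) h1
    refine h2.trans ?_
    rw [tm]
    refine mul_nonneg (by positivity) (intervalIntegral.integral_nonneg hT0 fun u hu => ?_)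
    exact mul_nonneg (by linarith [hu.2]) (sq_nonneg _)
  push Not at hAε
  -- the constants
  obtain ⟨s, hs0, hs1, hsA⟩ : ∃ s : ℝ, 0 < s ∧ s < 1 ∧ A - ε / 4 ≤ (1 - s) ^ 3 * A := by
    have h1 : Tendsto (fun s : ℝ => (1 - s) ^ 3 * A) (𝓝[>] 0) (𝓝 A) := by
      have h2 : Tendsto (fun s : ℝ => (1 - s) ^ 3 * A) (𝓝 0) (𝓝 ((1 - 0) ^ 3 * A)) :=
        (((continuous_const.sub continuous_id).pow 3).mul continuous_const).tendsto 0
      rw [sub_zero, one_pow, one_mul] at h2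
      exact h2.mono_left nhdsWithin_le_nhds
    have h3 : ∀ᶠ s : ℝ in 𝓝[>] 0, s < 1 :=
      (gt_mem_nhds one_pos).filter_mono nhdsWithin_le_nhds
    obtain ⟨s, ⟨h4, h5⟩, h6⟩ := ((h1.eventually (lt_mem_nhds (by linarith :
      A - ε / 4 < A))).and h3 |>.and self_mem_nhdsWithin).exists
    exact ⟨s, h6, h5, h4.le⟩
  obtain ⟨b, hb⟩ := ker_exists
  obtain ⟨B, ρ, hρ, hamp⟩ := ampB_ind hb
  obtain ⟨C1, hC1, hst⟩ := st_unif h hl hT B hs0 hs1
  obtain ⟨K, hK, hmoll⟩ := moll_unif hb (r := 2) (by decide) 200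
  obtain ⟨C2, hC2, hbd⟩ := bound_ind hl
  obtain ⟨M0, hM0, hvr⟩ := vr_log1 h hW hb hρ (ε := ε / 4) (by positivity)
  have hρ0 : 0 < ρ := by linarith
  obtain ⟨K', hK'⟩ : ∃ K', K' = 3 * C1 + C2 ^ 2 * (12 + 2 * K) * 768 := ⟨_, rfl⟩
  have hK'0 : 0 ≤ K' := by
    rw [hK']
    positivity
  have hy : Tendsto (fun T : ℝ => T ^ (1 / 20 : ℝ)) atTop atTop :=
    tendsto_rpow_atTop (by norm_num)
  filter_upwards [hlx.eventually (eventually_ge_atTop 0),
    hlx.eventually (eventually_ge_atTop (K' / (ε / 4))),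
    hlx.eventually (eventually_ge_atTop (Real.log (4 * C1 * ρ) / s)),
    hx.eventually (eventually_ge_atTop (M0 * (4 * C1 * ρ))),
    hL.eventually (eventually_ge_atTop M0),
    hy.eventually (eventually_ge_atTop (max 2 (2 / s))),
    eventually_gt_atTop 1] with T e1 e2 e3 e4 e5 e6 e7
  obtain ⟨l, hl'⟩ : ∃ l, l = L T := ⟨_, rfl⟩
  rw [← hl'] at e1 e2 e3 e4 e5 ⊢
  obtain ⟨x, hx'⟩ : ∃ x, x = Real.log T / l := ⟨_, rfl⟩
  rw [← hx'] at e1 e2 e3 e4 ⊢
  obtain ⟨y, hy'⟩ : ∃ y, y = T ^ (1 / 20 : ℝ) := ⟨_, rfl⟩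
  rw [← hy'] at e6
  have hT0 : 0 < T := by linarith
  have hl1 : 1 ≤ l := by linarith
  have hl0 : 0 < l := by linarith
  have hy2 : 2 ≤ y := (le_max_left _ _).trans e6
  have hys : 2 / s ≤ y := (le_max_right _ _).trans e6
  have hy0 : 0 < y := by linarith
  have hTy : T = y ^ 20 := by
    rw [hy', ← Real.rpow_natCast, ← Real.rpow_mul hT0.le]
    norm_num
  have h4y := R17_pow hy2
  have hlogT : 0 < Real.log T := Real.log_pos e7
  obtain ⟨M, hM⟩ : ∃ M, M = x / (4 * C1 * ρ) := ⟨_, rfl⟩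
  have hMM : M0 ≤ M := by
    rw [hM, le_div_iff₀ (by positivity)]
    exact e4
  have hM1 : 1 ≤ M := hM0.trans hMM
  have hx0 : 0 < x := by
    rw [hx']
    positivity
  have hRM : 1 ≤ ρ * M := one_le_mul_of_one_le_of_one_le hρ hM1
  have hexp : Real.exp (C1 * (ρ * M * l)) = y ^ 5 := by
    have h1 : C1 * (ρ * M * l) = Real.log T / 4 := by
      rw [hM, hx']
      field_simp
    rw [h1, hTy, Real.log_pow]
    have h2 : ((20 : ℕ) : ℝ) * Real.log y / 4 = Real.log (y ^ 5) := by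
      rw [Real.log_pow]
      push_cast
      ring
    rw [h2, Real.exp_log (by positivity)]
  -- the main inequality, for a given `c`
  obtain ⟨q, hq⟩ : ∃ q, q = ((T - y) / T) ^ 2 := ⟨_, rfl⟩
  have hTy' : 0 < T - y := by
    rw [hTy]
    linarith
  have hmain : ∀ c ∈ Icc (1 : ℝ) 2,
      q * ((1 - s) * Vr G (aR b (ind c) M) (ρ * M) l - K') ≤
        tm T fun u => stF lev (ind c) l u ^ 2 := by
    intro c hc
    have hA1 := hamp c M hc.1 hc.2 hM1
    have hT1 : 1 ≤ T - y := by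
      rw [hTy]
      linarith
    have h1 := hst (aR b (ind c) M) (ρ * M) hA1 hRM l (T - y) hl1 hT1
    have h2 := hmoll lev (ind c) C2 M hl rd_indc hC2
      (fun l' τ hl'' => hbd c l' τ hc.1 hc.2 hl'') hM1 l T y hl1 (by linarith)
      (by rw [hTy]; linarith)
    rw [hexp] at h1
    have h3 : C1 * (1 / l + y ^ 5 * (T - y) ^ (-(1 / 2) : ℝ)) ≤ 3 * C1 := by
      have h4 : 1 / l ≤ 1 := by
        rw [div_le_one hl0]
        exact hl1
      have h5 := R17_rpow hy2
      rw [← hTy] at h5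
      calc C1 * (1 / l + y ^ 5 * (T - y) ^ (-(1 / 2) : ℝ)) ≤ C1 * (1 + 2) :=
            mul_le_mul_of_nonneg_left (add_le_add h4 h5) hC1.le
        _ = 3 * C1 := by ring
    have h6 : C2 ^ 2 * (12 + 2 * K) * ((1 + y) ^ (4 * 2 + 1) / T + (1 + T) ^ (4 * 2) / y ^ 200) ≤
        C2 ^ 2 * (12 + 2 * K) * 768 := by
      have h7 := R17_err (y := y) (by linarith)
      rw [← hTy] at h7
      exact mul_le_mul_of_nonneg_left h7 (by positivity)
    have h8 : (1 - s) * Vr G (aR b (ind c) M) (ρ * M) l - K' ≤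
        (T / (T - y)) ^ 2 * tm T (fun u => stF lev (ind c) l u ^ 2) := by
      rw [hK']
      linarith
    have hq0 : 0 ≤ q := by
      rw [hq]
      positivity
    calc q * ((1 - s) * Vr G (aR b (ind c) M) (ρ * M) l - K')
        ≤ q * ((T / (T - y)) ^ 2 * tm T (fun u => stF lev (ind c) l u ^ 2)) :=
          mul_le_mul_of_nonneg_left h8 hq0
      _ = _ := by
        rw [hq]
        have h9 : ((T - y) / T) ^ 2 * (T / (T - y)) ^ 2 = 1 := by
          rw [← mul_pow]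
          have : (T - y) / T * (T / (T - y)) = 1 := by field_simp
          rw [this, one_pow]
        rw [← mul_assoc, h9, one_mul]
  have hV := hvr M l hMM e5
  rw [← hA] at hV
  have hm1 := hmain 1 (by constructor <;> norm_num)
  obtain ⟨P, hP⟩ : ∃ P, P = Vr G (aR b (ind 1) M) (ρ * M) l := ⟨_, rfl⟩
  rw [← hP] at hV hm1
  have hfinal : (A - ε) * Real.log x ≤ q * ((1 - s) * P - K') := by
    have hlogM : (1 - s) * Real.log x ≤ Real.log M := by
      rw [hM, Real.log_div hx0.ne' (by positivity)]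
      rw [div_le_iff₀ hs0] at e3
      linarith
    have hs10 : 0 < 1 - s := by linarith
    have hP1 : (A - ε / 4) * ((1 - s) * Real.log x) ≤ P :=
      (mul_le_mul_of_nonneg_left hlogM hAε).trans hV
    have hP0 : 0 ≤ P := le_trans (by positivity) hP1
    have hq1 : q ≤ 1 := by
      rw [hq]
      refine pow_le_one₀ (by positivity) ?_
      rw [div_le_one hT0]
      linarith
    have hqs : 1 - s ≤ q := by
      have h1 : 1 - s / 2 ≤ (T - y) / T := by
        rw [le_div_iff₀ hT0]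
        rw [div_le_iff₀ hs0] at hys
        have h2 : y ^ 2 ≤ T := by
          rw [hTy]
          exact pow_le_pow_right₀ (by linarith) (by norm_num)
        have h3 : 2 * y ≤ s * T := by
          calc 2 * y ≤ y * s * y := mul_le_mul_of_nonneg_right hys hy0.le
            _ = s * y ^ 2 := by ring
            _ ≤ s * T := mul_le_mul_of_nonneg_left h2 hs0.le
        have h4 : (1 - s / 2) * T = T - s * T / 2 := by ring
        rw [h4]
        linarith
      rw [hq]
      have h2 : 0 ≤ 1 - s / 2 := by linarith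
      have h3 : (1 - s / 2) ^ 2 = 1 - s + s ^ 2 / 4 := by ring
      have h4 := sq_nonneg s
      calc 1 - s ≤ (1 - s / 2) ^ 2 := by
            rw [h3]
            linarith
        _ ≤ _ := by gcongr
    have e2' : K' ≤ ε / 4 * Real.log x := by
      rw [div_le_iff₀ (by positivity)] at e2
      linarith
    have h1 : (1 - s) * ((1 - s) * P) ≤ q * ((1 - s) * P) :=
      mul_le_mul_of_nonneg_right hqs (by positivity)
    have h2 : q * K' ≤ K' := mul_le_of_le_one_left hK'0 hq1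
    have h3 : (1 - s) ^ 2 * ((A - ε / 4) * ((1 - s) * Real.log x)) ≤ (1 - s) ^ 2 * P :=
      mul_le_mul_of_nonneg_left hP1 (by positivity)
    have h4 : (1 - s) ^ 3 * (ε / 4) ≤ ε / 4 := by
      have : (1 - s) ^ 3 ≤ 1 := pow_le_one₀ hs10.le (by linarith)
      exact mul_le_of_le_one_left (by positivity) this
    have h5 : (A - ε / 4 - ε / 4) * Real.log x ≤
        ((1 - s) ^ 3 * A - (1 - s) ^ 3 * (ε / 4)) * Real.log x :=
      mul_le_mul_of_nonneg_right (by linarith) e1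
    have h6 : (1 - s) ^ 2 * ((A - ε / 4) * ((1 - s) * Real.log x)) =
        ((1 - s) ^ 3 * A - (1 - s) ^ 3 * (ε / 4)) * Real.log x := by ring
    have h7 : (1 - s) * ((1 - s) * P) = (1 - s) ^ 2 * P := by ring
    have h8 : (A - ε / 4 - ε / 4) * Real.log x - ε / 4 * Real.log x =
        (A - ε) * Real.log x + ε / 4 * Real.log x := by ring
    have h9 : 0 ≤ ε / 4 * Real.log x := by positivity
    rw [mul_sub]
    linarith
  exact hfinal.trans hm1

end NV73
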