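import Pool.Agent.LibSW73.R13
import Pool.Agent.LibSW73.R14
import Pool.Agent.LibSW73.R17
import Pool.Agent.LibNV73.F4

/-! The number variance of every metric, one window. -/

open MeasureTheory ProbabilityTheory Set Filter Topology FG33 BGS
open scoped ContDiff ENNReal NNReal

namespace NV73

open EM73 GWin

variable {Γ : Type} [Group Γ] [MulAction Γ Pl] {D : Set Pl}

/-- Every metric: the number variance of one window. -/
theorem numVar_low1 (hX : Surface Γ D) (hO : BR.Ori Γ) (m : Mt Γ D)
    {L : ℝ → ℝ} (hL : Tendsto L atTop atTop)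
    (hL' : Tendsto (fun T => L T / Real.log T) atTop (𝓝 0)) {ε : ℝ} (hε : 0 < ε) :
    ∀ᶠ T in atTop, (2 / Real.pi ^ 2 - ε) * Real.log (Real.log T / L T) ≤ numVar m T (1 / L T) := by
  obtain ⟨G, κ, hG, hok, hSR, hl, hT⟩ := data_of hX hO m
  have hW : WinRule G := win_of hok hSR (hG ▸ SR85Z.sumrule2 hX hO m)
  filter_upwards [num_low1 hok hW hl hT hL hL' hε, hL.eventually_gt_atTop 0] with T h1 h2
  rw [numVar_eq hX m h2 one_pos]
  exact h1

end NV73
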