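import Pool.Agent.LibSR85.N11
import Pool.Agent.LibSR85.N12
import Pool.Agent.LibGWa.Vdefs

/-! The sum rule in windows `(a, b]`: definitions. The limits are along `atTop ×ˢ atTop` in
`q = (x, M)`, the window is `(x, x + M]`. -/

open MeasureTheory Set Filter Topology
open scoped ContDiff ENNReal NNReal ComplexConjugate

namespace SR85

open BGS (Pl Surface)

variable {Γ : Type} [Group Γ] [MulAction Γ Pl] {D : Set Pl} {G : Dat Γ}

/-- Sum over the group of the kernel `K` along the flow, times in `(a, b]`. -/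
noncomputable def WK2 (G : Dat Γ) (K : Pl × ℂ → Pl × ℂ → ℝ) (a b : ℝ) : ℝ≥0∞ :=
  ∑' g : Γ, ∫⁻ s in Ioc a b, ∫⁻ p,
    ENNReal.ofReal (K p (act G g⁻¹ (phi G s p))) ∂(muS G)

/-- The two-point integral of the kernel `K` for the element `g`, distances in `(a, b]`. -/
noncomputable def wg2 (G : Dat Γ) (K : Pl × ℂ → Pl × ℂ → ℝ) (a b : ℝ) (g : Γ) : ℝ≥0∞ :=
  ∫⁻ x, (∫⁻ x', (if a < G.d x (g • x') ∧ G.d x (g • x') ≤ b then
      ENNReal.ofReal (K (x, G.di x (g • x')) (x', -G.di x' (g⁻¹ • x)) / G.J x (g • x')) else 0) *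
    ENNReal.ofReal (G.rho x')) * ENNReal.ofReal (G.rho x)

/-- The loop integral of the element `g`, lengths in `(a, b]`. -/
noncomputable def lg2 (G : Dat Γ) (κ : ℂ → ℝ) (ψ : Pl → ℝ) (a b : ℝ) (g : Γ) : ℝ≥0∞ :=
  ∫⁻ x, (if a < G.d x (g • x) ∧ G.d x (g • x) ≤ b then
      ENNReal.ofReal (ψ x * κ (al G g x) / G.J x (g • x)) else 0) * ENNReal.ofReal (G.rho x)

/-- The sum over the elements of the group with length in `(a, b]`. -/
noncomputable def Lam2 (G : Dat Γ) (A : Axes G) (ψ : Pl → ℝ) (a b : ℝ) : ℝ≥0∞ :=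
  ∑' g : {g : Γ // g ≠ 1}, if a < A.ll g.1 ∧ A.ll g.1 ≤ b then
    ENNReal.ofReal (Iax G ψ (A.cc g.1) (A.uu g.1) / Dax G g.1 (A.cc g.1)) else 0

end SR85

namespace GWin

/-- The sum of the sum rule, all repetitions. -/
noncomputable def SF (G : Geo) (t : ℝ) : ℝ :=
  ∑ᶠ q ∈ {q : G.P × ℕ | 1 ≤ q.2 ∧ q.2 * G.len q.1 ≤ t}, G.len q.1 / G.tw q.1 q.2

/-- The sum rule in windows, all repetitions. -/
def SumRule2 (G : Geo) : Prop :=
  Tendsto (fun q : ℝ × ℝ => (SF G (q.1 + q.2) - SF G q.1) / q.2) (atTop ×ˢ atTop) (𝓝 (1 / 2))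

/-- The sum rule in windows for the primitive closed geodesics. -/
def WinRule (G : Geo) : Prop :=
  Tendsto (fun q : ℝ × ℝ => (Psi G (q.1 + q.2) - Psi G q.1) / q.2) (atTop ×ˢ atTop) (𝓝 (1 / 2))

end GWin
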