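import Pool.Agent.LibSW73.Defs

/-! Row R1: the mean ergodic theorem over a compact set, at the time `x`, uniformly in `x ≥ 0`. 40 min.
PLAN. Copy of `mean_erg_N` (`LibSR85/M6`), with `H p = ofReal |avg G f M p.1 p.2 - mean D G f|` replaced by `H ∘ phi G x`:
invariant under `act` by `phi_smul` and `avg_smul`, measurable by `phi_cont`. So the integral over `N ×ˢ univ` is
`≤ card * ∫⁻ H (phi G x p) ∂muD = card * ∫⁻ H ∂muD` for `0 ≤ x` (`inv_flow`, `LibSR85/M4`), which does not depend on `x` and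
tends to `0` as `M → ∞` (`mean_erg`). Squeeze along `atTop ×ˢ atTop` (`tendsto_snd`, `tendsto_fst.eventually
(eventually_ge_atTop 0)`). -/

open MeasureTheory Set Filter Topology
open scoped ContDiff ENNReal NNReal ComplexConjugate

namespace SR85

open BGS (Pl Surface)

variable {Γ : Type} [Group Γ] [MulAction Γ Pl] {D : Set Pl} {G : Dat Γ}

private theorem R1_avg (h : HG D G) {f : Pl → Pl → ℝ}
    (hf : Continuous fun q : Pl × Pl => f q.1 q.2) (T : ℝ) :
    Continuous fun p : Pl × ℂ => avg G f T p.1 p.2 := by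
  unfold avg
  refine continuous_const.mul ?_
  have h1 : Continuous (Function.uncurry fun (p : Pl × ℂ) (s : ℝ) =>
      f (G.E p.1 ((s : ℂ) * p.2)) (G.E p.1 (((s + 1 : ℝ) : ℂ) * p.2))) := by
    have e1 : Continuous fun q : (Pl × ℂ) × ℝ => G.E q.1.1 ((q.2 : ℂ) * q.1.2) :=
      h.E_cont.comp ((continuous_fst.comp continuous_fst).prodMk
        ((Complex.continuous_ofReal.comp continuous_snd).mul (continuous_snd.comp continuous_fst)))
    have e2 : Continuous fun q : (Pl × ℂ) × ℝ => G.E q.1.1 (((q.2 + 1 : ℝ) : ℂ) * q.1.2) :=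
      h.E_cont.comp ((continuous_fst.comp continuous_fst).prodMk
        ((Complex.continuous_ofReal.comp (continuous_snd.add continuous_const)).mul
          (continuous_snd.comp continuous_fst)))
    exact hf.comp (e1.prodMk e2)
  exact intervalIntegral.continuous_parametric_intervalIntegral_of_continuous' h1 0 T

private theorem R1_fin (hX : Surface Γ D) {K N : Set Pl} (hK : IsCompact K) (hN : IsCompact N) :
    {g : Γ | ∃ x ∈ K, g • x ∈ N}.Finite := by
  refine (hX.proper (K ∪ N) (hK.union hN)).subset ?_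
  rintro g ⟨x, hx, hgx⟩
  exact ⟨x, Or.inl hx, Or.inr hgx⟩

/-- The integral over a compact set of an invariant function. -/
private theorem R1_bound (hX : Surface Γ D) (h : HG D G) {N : Set Pl} (hN : IsCompact N)
    (hfin : {g : Γ | ∃ x ∈ closure D, g • x ∈ N}.Finite) {H : Pl × ℂ → ℝ≥0∞}
    (hHm : Measurable H) (hinv : ∀ (g : Γ) (p : Pl × ℂ), H (act G g p) = H p) :
    ∫⁻ p in N ×ˢ univ, H p ∂(muS G) ≤
      (hfin.toFinset.card : ℝ≥0∞) * ∫⁻ p, H p ∂(muD D G) := by
  classical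
  have hNm : MeasurableSet (N ×ˢ (univ : Set ℂ)) := hN.measurableSet.prod MeasurableSet.univ
  have hDm : MeasurableSet (D ×ˢ (univ : Set ℂ)) := hX.meas.prod MeasurableSet.univ
  have hFm : Measurable ((N ×ˢ (univ : Set ℂ)).indicator fun _ : Pl × ℂ => (1 : ℝ≥0∞)) :=
    measurable_const.indicator hNm
  have h1 := unfoldS hX h hFm hHm hinv
  have h2 : ∫⁻ p in N ×ˢ univ, H p ∂(muS G) =
      ∫⁻ p, (N ×ˢ (univ : Set ℂ)).indicator (fun _ : Pl × ℂ => (1 : ℝ≥0∞)) p * H p ∂(muS G) := by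
    rw [← lintegral_indicator hNm]
    refine lintegral_congr fun p => ?_
    by_cases hp : p ∈ N ×ˢ (univ : Set ℂ)
    · rw [indicator_of_mem hp, indicator_of_mem hp, one_mul]
    · rw [indicator_of_notMem hp, indicator_of_notMem hp, zero_mul]
  rw [h2, h1, ← lintegral_const_mul _ hHm]
  unfold muD
  refine setLIntegral_mono' hDm fun p hp => mul_le_mul_left ?_ _
  have h3 : ∀ g ∉ hfin.toFinset,
      (N ×ˢ (univ : Set ℂ)).indicator (fun _ : Pl × ℂ => (1 : ℝ≥0∞)) (act G g p) = 0 := by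
    intro g hg
    refine indicator_of_notMem (fun hmem => hg ?_) _
    rw [Set.Finite.mem_toFinset]
    exact ⟨p.1, subset_closure hp.1, hmem.1⟩
  rw [tsum_eq_sum h3]
  have h4 : ∀ g ∈ hfin.toFinset,
      (N ×ˢ (univ : Set ℂ)).indicator (fun _ : Pl × ℂ => (1 : ℝ≥0∞)) (act G g p) ≤ 1 := by
    intro g _
    by_cases hg : act G g p ∈ N ×ˢ (univ : Set ℂ)
    · rw [indicator_of_mem hg]
    · rw [indicator_of_notMem hg]
      exact bot_le
  refine (Finset.sum_le_card_nsmul _ _ 1 h4).trans (le_of_eq ?_)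
  rw [nsmul_eq_mul, mul_one]

theorem mean_erg_W (hX : Surface Γ D) (h : HG D G) {f : Pl → Pl → ℝ}
    (hf : Continuous fun q : Pl × Pl => f q.1 q.2)
    (hi : ∀ (g : Γ) x y, f (g • x) (g • y) = f x y) {N : Set Pl} (hN : IsCompact N) :
    Tendsto (fun q : ℝ × ℝ => ∫⁻ p in N ×ˢ univ, ENNReal.ofReal
      |avg G f q.2 (phi G q.1 p).1 (phi G q.1 p).2 - mean D G f| ∂(muS G))
      (atTop ×ˢ atTop) (𝓝 0) := by
  classical
  have hfin : {g : Γ | ∃ x ∈ closure D, g • x ∈ N}.Finite :=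
    R1_fin hX hX.bdd.isCompact_closure hN
  have hmain : ∀ q : ℝ × ℝ, 0 ≤ q.1 → ∫⁻ p in N ×ˢ univ, ENNReal.ofReal
      |avg G f q.2 (phi G q.1 p).1 (phi G q.1 p).2 - mean D G f| ∂(muS G) ≤
      (hfin.toFinset.card : ℝ≥0∞) *
        ∫⁻ p, ENNReal.ofReal |avg G f q.2 p.1 p.2 - mean D G f| ∂(muD D G) := by
    intro q hq
    set H : Pl × ℂ → ℝ≥0∞ := fun p => ENNReal.ofReal |avg G f q.2 p.1 p.2 - mean D G f| with hH
    have hHm : Measurable H :=
      (((R1_avg h hf q.2).sub continuous_const).abs.measurable).ennreal_ofReal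
    have hinv : ∀ (g : Γ) (p : Pl × ℂ), H (act G g p) = H p := by
      intro g p
      show ENNReal.ofReal |avg G f q.2 (g • p.1) (G.R g p.1 * p.2) - mean D G f| = _
      rw [avg_smul h hi]
    have hHm' : Measurable fun p : Pl × ℂ => H (phi G q.1 p) := hHm.comp (M3_meas h q.1)
    have hinv' : ∀ (g : Γ) (p : Pl × ℂ), H (phi G q.1 (act G g p)) = H (phi G q.1 p) := by
      intro g p
      rw [phi_smul h, hinv]
    have h1 := R1_bound hX h hN hfin hHm' hinv'
    rw [inv_flow hX h hq hHm hinv] at h1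
    exact h1
  have h0 : Tendsto (fun q : ℝ × ℝ => (hfin.toFinset.card : ℝ≥0∞) *
      ∫⁻ p, ENNReal.ofReal |avg G f q.2 p.1 p.2 - mean D G f| ∂(muD D G))
      (atTop ×ˢ atTop) (𝓝 0) := by
    have h1 := ENNReal.Tendsto.const_mul (a := (hfin.toFinset.card : ℝ≥0∞))
      (mean_erg hX h hf hi) (Or.inr (ENNReal.natCast_ne_top _))
    rw [mul_zero] at h1
    exact h1.comp tendsto_snd
  refine tendsto_of_tendsto_of_tendsto_of_le_of_le' tendsto_const_nhds h0
    (Eventually.of_forall fun _ => bot_le) ?_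
  filter_upwards [tendsto_fst.eventually (eventually_ge_atTop (0 : ℝ))] with q hq
  exact hmain q hq

end SR85
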