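import Pool.Agent.LibSW73.Defs

/-! Row R10: the sums over the elements, in windows. 35 min.
PLAN. `dom2`: copy of `dom` with `N10_cover`, `N10_conj_ne`, `N10_conj`, `N10_term` (`LibSR85/N10`, private there: copy), the
condition `A.ll g ≤ T` replaced by `a < A.ll g ∧ A.ll g ≤ b` (`A.ll` is invariant under conjugation). `Lam_add`: termwise,
`ENNReal.tsum_add`. -/

open MeasureTheory Set Filter Topology
open scoped ContDiff ENNReal NNReal ComplexConjugate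

namespace SR85

open BGS (Pl Surface)

variable {Γ : Type} [Group Γ] [MulAction Γ Pl] {D : Set Pl} {G : Dat Γ}

private theorem R10_cover (hX : Surface Γ D) {ψ₀ ψ₁ : Pl → ℝ} (hψ : Part Γ ψ₀)
    (hψ₁ : Continuous ψ₁) (hψ₁0 : ∀ x, 0 ≤ ψ₁ x) (hψ₁c : HasCompactSupport ψ₁) :
    ∃ (F : Finset Γ) (C : ℝ), 0 < C ∧ ∀ x, ψ₁ x ≤ C * ∑ k ∈ F, ψ₀ (k • x) := by
  have hk : ∀ k : Γ, Continuous fun x : Pl => ψ₀ (k • x) := fun k =>
    hψ.cont.comp (hX.smooth k).continuous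
  obtain ⟨F, hF⟩ := hψ₁c.isCompact.elim_finite_subcover (fun k : Γ => {x : Pl | 0 < ψ₀ (k • x)})
    (fun k => isOpen_lt continuous_const (hk k)) (by
      intro x _
      rw [mem_iUnion]
      by_contra hno
      simp only [not_exists, mem_ofPred_eq, not_lt] at hno
      have h1 := hψ.sum x
      have h2 : ∀ g : Γ, ENNReal.ofReal (ψ₀ (g • x)) = 0 := fun g =>
        ENNReal.ofReal_eq_zero.mpr (hno g)
      simp only [h2, tsum_zero] at h1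
      exact zero_ne_one h1)
  have hS : Continuous fun x : Pl => ∑ k ∈ F, ψ₀ (k • x) :=
    continuous_finsetSum _ fun k _ => hk k
  have hS0 : ∀ x : Pl, 0 ≤ ∑ k ∈ F, ψ₀ (k • x) := fun x =>
    Finset.sum_nonneg fun k _ => hψ.nonneg _
  have hSp : ∀ x ∈ tsupport ψ₁, 0 < ∑ k ∈ F, ψ₀ (k • x) := by
    intro x hx
    obtain ⟨k, hk1⟩ := mem_iUnion.mp (hF hx)
    obtain ⟨hkF, hk2⟩ := mem_iUnion.mp hk1
    exact lt_of_lt_of_le hk2
      (Finset.single_le_sum (f := fun k : Γ => ψ₀ (k • x)) (fun k _ => hψ.nonneg _) hkF)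
  by_cases hne : (tsupport ψ₁).Nonempty
  · obtain ⟨x₀, hx₀, hmin⟩ := hψ₁c.isCompact.exists_isMinOn hne hS.continuousOn
    obtain ⟨x₁, -, hmax⟩ := hψ₁c.isCompact.exists_isMaxOn hne hψ₁.continuousOn
    have hm := hSp x₀ hx₀
    refine ⟨F, (ψ₁ x₁ + 1) / ∑ k ∈ F, ψ₀ (k • x₀),
      div_pos (by linarith [hψ₁0 x₁]) hm, fun x => ?_⟩
    by_cases hx : x ∈ tsupport ψ₁
    · have h1 : ψ₁ x ≤ ψ₁ x₁ := hmax hx
      have h2 : ∑ k ∈ F, ψ₀ (k • x₀) ≤ ∑ k ∈ F, ψ₀ (k • x) := hmin hx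
      rw [div_mul_eq_mul_div, le_div_iff₀ hm]
      exact mul_le_mul (by linarith) h2 hm.le (by linarith [hψ₁0 x₁])
    · rw [image_eq_zero_of_notMem_tsupport hx]
      exact mul_nonneg (div_nonneg (by linarith [hψ₁0 x₁]) hm.le) (hS0 x)
  · refine ⟨F, 1, one_pos, fun x => ?_⟩
    have hx : x ∉ tsupport ψ₁ := fun hx => hne ⟨x, hx⟩
    rw [image_eq_zero_of_notMem_tsupport hx, one_mul]
    exact hS0 x

omit [MulAction Γ Pl] in
private theorem R10_conj_ne {g : Γ} (k : Γ) (hg : g ≠ 1) : k * g * k⁻¹ ≠ 1 := by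
  intro h5
  apply hg
  have h6 : k * g = k := by
    have := congrArg (fun z => z * k) h5
    simpa using this
  simpa using h6

private theorem R10_conj (hX : Surface Γ D) (h : HG D G) (A : Axes G) {g : Γ} (hg : g ≠ 1) (k : Γ)
    (ψ : Pl → ℝ) :
    A.ll (k * g * k⁻¹) = A.ll g ∧
      Iax G ψ (A.cc (k * g * k⁻¹)) (A.uu (k * g * k⁻¹)) =
        ∫ s : ℝ, ψ (k • G.E (A.cc g) ((s : ℂ) * A.uu g)) ∧
      Dax G (k * g * k⁻¹) (A.cc (k * g * k⁻¹)) = Dax G g (A.cc g) := by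
  obtain ⟨h1, h2, h3⟩ := ax_conj hX h (A.ax g hg) k
  obtain ⟨h4, h5, h6⟩ := ax_data hX h A h1 ψ
  refine ⟨h4, ?_, by rw [h6, h2]⟩
  rw [h5]
  unfold Iax
  simp only [h3]

private theorem R10_term (hX : Surface Γ D) (h : HG D G) (A : Axes G) {ψ₀ ψ₁ : Pl → ℝ}
    (hψ : Part Γ ψ₀) (hψ₁ : Continuous ψ₁) (hψ₁c : HasCompactSupport ψ₁) {F : Finset Γ} {C : ℝ}
    (hC : 0 < C) (hle : ∀ x, ψ₁ x ≤ C * ∑ k ∈ F, ψ₀ (k • x)) (a b : ℝ) {g : Γ} (hg : g ≠ 1) :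
    (if a < A.ll g ∧ A.ll g ≤ b then ENNReal.ofReal (Iax G ψ₁ (A.cc g) (A.uu g) / Dax G g (A.cc g)) else 0) ≤
      ENNReal.ofReal C * ∑ k ∈ F, (if a < A.ll (k * g * k⁻¹) ∧
          A.ll (k * g * k⁻¹) ≤ b then
        ENNReal.ofReal (Iax G ψ₀ (A.cc (k * g * k⁻¹)) (A.uu (k * g * k⁻¹)) /
          Dax G (k * g * k⁻¹) (A.cc (k * g * k⁻¹))) else 0) := by
  have ha := A.ax g hg
  split_ifs with hT
  swap
  · exact zero_le
  have hDp : 0 < Dax G g (A.cc g) := by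
    refine lt_of_lt_of_le ?_ (Dax_low hX h ha)
    have h1 : 0 < Real.sinh (G.a * A.ll g / 2) :=
      Real.sinh_pos_iff.mpr (by have := mul_pos h.a_pos ha.pos; linarith)
    positivity
  have hint : ∀ k : Γ, Integrable fun s : ℝ => ψ₀ (k • G.E (A.cc g) ((s : ℂ) * A.uu g)) := by
    intro k
    obtain ⟨h1, -, h3⟩ := ax_conj hX h ha k
    have h4 := axis_int (D := D) h hψ.cont hψ.supp (c := k • A.cc g) h1.nu
    simpa only [h3] using h4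
  have hI : Iax G ψ₁ (A.cc g) (A.uu g) ≤
      C * ∑ k ∈ F, ∫ s : ℝ, ψ₀ (k • G.E (A.cc g) ((s : ℂ) * A.uu g)) := by
    rw [← integral_finsetSum F fun k _ => hint k, ← integral_const_mul]
    unfold Iax
    refine integral_mono (axis_int (D := D) h hψ₁ hψ₁c ha.nu)
      ((integrable_finsetSum F fun k _ => hint k).const_mul C) fun s => ?_
    exact hle _
  have hI' : Iax G ψ₁ (A.cc g) (A.uu g) / Dax G g (A.cc g) ≤
      C * ∑ k ∈ F, (∫ s : ℝ, ψ₀ (k • G.E (A.cc g) ((s : ℂ) * A.uu g))) / Dax G g (A.cc g) := by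
    rw [← Finset.sum_div, ← mul_div_assoc]
    exact div_le_div_of_nonneg_right hI hDp.le
  refine (ENNReal.ofReal_le_ofReal hI').trans ?_
  rw [ENNReal.ofReal_mul hC.le]
  gcongr
  rw [ENNReal.ofReal_sum_of_nonneg fun k _ =>
    div_nonneg (integral_nonneg fun s => hψ.nonneg _) hDp.le]
  refine Finset.sum_le_sum fun k _ => ?_
  obtain ⟨h1, h2, h3⟩ := R10_conj hX h A hg k ψ₀
  rw [h1, if_pos hT, h2, h3]

theorem dom2 (hX : Surface Γ D) (h : HG D G) (A : Axes G) {ψ₀ ψ₁ : Pl → ℝ} (hψ : Part Γ ψ₀)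
    (hψ₁ : Continuous ψ₁) (hψ₁0 : ∀ x, 0 ≤ ψ₁ x) (hψ₁c : HasCompactSupport ψ₁) :
    ∃ C : ℝ, 0 < C ∧ ∀ a b, Lam2 G A ψ₁ a b ≤ ENNReal.ofReal C * Lam2 G A ψ₀ a b := by
  obtain ⟨F, C, hC, hle⟩ := R10_cover hX hψ hψ₁ hψ₁0 hψ₁c
  refine ⟨C * (F.card + 1), by positivity, fun a b => ?_⟩
  let t : {g : Γ // g ≠ 1} → ℝ≥0∞ := fun g => if a < A.ll g.1 ∧ A.ll g.1 ≤ b then
    ENNReal.ofReal (Iax G ψ₀ (A.cc g.1) (A.uu g.1) / Dax G g.1 (A.cc g.1)) else 0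
  have ht : Lam2 G A ψ₀ a b = ∑' g, t g := rfl
  let e : Γ → ({g : Γ // g ≠ 1} ≃ {g : Γ // g ≠ 1}) := fun k =>
    { toFun := fun g => ⟨k * g.1 * k⁻¹, R10_conj_ne k g.2⟩
      invFun := fun g => ⟨k⁻¹ * g.1 * k, by
        have := R10_conj_ne k⁻¹ g.2
        rwa [inv_inv] at this⟩
      left_inv := fun g => Subtype.ext (by simp [mul_assoc])
      right_inv := fun g => Subtype.ext (by simp [mul_assoc]) }
  have h1 : Lam2 G A ψ₁ a b ≤ ∑' g : {g : Γ // g ≠ 1}, ENNReal.ofReal C * ∑ k ∈ F, t (e k g) := by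
    unfold Lam2
    exact ENNReal.tsum_le_tsum fun g => R10_term hX h A hψ hψ₁ hψ₁c hC hle a b g.2
  refine h1.trans ?_
  rw [ENNReal.tsum_mul_left, Summable.tsum_finsetSum fun _ _ => ENNReal.summable]
  have h2 : ∀ k ∈ F, ∑' g, t (e k g) = Lam2 G A ψ₀ a b := fun k _ => by
    rw [(e k).tsum_eq t, ht]
  rw [Finset.sum_congr rfl h2, Finset.sum_const, nsmul_eq_mul, ENNReal.ofReal_mul hC.le,
    mul_assoc]
  gcongr
  rw [ENNReal.ofReal_add (by positivity) zero_le_one, ENNReal.ofReal_natCast]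
  exact le_self_add

theorem Lam_add (G : Dat Γ) (A : Axes G) (ψ : Pl → ℝ) {a b : ℝ} (hab : a ≤ b) :
    Lam G A ψ b = Lam G A ψ a + Lam2 G A ψ a b := by
  unfold Lam Lam2
  rw [← ENNReal.tsum_add]
  refine tsum_congr fun g => ?_
  by_cases h1 : A.ll g.1 ≤ a
  · rw [if_pos h1, if_pos (h1.trans hab), if_neg (fun h2 => absurd h2.1 (not_lt.mpr h1)), add_zero]
  · rw [if_neg h1, zero_add]
    by_cases h2 : A.ll g.1 ≤ b
    · rw [if_pos h2, if_pos ⟨not_le.mp h1, h2⟩]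
    · rw [if_neg h2, if_neg fun h3 => h2 h3.2]

end SR85
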