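import Pool.Agent.LibSW73.R8
import Pool.Agent.LibSW73.R10

/-! Row R11 (STRONG): loops and axes, in windows. 80 min.
PLAN. As `N11_core` (`LibSR85/N11`; its private auxiliary theorems `N11_al`, `N11_lg0`, `N11_two` are needed: copy them), but
simpler. Same choices of `g₀, ψ₁, C` (`dom2` instead of `dom`), `ε₀, l₀` (`loc_main`), `ε₁` (`fin_near`), `ε`.
`w a b = (∑' g : {g // g ≠ 1}, lg2 G (kap g₀ ε) ψ₀ a b g).toReal`, `K` from `kap_int`; the limit is `loops2` (`part_int`).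
For `l₀ ≤ ll g` put `Λ g = lg (ll g + 1) g`: `lg T g = 0` for `T < ll g` (`lg_zero`), `= Λ g` for `ll g + 1 ≤ T`
(`loc_main`), `≤ Λ g` always (`lg_mono`), `Λ g < ⊤`. With `lg_add` (`a ≤ b`): `lg2 a b g ≤ Λ g`, `lg2 a b g = 0` if
`b < ll g` or `ll g + 1 ≤ a` (`Λ g = lg b = lg a + lg2 a b`, cancel `Λ g < ⊤`), and `lg2 a (b + 1) g = Λ g` if
`a < ll g ≤ b`. For `ll g < l₀`: either `lg T g = 0` for all `T` (`N11_lg0`), or `g` is in the finite set of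
`fin_near .. l₀`, for which `lg2 a b g = 0` for `a` large (`lg_far`): this gives `x₀` (also `l₀ + 1 ≤ x₀`).
So for `x₀ ≤ a ≤ b`: `∑' lg2 a b ≤ ∑' [a - 1 < ll ≤ b] Λ` and `∑' [a < ll ≤ b] Λ ≤ ∑' lg2 a (b + 1)`; for these `g`
`Λ g ≤ ε (i0 g + (η / C) i1 g)` and `ε i0 g ≤ Λ g + ε (η / C) i1 g` (`hbig` of `N11_core`). Sum up and use `dom2`:
`w a b ≤ ε (1 + η) Lam2 (a - 1) b`, `ε Lam2 a b ≤ w a (b + 1) + ε η Lam2 a b`. Finiteness of `Lam2`: `≤ Lam b < ⊤`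
(`Lam_add`, `Lam_fin`). -/

open MeasureTheory Set Filter Topology
open scoped ContDiff ENNReal NNReal ComplexConjugate

namespace SR85

open BGS (Pl Surface)

variable {Γ : Type} [Group Γ] [MulAction Γ Pl] {D : Set Pl} {G : Dat Γ}

private theorem R11_al (hX : Surface Γ D) (h : HG D G) {g₀ : ℝ → ℝ} (hg : Bump1 g₀) {ε : ℝ}
    (hε : 0 < ε) {g : Γ} (hg1 : g ≠ 1) (x : Pl) (hk : kap g₀ ε (al G g x) ≠ 0) :
    ‖al G g x - 1‖ ≤ 2 * ε := by
  have hn := (al_norm hX h hg1 x).1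
  set z := al G g x with hz
  unfold kap at hk
  have h1 : g₀ (z.im / ε) ≠ 0 := left_ne_zero_of_mul hk
  have h2 : min (max (2 * z.re) 0) 1 ≠ 0 := right_ne_zero_of_mul hk
  have h3 : |z.im / ε| < 1 := by
    by_contra hc
    exact h1 (hg.supp _ (not_lt.1 hc))
  have h4 : |z.im| < ε := by
    rw [abs_div, abs_of_pos hε, div_lt_one hε] at h3
    exact h3
  have h5 : 0 < z.re := by
    by_contra hc
    apply h2
    rw [max_eq_right (by linarith), min_eq_left zero_le_one]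
  have h6 : z.re ^ 2 + z.im ^ 2 = 1 := by
    have h7 := Complex.sq_norm z
    rw [hn, Complex.normSq_apply] at h7
    nlinarith
  have h8 : z.im ^ 2 ≤ ε ^ 2 := by
    rw [← sq_abs]
    exact pow_le_pow_left₀ (abs_nonneg _) h4.le 2
  have h9 : z.re ≤ 1 := by nlinarith [sq_nonneg z.im]
  have h10 : 1 - z.re ≤ z.im ^ 2 := by nlinarith [mul_nonneg (sub_nonneg.2 h9) h5.le]
  have h7 : ‖z - 1‖ ^ 2 ≤ (2 * ε) ^ 2 := by
    rw [Complex.sq_norm, Complex.normSq_apply]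
    simp only [Complex.sub_re, Complex.one_re, Complex.sub_im, Complex.one_im, sub_zero]
    nlinarith
  exact (sq_le_sq₀ (norm_nonneg _) (by positivity)).1 h7

private theorem R11_lg0 (hX : Surface Γ D) (h : HG D G) {g₀ : ℝ → ℝ} (hg : Bump1 g₀) {ε : ℝ}
    (hε : 0 < ε) {g : Γ} (hg1 : g ≠ 1) {ψ : Pl → ℝ} {T : ℝ}
    (hno : ¬ ∃ x ∈ tsupport ψ, ‖al G g x - 1‖ ≤ 2 * ε) : lg G (kap g₀ ε) ψ T g = 0 := by
  unfold lg
  have h1 : ∀ x, (if G.d x (g • x) ≤ T then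
      ENNReal.ofReal (ψ x * kap g₀ ε (al G g x) / G.J x (g • x)) else 0) *
        ENNReal.ofReal (G.rho x) = 0 := by
    intro x
    have h2 : ψ x * kap g₀ ε (al G g x) = 0 := by
      by_contra hc
      apply hno
      refine ⟨x, subset_tsupport ψ (left_ne_zero_of_mul hc), ?_⟩
      exact R11_al hX h hg hε hg1 x (right_ne_zero_of_mul hc)
    rw [h2, zero_div, ENNReal.ofReal_zero, ite_self, zero_mul]
  simp only [h1, lintegral_zero]

/-- Two inequalities from one. -/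
private theorem R11_two {Λ : ℝ≥0∞} (hΛ : Λ < ⊤) {D₀ ε δ I I' : ℝ} (hD : 0 < D₀) (hε : 0 < ε)
    (hδ : 0 < δ) (hI : 0 ≤ I) (hI' : 0 ≤ I') (hh : |Λ.toReal * D₀ / ε - I| ≤ δ * I') :
    Λ ≤ ENNReal.ofReal ε * (ENNReal.ofReal (I / D₀) + ENNReal.ofReal δ * ENNReal.ofReal (I' / D₀)) ∧
    ENNReal.ofReal ε * ENNReal.ofReal (I / D₀) ≤
      Λ + ENNReal.ofReal ε * (ENNReal.ofReal δ * ENNReal.ofReal (I' / D₀)) := by
  have hx : Λ = ENNReal.ofReal Λ.toReal := (ENNReal.ofReal_toReal hΛ.ne).symm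
  have hx0 : 0 ≤ Λ.toReal := ENNReal.toReal_nonneg
  set x := Λ.toReal with hxdef
  rw [abs_le] at hh
  obtain ⟨h1, h2⟩ := hh
  have e1 : x = (x * D₀ / ε) * (ε / D₀) := by field_simp
  have hpos : 0 < ε / D₀ := div_pos hε hD
  have h3 : x ≤ (I + δ * I') * (ε / D₀) := by
    rw [e1]
    apply mul_le_mul_of_nonneg_right _ hpos.le
    linarith
  have h4 : (I - δ * I') * (ε / D₀) ≤ x := by
    rw [e1]
    apply mul_le_mul_of_nonneg_right _ hpos.le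
    linarith
  have hI1 : 0 ≤ I / D₀ := div_nonneg hI hD.le
  have hI2 : 0 ≤ I' / D₀ := div_nonneg hI' hD.le
  constructor
  · rw [hx, ← ENNReal.ofReal_mul hδ.le, ← ENNReal.ofReal_add hI1 (mul_nonneg hδ.le hI2),
      ← ENNReal.ofReal_mul hε.le]
    apply ENNReal.ofReal_le_ofReal
    calc x ≤ (I + δ * I') * (ε / D₀) := h3
      _ = ε * (I / D₀ + δ * (I' / D₀)) := by ring
  · rw [hx, ← ENNReal.ofReal_mul hδ.le, ← ENNReal.ofReal_mul hε.le, ← ENNReal.ofReal_mul hε.le,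
      ← ENNReal.ofReal_add hx0 (mul_nonneg hε.le (mul_nonneg hδ.le hI2))]
    apply ENNReal.ofReal_le_ofReal
    have h5 : (I - δ * I') * (ε / D₀) = ε * (I / D₀) - ε * (δ * (I' / D₀)) := by ring
    rw [h5] at h4
    linarith

theorem win_core (hX : Surface Γ D) (h : HG D G) (A : Axes G) {ψ₀ : Pl → ℝ}
    (hψ : Part Γ ψ₀) {η : ℝ} (hη : 0 < η) (hη1 : η < 1) :
    ∃ (w : ℝ → ℝ → ℝ) (K ε x₀ : ℝ), 0 < ε ∧ ε ≤ K ∧ K ≤ ε * (1 + η) ∧
      Tendsto (fun q : ℝ × ℝ => w q.1 (q.1 + q.2) / q.2) (atTop ×ˢ atTop) (𝓝 K) ∧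
      ∀ a b, x₀ ≤ a → a ≤ b →
        w a b ≤ ε * (1 + η) * (Lam2 G A ψ₀ (a - 1) b).toReal ∧
        ε * (1 - η) * (Lam2 G A ψ₀ a b).toReal ≤ w a (b + 1) := by
  classical
  obtain ⟨g₀, hg⟩ := exists_bump1
  have hN : IsCompact (tsupport ψ₀) := hψ.supp
  obtain ⟨N₁, hN₁, hball⟩ := ball_bdd h hN 1
  obtain ⟨R, hR⟩ : ∃ R : ℝ, ∀ x ∈ N₁, ‖x‖ ≤ R := hN₁.isBounded.exists_norm_le
  obtain ⟨ψ₁, hψ₁def⟩ : ∃ ψ₁ : Pl → ℝ, ψ₁ = fun x => max 0 (R + 1 - ‖x‖) := ⟨_, rfl⟩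
  have hψ₁ : Continuous ψ₁ := by
    rw [hψ₁def]
    fun_prop
  have hψ₁0 : ∀ x, 0 ≤ ψ₁ x := by
    intro x
    rw [hψ₁def]
    exact le_max_left _ _
  have hψ₁c : HasCompactSupport ψ₁ := by
    apply HasCompactSupport.intro (isCompact_closedBall (0 : Pl) (R + 1))
    intro x hx
    rw [mem_closedBall_zero_iff, not_le] at hx
    rw [hψ₁def]
    exact max_eq_left (by linarith)
  have hψψ : ∀ x, ∀ y ∈ tsupport ψ₀, G.d x y ≤ 1 → 1 ≤ ψ₁ x := by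
    intro x y hy hxy
    have h1 : x ∈ N₁ := hball y hy x (by rw [h.d_symm]; exact hxy)
    have h2 := hR x h1
    rw [hψ₁def]
    exact le_max_of_le_right (by linarith)
  obtain ⟨C, hC, hdom⟩ := dom2 hX h A hψ hψ₁ hψ₁0 hψ₁c
  have hδ : 0 < η / C := div_pos hη hC
  obtain ⟨ε₀, l₀, hε₀, hl₀, hloc⟩ := loc_main hX h hg hψ.cont hψ.nonneg hψ.supp hψ₁ hψ₁0 hψ₁c
    hψψ hδ
  obtain ⟨ε₁, hε₁, hnear⟩ := fin_near hX h A hN
  obtain ⟨ε, hεdef⟩ : ∃ ε : ℝ, ε = min (min ε₀ (ε₁ / 2)) (η / 2) := ⟨_, rfl⟩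
  have hε : 0 < ε := by
    rw [hεdef]
    exact lt_min (lt_min hε₀ (by linarith)) (by linarith)
  have hεε₀ : ε ≤ ε₀ := by
    rw [hεdef]
    exact (min_le_left _ _).trans (min_le_left _ _)
  have hεε₁ : 2 * ε ≤ ε₁ := by
    have h1 : ε ≤ ε₁ / 2 := by
      rw [hεdef]
      exact (min_le_left _ _).trans (min_le_right _ _)
    linarith
  have hεη : ε ≤ η / 2 := by
    rw [hεdef]
    exact min_le_right _ _
  obtain ⟨hκ, hκ0⟩ := kap_cont hg ε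
  obtain ⟨hk1, hk2⟩ := kap_int hg hε (by linarith)
  obtain ⟨hloops, hWfin⟩ := loops2 hX h hκ hκ0 hψ.cont hψ.nonneg hψ.supp
  rw [part_int hX h hψ, one_mul] at hloops
  -- the data of the elements
  have hDax : ∀ g : Γ, g ≠ 1 → 0 < Dax G g (A.cc g) := by
    intro g hg1
    have h1 := Dax_low hX h (A.ax g hg1)
    have h2 : 0 < Real.sinh (G.a * A.ll g / 2) := by
      rw [Real.sinh_pos_iff]
      have := mul_pos h.a_pos (A.ax g hg1).pos
      linarith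
    have h3 : 0 < 4 * Real.sinh (G.a * A.ll g / 2) ^ 2 := by positivity
    linarith
  have hI0 : ∀ g : Γ, 0 ≤ Iax G ψ₀ (A.cc g) (A.uu g) := fun g =>
    integral_nonneg fun s => hψ.nonneg _
  have hI1 : ∀ g : Γ, 0 ≤ Iax G ψ₁ (A.cc g) (A.uu g) := fun g =>
    integral_nonneg fun s => hψ₁0 _
  obtain ⟨i0, hi0⟩ : ∃ i0 : Γ → ℝ≥0∞, i0 = fun g =>
    ENNReal.ofReal (Iax G ψ₀ (A.cc g) (A.uu g) / Dax G g (A.cc g)) := ⟨_, rfl⟩
  obtain ⟨i1, hi1⟩ : ∃ i1 : Γ → ℝ≥0∞, i1 = fun g =>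
    ENNReal.ofReal (Iax G ψ₁ (A.cc g) (A.uu g) / Dax G g (A.cc g)) := ⟨_, rfl⟩
  have hL0 : ∀ a b, Lam2 G A ψ₀ a b =
      ∑' g : {g : Γ // g ≠ 1}, if a < A.ll g.1 ∧ A.ll g.1 ≤ b then i0 g.1 else 0 := by
    intro a b
    rw [hi0]
    rfl
  have hL1 : ∀ a b, Lam2 G A ψ₁ a b =
      ∑' g : {g : Γ // g ≠ 1}, if a < A.ll g.1 ∧ A.ll g.1 ≤ b then i1 g.1 else 0 := by
    intro a b
    rw [hi1]
    rfl
  have hbig : ∀ g : Γ, g ≠ 1 → l₀ ≤ A.ll g →
      lg G (kap g₀ ε) ψ₀ (A.ll g + 1) g ≤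
        ENNReal.ofReal ε * (i0 g + ENNReal.ofReal (η / C) * i1 g) ∧
      ENNReal.ofReal ε * i0 g ≤ lg G (kap g₀ ε) ψ₀ (A.ll g + 1) g +
        ENNReal.ofReal ε * (ENNReal.ofReal (η / C) * i1 g) := by
    intro g hg1 hl
    obtain ⟨-, h2, h3⟩ := hloc ε hε hεε₀ g (A.cc g) (A.uu g) (A.ll g) (A.ll g + 1) (A.ax g hg1)
      hl le_rfl
    rw [hi0, hi1]
    exact R11_two h2 (hDax g hg1) hε hδ (hI0 g) (hI1 g) h3
  -- finite sets
  have hF := hnear l₀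
  set F : Set Γ := {g : Γ | g ≠ 1 ∧ A.ll g ≤ l₀ ∧ ∃ x ∈ tsupport ψ₀, ‖al G g x - 1‖ ≤ ε₁}
    with hFdef
  choose T₀ hT₀ using fun g : Γ => lg_far (κ := kap g₀ ε) hX h hψ.supp g
  obtain ⟨x₁, hx₁⟩ : ∃ x₁ : ℝ, ∀ g ∈ F, T₀ g ≤ x₁ := by
    obtain ⟨x₁, hx₁⟩ := (hF.image T₀).bddAbove
    exact ⟨x₁, fun g hg => hx₁ ⟨g, hg, rfl⟩⟩
  obtain ⟨W, hW⟩ : ∃ W : ℝ → ℝ → ℝ≥0∞, W = fun a b =>
    ∑' g : {g : Γ // g ≠ 1}, lg2 G (kap g₀ ε) ψ₀ a b g.1 := ⟨_, rfl⟩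
  have hWf : ∀ a b, W a b < ⊤ := by
    intro a b
    rw [hW]
    exact hWfin a b
  -- small elements
  have hsmall : ∀ a b, x₁ ≤ a → ∀ g : Γ, g ≠ 1 → A.ll g < l₀ →
      lg2 G (kap g₀ ε) ψ₀ a b g = 0 := by
    intro a b ha g hg1 hl
    by_cases h3 : g ∈ F
    · exact hT₀ g a b ((hx₁ g h3).trans ha)
    · have h4 : lg G (kap g₀ ε) ψ₀ b g = 0 := by
        refine R11_lg0 hX h hg hε hg1 ?_
        rintro ⟨x, hx, hx2⟩
        exact h3 ⟨hg1, hl.le, x, hx, hx2.trans hεε₁⟩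
      exact le_antisymm ((lg2_le _ _ _ _ _).trans h4.le) bot_le
  -- upper bound for W
  have hup : ∀ a b, max x₁ (l₀ + 1) ≤ a → a ≤ b → W a b ≤ ENNReal.ofReal ε *
      (Lam2 G A ψ₀ (a - 1) b + ENNReal.ofReal (η / C) * Lam2 G A ψ₁ (a - 1) b) := by
    intro a b ha hab
    have ha1 : x₁ ≤ a := (le_max_left _ _).trans ha
    have ha2 : l₀ + 1 ≤ a := (le_max_right _ _).trans ha
    rw [hW, hL0, hL1, ← ENNReal.tsum_mul_left, ← ENNReal.tsum_add, ← ENNReal.tsum_mul_left]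
    apply ENNReal.tsum_le_tsum
    rintro ⟨g, hg1⟩
    show lg2 G (kap g₀ ε) ψ₀ a b g ≤ ENNReal.ofReal ε *
      ((if a - 1 < A.ll g ∧ A.ll g ≤ b then i0 g else 0) +
        ENNReal.ofReal (η / C) * (if a - 1 < A.ll g ∧ A.ll g ≤ b then i1 g else 0))
    have hadd := lg_add hX h hκ hψ.cont hab g
    rcases lt_or_ge b (A.ll g) with h1 | h1
    · have h4 : lg G (kap g₀ ε) ψ₀ b g = 0 := lg_zero (A.ax g hg1) h1
      rw [le_antisymm ((lg2_le _ _ _ _ _).trans h4.le) bot_le]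
      exact bot_le
    · rcases le_or_gt l₀ (A.ll g) with h2 | h2
      · rcases le_or_gt (A.ll g + 1) a with h5 | h5
        · have h6 := (hloc ε hε hεε₀ g (A.cc g) (A.uu g) (A.ll g) b (A.ax g hg1) h2
            (h5.trans hab)).1
          obtain ⟨h7, h8, -⟩ := hloc ε hε hεε₀ g (A.cc g) (A.uu g) (A.ll g) a (A.ax g hg1) h2 h5
          have h9 : lg2 G (kap g₀ ε) ψ₀ a b g = 0 := by
            rw [h6, ← h7] at hadd
            have h10 : lg G (kap g₀ ε) ψ₀ a g + 0 =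
                lg G (kap g₀ ε) ψ₀ a g + lg2 G (kap g₀ ε) ψ₀ a b g := by
              rw [add_zero]
              exact hadd
            exact ((ENNReal.add_right_inj h8.ne).1 h10).symm
          rw [h9]
          exact bot_le
        · have h6 : a - 1 < A.ll g ∧ A.ll g ≤ b := ⟨by linarith, h1⟩
          rw [if_pos h6, if_pos h6]
          have h3 : lg G (kap g₀ ε) ψ₀ b g ≤ lg G (kap g₀ ε) ψ₀ (A.ll g + 1) g := by
            rcases le_or_gt (A.ll g + 1) b with h4 | h4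
            · exact (hloc ε hε hεε₀ g (A.cc g) (A.uu g) (A.ll g) b (A.ax g hg1) h2 h4).1.le
            · exact lg_mono (kap g₀ ε) ψ₀ g h4.le
          exact ((lg2_le _ _ _ _ _).trans h3).trans (hbig g hg1 h2).1
      · rw [hsmall a b ha1 g hg1 h2]
        exact bot_le
  -- lower bound for W
  have hlow : ∀ a b, max x₁ (l₀ + 1) ≤ a → a ≤ b → ENNReal.ofReal ε * Lam2 G A ψ₀ a b ≤
      W a (b + 1) + ENNReal.ofReal ε * (ENNReal.ofReal (η / C) * Lam2 G A ψ₁ a b) := by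
    intro a b ha hab
    have ha2 : l₀ + 1 ≤ a := (le_max_right _ _).trans ha
    rw [hW, hL0, hL1, ← ENNReal.tsum_mul_left, ← ENNReal.tsum_mul_left,
      ← ENNReal.tsum_mul_left, ← ENNReal.tsum_add]
    apply ENNReal.tsum_le_tsum
    rintro ⟨g, hg1⟩
    show ENNReal.ofReal ε * (if a < A.ll g ∧ A.ll g ≤ b then i0 g else 0) ≤
      lg2 G (kap g₀ ε) ψ₀ a (b + 1) g +
      ENNReal.ofReal ε * (ENNReal.ofReal (η / C) * (if a < A.ll g ∧ A.ll g ≤ b then i1 g else 0))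
    by_cases h1 : a < A.ll g ∧ A.ll g ≤ b
    · rw [if_pos h1, if_pos h1]
      have h2 : l₀ ≤ A.ll g := by linarith [h1.1]
      have h3 : lg G (kap g₀ ε) ψ₀ a g = 0 := lg_zero (A.ax g hg1) h1.1
      have h4 := (hloc ε hε hεε₀ g (A.cc g) (A.uu g) (A.ll g) (b + 1) (A.ax g hg1) h2
        (by linarith [h1.2])).1
      have hadd := lg_add hX h hκ hψ.cont (show a ≤ b + 1 by linarith) g
      rw [h3, zero_add, h4] at hadd
      rw [← hadd]
      exact (hbig g hg1 h2).2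
    · rw [if_neg h1, mul_zero]
      exact bot_le
  -- reals
  have hLf : ∀ a b, a ≤ b → Lam2 G A ψ₀ a b < ⊤ := by
    intro a b hab
    refine lt_of_le_of_lt ?_ (Lam_fin hX h A hψ.cont hψ.supp b)
    rw [Lam_add G A ψ₀ hab]
    exact le_add_self
  have hcε : ∀ L : ℝ, 0 ≤ L → ENNReal.ofReal (η / C) * (ENNReal.ofReal C * ENNReal.ofReal L) =
      ENNReal.ofReal (η * L) := by
    intro L _
    rw [← ENNReal.ofReal_mul hC.le, ← ENNReal.ofReal_mul hδ.le]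
    congr 1
    field_simp
  refine ⟨fun a b => (W a b).toReal, _, ε, max x₁ (l₀ + 1), hε, hk1, ?_, ?_, ?_⟩
  · refine hk2.trans ?_
    have hε1 : ε < 1 := by linarith
    have h1 : 1 - ε ≤ √(1 - ε ^ 2) := by
      apply Real.le_sqrt_of_sq_le
      nlinarith
    have h2 : 0 < 1 - ε := by linarith
    rw [div_le_iff₀ (h2.trans_le h1)]
    have h3 : 1 ≤ (1 + η) * √(1 - ε ^ 2) := by
      have h4 : 1 ≤ (1 + η) * (1 - ε) := by nlinarith
      exact h4.trans (mul_le_mul_of_nonneg_left h1 (by linarith))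
    nlinarith
  · rw [hW]
    exact hloops
  · intro a b ha hab
    constructor
    · obtain ⟨L, hL⟩ : ∃ L : ℝ, L = (Lam2 G A ψ₀ (a - 1) b).toReal := ⟨_, rfl⟩
      have hL' : Lam2 G A ψ₀ (a - 1) b = ENNReal.ofReal L := by
        rw [hL, ENNReal.ofReal_toReal (hLf (a - 1) b (by linarith)).ne]
      have hLn : 0 ≤ L := by rw [hL]; exact ENNReal.toReal_nonneg
      have h1 : W a b ≤ ENNReal.ofReal (ε * (L + η * L)) := by
        rw [ENNReal.ofReal_mul hε.le, ENNReal.ofReal_add hLn (by positivity)]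
        refine (hup a b ha hab).trans ?_
        rw [← hcε L hLn, ← hL']
        gcongr
        exact hdom (a - 1) b
      have h2 := ENNReal.toReal_le_of_le_ofReal (by positivity) h1
      rw [← hL]
      show (W a b).toReal ≤ _
      linarith
    · obtain ⟨L, hL⟩ : ∃ L : ℝ, L = (Lam2 G A ψ₀ a b).toReal := ⟨_, rfl⟩
      have hL' : Lam2 G A ψ₀ a b = ENNReal.ofReal L := by
        rw [hL, ENNReal.ofReal_toReal (hLf a b hab).ne]
      have hLn : 0 ≤ L := by rw [hL]; exact ENNReal.toReal_nonneg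
      have hW' : W a (b + 1) = ENNReal.ofReal (W a (b + 1)).toReal :=
        (ENNReal.ofReal_toReal (hWf a (b + 1)).ne).symm
      have hWn : 0 ≤ (W a (b + 1)).toReal := ENNReal.toReal_nonneg
      have h1 : ENNReal.ofReal (ε * L) ≤
          ENNReal.ofReal ((W a (b + 1)).toReal + ε * (η * L)) := by
        rw [ENNReal.ofReal_add hWn (by positivity), ← hW',
          ENNReal.ofReal_mul hε.le, ENNReal.ofReal_mul hε.le, ← hcε L hLn, ← hL']
        refine (hlow a b ha hab).trans ?_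
        gcongr
        exact hdom a b
      have h2 := (ENNReal.ofReal_le_ofReal_iff (by positivity)).1 h1
      rw [← hL]
      show _ ≤ (W a (b + 1)).toReal
      linarith

end SR85
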