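import Pool.Agent.LibSW73.R11

/-! Row R12: the sum rule in windows, for the sum over the elements. 50 min.
PLAN. For `x` large and `M ≥ 1` (`q = (x, M)`): `(Lam2 x (x + M)).toReal = (Lam (x + M)).toReal - (Lam x).toReal`
(`Lam_add`, `Lam_fin`). Upper bound: `ε (1 - η) Lam2 x (x + M) ≤ w x (x + (M + 1))`, so
`limsup Lam2 / M ≤ K / (ε (1 - η)) ≤ (1 + η) / (1 - η)`. Lower bound: `w (x + 1) ((x + 1) + (M - 1)) ≤
ε (1 + η) Lam2 x (x + M)`, so `liminf Lam2 / M ≥ K / (ε (1 + η)) ≥ 1 / (1 + η)`. The maps `q ↦ (q.1, q.2 + 1)`,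
`q ↦ (q.1 + 1, q.2 - 1)` tend to `atTop ×ˢ atTop` and `(q.2 ± 1) / q.2 → 1`. `η → 0`; compare `N11_limit` (`LibSR85/N11`). -/

open MeasureTheory Set Filter Topology
open scoped ContDiff ENNReal NNReal ComplexConjugate

namespace SR85

open BGS (Pl Surface)

variable {Γ : Type} [Group Γ] [MulAction Γ Pl] {D : Set Pl} {G : Dat Γ}

/-- The limit argument. -/
private theorem R12_limit (L : ℝ → ℝ → ℝ)
    (hh : ∀ η : ℝ, 0 < η → η < 1 → ∃ (w : ℝ → ℝ → ℝ) (K ε x₀ : ℝ), 0 < ε ∧ ε ≤ K ∧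
      K ≤ ε * (1 + η) ∧
      Tendsto (fun q : ℝ × ℝ => w q.1 (q.1 + q.2) / q.2) (atTop ×ˢ atTop) (𝓝 K) ∧
      ∀ a b, x₀ ≤ a → a ≤ b →
        w a b ≤ ε * (1 + η) * L (a - 1) b ∧ ε * (1 - η) * L a b ≤ w a (b + 1)) :
    Tendsto (fun q : ℝ × ℝ => L q.1 (q.1 + q.2) / q.2) (atTop ×ˢ atTop) (𝓝 1) := by
  have hf : Tendsto (fun q : ℝ × ℝ => q.1) (atTop ×ˢ atTop) atTop := tendsto_fst
  have hs : Tendsto (fun q : ℝ × ℝ => q.2) (atTop ×ˢ atTop) atTop := tendsto_snd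
  have hinv : Tendsto (fun q : ℝ × ℝ => (q.2)⁻¹) (atTop ×ˢ atTop) (𝓝 0) :=
    tendsto_inv_atTop_zero.comp hs
  rw [tendsto_order]
  constructor
  · intro a ha
    obtain ⟨η, h0, h1, h2⟩ : ∃ η : ℝ, 0 < η ∧ η < 1 ∧ a * (1 + η) < 1 := by
      refine ⟨min (1 / 2) ((1 - a) / 2), lt_min (by norm_num) (by linarith),
        (min_le_left _ _).trans_lt (by norm_num), ?_⟩
      have hm : 0 < min (1 / 2 : ℝ) ((1 - a) / 2) := lt_min (by norm_num) (by linarith)
      have hm2 := min_le_right (1 / 2 : ℝ) ((1 - a) / 2)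
      set η := min (1 / 2 : ℝ) ((1 - a) / 2)
      nlinarith
    obtain ⟨w, K, ε, x₀, hε, hK, -, hw, hu⟩ := hh η h0 h1
    have hlim : Tendsto (fun q : ℝ × ℝ => w (q.1 + 1) (q.1 + q.2) / q.2) (atTop ×ˢ atTop)
        (𝓝 K) := by
      have hm : Tendsto (fun q : ℝ × ℝ => (q.1 + 1, q.2 - 1)) (atTop ×ˢ atTop)
          (atTop ×ˢ atTop) :=
        (tendsto_atTop_add_const_right _ 1 hf).prodMk (tendsto_atTop_add_const_right _ (-1) hs)
      have h3 := hw.comp hm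
      have h4 : Tendsto (fun q : ℝ × ℝ => 1 - (q.2)⁻¹) (atTop ×ˢ atTop) (𝓝 (1 - 0)) :=
        tendsto_const_nhds.sub hinv
      have h5 := h3.mul h4
      rw [sub_zero, mul_one] at h5
      refine h5.congr' ?_
      filter_upwards [hs.eventually_gt_atTop 1] with q hq
      have hq0 : q.2 ≠ 0 := by linarith
      have hq1 : q.2 - 1 ≠ 0 := by linarith
      have e : q.1 + 1 + (q.2 - 1) = q.1 + q.2 := by ring
      show w (q.1 + 1) (q.1 + 1 + (q.2 - 1)) / (q.2 - 1) * (1 - (q.2)⁻¹) = _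
      rw [e]
      field_simp
    have hlt : ε * (a * (1 + η)) < K := by nlinarith
    filter_upwards [hlim.eventually_const_lt hlt, hs.eventually_gt_atTop 1,
      hf.eventually_ge_atTop x₀] with q h3 h4 h5
    have h4' : 0 < q.2 := by linarith
    rw [lt_div_iff₀ h4'] at h3 ⊢
    have h6 := (hu (q.1 + 1) (q.1 + q.2) (by linarith) (by linarith)).1
    rw [add_sub_cancel_right] at h6
    have h7 : ε * (1 + η) * (a * q.2) < ε * (1 + η) * L q.1 (q.1 + q.2) := by linarith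
    exact lt_of_mul_lt_mul_left h7 (by positivity)
  · intro b hb
    obtain ⟨η, h0, h1, h2⟩ : ∃ η : ℝ, 0 < η ∧ η < 1 ∧ 1 + η < b * (1 - η) := by
      have hb1 : 0 < b + 1 := by linarith
      refine ⟨(b - 1) / (2 * (b + 1)), div_pos (by linarith) (by linarith), ?_, ?_⟩
      · rw [div_lt_one (by linarith)]
        linarith
      · have h3 : (b - 1) / (2 * (b + 1)) * (2 * (b + 1)) = b - 1 :=
          div_mul_cancel₀ _ (by linarith)
        set η := (b - 1) / (2 * (b + 1))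
        nlinarith
    obtain ⟨w, K, ε, x₀, hε, -, hK, hw, hl⟩ := hh η h0 h1
    have hlim : Tendsto (fun q : ℝ × ℝ => w q.1 (q.1 + q.2 + 1) / q.2) (atTop ×ˢ atTop)
        (𝓝 K) := by
      have hm : Tendsto (fun q : ℝ × ℝ => (q.1, q.2 + 1)) (atTop ×ˢ atTop)
          (atTop ×ˢ atTop) :=
        hf.prodMk (tendsto_atTop_add_const_right _ 1 hs)
      have h3 := hw.comp hm
      have h4 : Tendsto (fun q : ℝ × ℝ => 1 + (q.2)⁻¹) (atTop ×ˢ atTop) (𝓝 (1 + 0)) :=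
        tendsto_const_nhds.add hinv
      have h5 := h3.mul h4
      rw [add_zero, mul_one] at h5
      refine h5.congr' ?_
      filter_upwards [hs.eventually_gt_atTop 0] with q hq
      have hq0 : q.2 ≠ 0 := hq.ne'
      have hq1 : q.2 + 1 ≠ 0 := by linarith
      have e : q.1 + (q.2 + 1) = q.1 + q.2 + 1 := by ring
      show w q.1 (q.1 + (q.2 + 1)) / (q.2 + 1) * (1 + (q.2)⁻¹) = _
      rw [e]
      field_simp
    have hlt : K < ε * (b * (1 - η)) := by nlinarith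
    filter_upwards [hlim.eventually_lt_const hlt, hs.eventually_gt_atTop 0,
      hf.eventually_ge_atTop x₀] with q h3 h4 h5
    rw [div_lt_iff₀ h4] at h3 ⊢
    have h6 := (hl q.1 (q.1 + q.2) h5 (by linarith)).2
    have h7 : ε * (1 - η) * L q.1 (q.1 + q.2) < ε * (1 - η) * (b * q.2) := by linarith
    have h8 : 0 < 1 - η := by linarith
    exact lt_of_mul_lt_mul_left h7 (by positivity)

theorem Lam_win (hX : Surface Γ D) (h : HG D G) (A : Axes G) {ψ₀ : Pl → ℝ} (hψ : Part Γ ψ₀) :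
    Tendsto (fun q : ℝ × ℝ =>
      ((Lam G A ψ₀ (q.1 + q.2)).toReal - (Lam G A ψ₀ q.1).toReal) / q.2)
      (atTop ×ˢ atTop) (𝓝 1) := by
  have h1 := R12_limit (fun a b => (Lam2 G A ψ₀ a b).toReal) fun η hη hη1 =>
    win_core hX h A hψ hη hη1
  have hs : Tendsto (fun q : ℝ × ℝ => q.2) (atTop ×ˢ atTop) atTop := tendsto_snd
  refine h1.congr' ?_
  filter_upwards [hs.eventually_ge_atTop 0] with q hq
  have h2 := Lam_add G A ψ₀ (show q.1 ≤ q.1 + q.2 by linarith)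
  have h3 := Lam_fin hX h A hψ.cont hψ.supp q.1
  have h4 := Lam_fin hX h A hψ.cont hψ.supp (q.1 + q.2)
  have h5 : Lam2 G A ψ₀ q.1 (q.1 + q.2) ≠ ⊤ := by
    intro hc
    rw [hc, add_top] at h2
    exact h4.ne h2
  congr 1
  rw [h2, ENNReal.toReal_add h3.ne h5]
  ring

end SR85
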