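import Pool.Agent.LibSW73.Defs
import Pool.Agent.LibNV73.Q6

/-! Row R15 (STRONG): the logarithmic sum with the factor `1 - cos`. 70 min.
PLAN. If `1 / 2 ≤ ε` or `log (y / x) ≤ 1` the left side is `≤ 0` and the sum is nonnegative. Else take `N : ℕ` (`8 ≤ N`) and
`δ > 0` with `(1 / 2 - δ) (1 - 2 π / N) ≥ 1 / 2 - ε`, and `x1, M1` with `(1 / 2 - δ) M ≤ Psi (x + M) - Psi x` for `x1 ≤ x`,
`M1 ≤ M` (`hW`; `Filter.eventually_prod_iff` or `Filter.prod_atTop_atTop_eq`, `eventually_atTop`). `x0` is the maximum of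
`1, 2 π, x1, N M1 / (2 π)`. Let `s = 2 π L / N ≥ M1` and `z i = x + s i`, `i < N J`, where `J = ⌊(y - x) / (2 π L)⌋₊`, so
`z (N J) ≤ y < x + 2 π L (J + 1)`. For `z i < len p ≤ z (i + 1)`: `1 - cos (len p / L) ≥ c i := 1 - cos (z i / L) - 2 π / N`
(cos is 1-Lipschitz) and the factor is `≥ 0`, so `≥ max (c i) 0`; `1 / len p ≥ 1 / (x + 2 π L (j + 1))` for `i = N j + i'`,
`i' < N`. Hence the sum over the block `j` is `≥ (1 / 2 - δ) s ∑ i' < N, c (N j + i') / (x + 2 π L (j + 1))` and
`∑ i' < N, cos ((x + s (N j + i')) / L) = ∑ i' < N, cos (x / L + 2 π i' / N) = 0` (real part of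
`exp (i x / L) ∑ exp (2 π i i' / N) = 0`, a geometric sum of a primitive root of unity: `IsPrimitiveRoot.geom_sum_eq_zero`,
`Complex.isPrimitiveRoot_exp`), so it is `≥ (1 / 2 - δ) (1 - 2 π / N) 2 π L / (x + 2 π L (j + 1))`. The sum over `j < J` of
`2 π L / (x + 2 π L (j + 1))` is `≥ log ((x + 2 π L (J + 1)) / (x + 2 π L))` (`u / (v + u) ≥ log ((v + 2 u) / (v + u))` with
`v = x + 2 π L j`, `u = 2 π L`: `log (1 + t) ≤ t`, telescoping) `≥ log (y / x) - 2 π L / x ≥ log (y / x) - 1`. -/

open MeasureTheory Set Filter Topology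
open scoped ContDiff

namespace NV73

open GWin

open Classical in
/-- the sum with the factor `1 - cos` -/
private noncomputable def R15_H (G : Geo) (L x y : ℝ) : ℝ :=
  ∑ p ∈ ball G y with x < G.len p, w G p / G.len p * (1 - Real.cos (G.len p / L))

private theorem R15_term {G : Geo} {κ : ℝ} (h : Ok G κ) (L : ℝ) (p : G.P) :
    0 ≤ w G p / G.len p * (1 - Real.cos (G.len p / L)) :=
  mul_nonneg (div_nonneg (w_pos h p).le (h.pos p).le) (by linarith [Real.cos_le_one (G.len p / L)])

private theorem R15_nonneg {G : Geo} {κ : ℝ} (h : Ok G κ) (L x y : ℝ) : 0 ≤ R15_H G L x y :=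
  Finset.sum_nonneg fun p _ => R15_term h L p

private theorem R15_mono {G : Geo} {κ : ℝ} (h : Ok G κ) (L : ℝ) {x y z : ℝ} (hyz : y ≤ z) :
    R15_H G L x y ≤ R15_H G L x z := by
  classical
  unfold R15_H
  refine Finset.sum_le_sum_of_subset_of_nonneg ?_ fun p _ _ => R15_term h L p
  refine Finset.filter_subset_filter _ fun p hp => ?_
  rw [mem_ball h] at hp ⊢
  exact hp.trans hyz

private theorem R15_add {G : Geo} {κ : ℝ} (h : Ok G κ) (L : ℝ) {x y z : ℝ} (hxy : x ≤ y)
    (hyz : y ≤ z) : R15_H G L x y + R15_H G L y z = R15_H G L x z := by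
  classical
  unfold R15_H
  rw [← Finset.sum_union]
  · refine Finset.sum_congr ?_ fun _ _ => rfl
    ext p
    simp only [Finset.mem_union, Finset.mem_filter, mem_ball h]
    constructor
    · rintro (⟨h1, h2⟩ | ⟨h1, h2⟩)
      · exact ⟨h1.trans hyz, h2⟩
      · exact ⟨h1, hxy.trans_lt h2⟩
    · rintro ⟨h1, h2⟩
      rcases le_or_gt (G.len p) y with h3 | h3
      · exact Or.inl ⟨h3, h2⟩
      · exact Or.inr ⟨h1, h3⟩
  · rw [Finset.disjoint_left]
    intro p hp hp'
    rw [Finset.mem_filter, mem_ball h] at hp hp'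
    exact absurd hp.1 (not_le.2 hp'.2)

/-- the difference of `Psi` is a sum over the window -/
private theorem R15_psi {G : Geo} {κ : ℝ} (h : Ok G κ) {x y : ℝ} (hxy : x ≤ y) :
    Psi G y - Psi G x = ∑ p ∈ (ball G y).filter (fun p => x < G.len p), w G p := by
  classical
  unfold Psi
  rw [sub_eq_iff_eq_add, ← Finset.sum_filter_add_sum_filter_not (ball G y)
    (fun p => x < G.len p)]
  congr 1
  refine Finset.sum_congr ?_ fun _ _ => rfl
  ext p
  simp only [Finset.mem_filter, mem_ball h, not_lt]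
  exact ⟨fun h' => h'.2, fun h' => ⟨h'.trans hxy, h'⟩⟩

private theorem R15_lip (a b : ℝ) : |Real.cos a - Real.cos b| ≤ |a - b| := by
  have h1 := Convex.norm_image_sub_le_of_norm_deriv_le (f := Real.cos) (C := 1)
    (s := Set.univ) (x := b) (y := a) (fun x _ => Real.differentiableAt_cos)
    (fun x _ => by
      rw [Real.deriv_cos, norm_neg]
      exact Real.abs_sin_le_one x) convex_univ (Set.mem_univ _) (Set.mem_univ _)
  rw [one_mul] at h1
  exact h1

/-- one small window -/
private theorem R15_win {G : Geo} {κ : ℝ} (h : Ok G κ) {L z s V d : ℝ} (hL : 0 < L) (hz : 0 < z)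
    (hs : 0 ≤ s) (hV : z + s ≤ V) (hd : 0 ≤ d) (hP : d * s ≤ Psi G (z + s) - Psi G z) :
    d * s * (1 - Real.cos (z / L) - s / L) / V ≤ R15_H G L z (z + s) := by
  classical
  have hV0 : 0 < V := by linarith
  rcases le_or_gt (1 - Real.cos (z / L) - s / L) 0 with hc | hc
  · refine le_trans ?_ (R15_nonneg h L z (z + s))
    exact div_nonpos_of_nonpos_of_nonneg
      (mul_nonpos_of_nonneg_of_nonpos (mul_nonneg hd hs) hc) hV0.le
  · have h1 : (Psi G (z + s) - Psi G z) * (1 - Real.cos (z / L) - s / L) / V ≤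
        R15_H G L z (z + s) := by
      rw [R15_psi h (by linarith : z ≤ z + s), Finset.sum_mul, Finset.sum_div]
      unfold R15_H
      refine Finset.sum_le_sum fun p hp => ?_
      rw [Finset.mem_filter, mem_ball h] at hp
      have hl : 0 < G.len p := h.pos p
      have h2 : 1 - Real.cos (z / L) - s / L ≤ 1 - Real.cos (G.len p / L) := by
        have h3 : |Real.cos (G.len p / L) - Real.cos (z / L)| ≤ |G.len p / L - z / L| :=
          R15_lip _ _
        have h4 : |G.len p / L - z / L| ≤ s / L := by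
          rw [← sub_div, abs_of_nonneg (div_nonneg (by linarith [hp.2]) hL.le)]
          exact div_le_div_of_nonneg_right (by linarith [hp.1]) hL.le
        have h5 := (abs_le.1 (h3.trans h4)).2
        linarith
      calc w G p * (1 - Real.cos (z / L) - s / L) / V
          = w G p / V * (1 - Real.cos (z / L) - s / L) := by ring
        _ ≤ w G p / G.len p * (1 - Real.cos (G.len p / L)) := by
          refine mul_le_mul ?_ h2 hc.le (div_nonneg (w_pos h p).le hl.le)
          exact div_le_div_of_nonneg_left (w_pos h p).le hl (hp.1.trans hV)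
    refine le_trans ?_ h1
    exact div_le_div_of_nonneg_right (mul_le_mul_of_nonneg_right hP hc.le) hV0.le

/-- the sum of the cosines over a regular polygon -/
private theorem R15_cos (N : ℕ) (hN : 1 < N) (θ : ℝ) :
    ∑ i ∈ Finset.range N, Real.cos (θ + 2 * Real.pi * i / N) = 0 := by
  have hN0 : N ≠ 0 := by omega
  have h1 := (Complex.isPrimitiveRoot_exp N hN0).geom_sum_eq_zero hN
  have h2 : ∑ i ∈ Finset.range N, (Real.cos (θ + 2 * Real.pi * i / N) : ℝ) =
      (∑ i ∈ Finset.range N, Complex.exp (θ * Complex.I) *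
        Complex.exp (2 * Real.pi * Complex.I / N) ^ i).re := by
    rw [Complex.re_sum]
    refine Finset.sum_congr rfl fun i _ => ?_
    rw [← Complex.exp_nat_mul, ← Complex.exp_add]
    have h3 : (θ : ℂ) * Complex.I + (i : ℂ) * (2 * Real.pi * Complex.I / N) =
        ((θ + 2 * Real.pi * i / N : ℝ) : ℂ) * Complex.I := by
      push_cast
      ring
    rw [h3, Complex.exp_ofReal_mul_I_re]
  rw [h2, ← Finset.mul_sum, h1, mul_zero, Complex.zero_re]

/-- one block -/
private theorem R15_block {G : Geo} {κ : ℝ} (h : Ok G κ) {L v s d : ℝ} (N : ℕ) (hN : 1 < N)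
    (hL : 0 < L) (hs : s * N = 2 * Real.pi * L) (hv : 0 < v) (hd : 0 ≤ d)
    (hP : ∀ z, v ≤ z → d * s ≤ Psi G (z + s) - Psi G z) :
    d * (1 - 2 * Real.pi / N) * (2 * Real.pi * L) / (v + 2 * Real.pi * L) ≤
      R15_H G L v (v + 2 * Real.pi * L) := by
  have hN0 : (0 : ℝ) < N := by exact_mod_cast (by omega : 0 < N)
  have hs' : s = 2 * Real.pi * L / N := by
    rw [eq_div_iff hN0.ne']
    exact hs
  have hs0 : 0 < s := by
    rw [hs']
    have := Real.pi_pos
    positivity
  have key : ∀ n : ℕ, n ≤ N → ∑ i ∈ Finset.range n,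
      d * s * (1 - Real.cos ((v + s * i) / L) - s / L) / (v + 2 * Real.pi * L) ≤
        R15_H G L v (v + s * n) := by
    intro n
    induction n with
    | zero =>
      intro _
      rw [Finset.sum_range_zero]
      exact R15_nonneg h L _ _
    | succ n ih =>
      intro hn
      have hn' : ((n : ℝ) + 1) ≤ N := by exact_mod_cast hn
      have h1 : 0 ≤ s * n := by positivity
      have h3 : v + s * n + s ≤ v + 2 * Real.pi * L := by
        rw [← hs]
        nlinarith
      have h2 := R15_win h (V := v + 2 * Real.pi * L) hL (by linarith : 0 < v + s * n) hs0.le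
        h3 hd (hP _ (by linarith))
      have h4 : v + s * ((n + 1 : ℕ) : ℝ) = v + s * n + s := by
        push_cast
        ring
      rw [Finset.sum_range_succ, h4,
        ← R15_add h L (by linarith : v ≤ v + s * n) (by linarith : v + s * n ≤ v + s * n + s)]
      exact add_le_add (ih (by omega)) h2
  have h1 := key N le_rfl
  rw [hs] at h1
  refine le_trans (le_of_eq ?_) h1
  rw [← Finset.sum_div, ← Finset.mul_sum]
  congr 1
  have h2 : ∑ i ∈ Finset.range N, (1 - Real.cos ((v + s * i) / L) - s / L) =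
      N - N * (s / L) := by
    have h3 : ∀ i ∈ Finset.range N, 1 - Real.cos ((v + s * i) / L) - s / L =
        (1 - s / L) - Real.cos (v / L + 2 * Real.pi * i / N) := by
      intro i _
      have h4 : (v + s * i) / L = v / L + 2 * Real.pi * i / N := by
        rw [hs']
        field_simp
      rw [h4]
      ring
    rw [Finset.sum_congr rfl h3, Finset.sum_sub_distrib, R15_cos N hN, Finset.sum_const,
      Finset.card_range, nsmul_eq_mul]
    ring
  rw [h2, hs']
  field_simp

open Classical in
theorem cos_log {G : Geo} {κ : ℝ} (h : Ok G κ) (hW : WinRule G) {ε : ℝ} (hε : 0 < ε) :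
    ∃ x0 : ℝ, 1 ≤ x0 ∧ ∀ L x y : ℝ, x0 ≤ L → x0 * L ≤ x → x ≤ y →
      (1 / 2 - ε) * Real.log (y / x) - 1 ≤
        ∑ p ∈ ball G y with x < G.len p, w G p / G.len p * (1 - Real.cos (G.len p / L)) := by
  rcases le_or_gt (1 / 2) ε with hbig | hsmall
  · refine ⟨1, le_refl _, fun L x y hL hx hxy => ?_⟩
    have h0 : 0 ≤ R15_H G L x y := R15_nonneg h L x y
    have hx0 : 0 < x := by linarith
    have hl : 0 ≤ Real.log (y / x) := Real.log_nonneg ((one_le_div hx0).2 hxy)
    have h1 : (1 / 2 - ε) * Real.log (y / x) ≤ 0 :=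
      mul_nonpos_of_nonpos_of_nonneg (by linarith) hl
    have h2 : (1 / 2 - ε) * Real.log (y / x) - 1 ≤ R15_H G L x y := by linarith
    exact h2
  · have hpi := Real.pi_pos
    obtain ⟨N, hN⟩ := exists_nat_gt (max 2 (2 * Real.pi / ε))
    have hN2 : (2 : ℝ) < N := (le_max_left _ _).trans_lt hN
    have hN1 : 1 < N := by
      have : (1 : ℝ) < N := by linarith
      exact_mod_cast this
    have hN0 : (0 : ℝ) < N := by linarith
    have hNe : 2 * Real.pi / N < ε := by
      have h1 := (le_max_right _ _).trans_lt hN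
      rw [div_lt_iff₀ hε] at h1
      rw [div_lt_iff₀ hN0]
      linarith
    obtain ⟨d, hd⟩ : ∃ d : ℝ, d = 1 / 2 - ε / 2 := ⟨_, rfl⟩
    have hd0 : 0 ≤ d := by linarith
    have hβ : 1 / 2 - ε ≤ d * (1 - 2 * Real.pi / N) := by
      have h1 : 0 < 2 * Real.pi / N := by positivity
      nlinarith
    have hev : ∀ᶠ q : ℝ × ℝ in atTop ×ˢ atTop, d ≤ (Psi G (q.1 + q.2) - Psi G q.1) / q.2 :=
      hW.eventually (Ici_mem_nhds (show d < 1 / 2 by linarith))
    rw [Filter.prod_atTop_atTop_eq, eventually_atTop] at hev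
    obtain ⟨⟨x1, M1⟩, hxM⟩ := hev
    refine ⟨max (max 1 (2 * Real.pi)) (max x1 (N * M1 / (2 * Real.pi))),
      (le_max_left _ _).trans (le_max_left _ _), fun L x y hL hx hxy => ?_⟩
    obtain ⟨x0, hx0⟩ : ∃ x0 : ℝ, x0 = max (max 1 (2 * Real.pi)) (max x1 (N * M1 / (2 * Real.pi))) :=
      ⟨_, rfl⟩
    rw [← hx0] at hL hx
    have b1 : 1 ≤ x0 := by rw [hx0]; exact (le_max_left _ _).trans (le_max_left _ _)
    have b2 : 2 * Real.pi ≤ x0 := by rw [hx0]; exact (le_max_right _ _).trans (le_max_left _ _)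
    have b3 : x1 ≤ x0 := by rw [hx0]; exact (le_max_left _ _).trans (le_max_right _ _)
    have b4 : N * M1 / (2 * Real.pi) ≤ x0 := by
      rw [hx0]; exact (le_max_right _ _).trans (le_max_right _ _)
    have hL0 : 0 < L := by linarith
    have hxx : x0 ≤ x := by nlinarith
    have hxpos : 0 < x := by linarith
    obtain ⟨u, hu⟩ : ∃ u : ℝ, u = 2 * Real.pi * L := ⟨_, rfl⟩
    have hu0 : 0 < u := by rw [hu]; positivity
    have hux : u ≤ x := by
      rw [hu]
      nlinarith
    obtain ⟨s, hs⟩ : ∃ s : ℝ, s = u / N := ⟨_, rfl⟩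
    have hsN : s * N = 2 * Real.pi * L := by
      rw [hs, div_mul_cancel₀ _ hN0.ne', hu]
    have hs0 : 0 < s := by rw [hs]; positivity
    have hsM : M1 ≤ s := by
      rw [hs, le_div_iff₀ hN0, hu]
      rw [div_le_iff₀ (by positivity)] at b4
      nlinarith
    have hP : ∀ z, x ≤ z → d * s ≤ Psi G (z + s) - Psi G z := by
      intro z hz
      have h1 := hxM (z, s) ⟨by change x1 ≤ z; linarith, hsM⟩
      rwa [le_div_iff₀ hs0] at h1
    have hblock : ∀ v, x ≤ v → (1 / 2 - ε) * (u / (v + u)) ≤ R15_H G L v (v + u) := by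
      intro v hv
      have h1 := R15_block h N hN1 hL0 hsN (by linarith : 0 < v) hd0
        (fun z hz => hP z (hv.trans hz))
      rw [← hu] at h1
      refine le_trans ?_ h1
      rw [mul_div_assoc]
      exact mul_le_mul_of_nonneg_right hβ (div_nonneg hu0.le (by linarith))
    have hJ : ∀ J : ℕ, (1 / 2 - ε) * Real.log ((x + u * (J + 1)) / (x + u)) ≤
        R15_H G L x (x + u * J) := by
      intro J
      induction J with
      | zero =>
        rw [Nat.cast_zero, zero_add, mul_one, div_self (by positivity), Real.log_one, mul_zero]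
        exact R15_nonneg h L _ _
      | succ J ih =>
        have h0 : (0 : ℝ) ≤ u * J := by positivity
        have h1 := hblock (x + u * J) (by linarith)
        have h2 : x + u * ((J + 1 : ℕ) : ℝ) = x + u * J + u := by
          push_cast
          ring
        rw [h2, ← R15_add h L (by linarith : x ≤ x + u * J)
          (by linarith : x + u * J ≤ x + u * J + u)]
        have h3 : (x + u * (((J + 1 : ℕ) : ℝ) + 1)) / (x + u) =
            (x + u * (J + 1)) / (x + u) * (1 + u / (x + u * J + u)) := by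
          have h5 : x + u ≠ 0 := by positivity
          have h6 : x + u * J + u ≠ 0 := by positivity
          push_cast
          field_simp
          ring
        have h4 : Real.log ((x + u * (((J + 1 : ℕ) : ℝ) + 1)) / (x + u)) ≤
            Real.log ((x + u * (J + 1)) / (x + u)) + u / (x + u * J + u) := by
          rw [h3, Real.log_mul (by positivity) (by positivity)]
          have h5 := Real.log_le_sub_one_of_pos (show 0 < 1 + u / (x + u * J + u) by positivity)
          linarith
        have h5 := mul_le_mul_of_nonneg_left h4 (show 0 ≤ 1 / 2 - ε by linarith)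
        linarith
    obtain ⟨J, hJd⟩ : ∃ J : ℕ, J = ⌊(y - x) / u⌋₊ := ⟨_, rfl⟩
    have hJ1 : x + u * J ≤ y := by
      have h1 := Nat.floor_le (div_nonneg (sub_nonneg.2 hxy) hu0.le)
      rw [← hJd, le_div_iff₀ hu0] at h1
      linarith
    have hJ2 : y ≤ x + u * (J + 1) := by
      have h1 := Nat.lt_floor_add_one ((y - x) / u)
      rw [← hJd, div_lt_iff₀ hu0] at h1
      linarith
    have hy0 : 0 < y := by linarith
    have h1 : Real.log (y / x) - 1 ≤ Real.log ((x + u * (J + 1)) / (x + u)) := by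
      have h2 : Real.log (y / (x + u)) ≤ Real.log ((x + u * (J + 1)) / (x + u)) :=
        Real.log_le_log (by positivity) (div_le_div_of_nonneg_right hJ2 (by positivity))
      have h3 : Real.log (y / x) = Real.log (y / (x + u)) + Real.log (1 + u / x) := by
        have h6 : y / (x + u) ≠ 0 := (div_pos hy0 (by linarith)).ne'
        have h7 : 1 + u / x ≠ 0 := by positivity
        rw [← Real.log_mul h6 h7]
        congr 1
        field_simp
      have h4 := Real.log_le_sub_one_of_pos (show 0 < 1 + u / x by positivity)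
      have h5 : u / x ≤ 1 := (div_le_one hxpos).2 hux
      linarith
    have h2 := mul_le_mul_of_nonneg_left h1 (show 0 ≤ 1 / 2 - ε by linarith)
    have h3 : (1 / 2 - ε) * Real.log (y / x) - 1 ≤ R15_H G L x y := by
      have h4 := (hJ J).trans (R15_mono h L hJ1)
      nlinarith
    exact h3

end NV73
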