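import Pool.Agent.LibSW73.Defs

/-! Row R2: a window of the flow. 40 min.
PLAN of `avg_shift`: `intervalIntegral.integral_comp_add_right` (or `_left`): `∫ s in x..(x + M), F s = ∫ s in 0..M, F (x + s)`
and `phi_add h s x hp : phi G s (phi G x p) = phi G (x + s) p`, whose first component is `E (E p.1 (x p.2)) (s dr) = E p.1
((x + s) p.2)` (also `h.flow`); for `M = 0` both sides are `0`, else `avg` is `1 / M` times the integral.
PLAN of `prod_eq2`: copy of `M7_prod_eq` (`LibSR85/M7`) with `Ioc 0 T` replaced by `Ioc x (x + M)`; at the end `avg_shift`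
instead of `unfold avg`. -/

open MeasureTheory Set Filter Topology
open scoped ContDiff ENNReal NNReal ComplexConjugate

namespace SR85

open BGS (Pl Surface)

variable {Γ : Type} [Group Γ] [MulAction Γ Pl] {D : Set Pl} {G : Dat Γ}

theorem avg_shift (h : HG D G) {f : Pl → Pl → ℝ} {p : Pl × ℂ} (hp : ‖p.2‖ = 1) (x M : ℝ) :
    ∫ s in x..(x + M), f (G.E p.1 ((s : ℂ) * p.2)) (G.E p.1 (((s + 1 : ℝ) : ℂ) * p.2)) =
      M * avg G f M (phi G x p).1 (phi G x p).2 := by
  have h3 : ∀ s : ℝ, G.E (phi G x p).1 ((s : ℂ) * (phi G x p).2) =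
      G.E p.1 (((x + s : ℝ) : ℂ) * p.2) := fun s => h.flow p.1 p.2 hp x s
  set F : ℝ → ℝ := fun s =>
    f (G.E p.1 ((s : ℂ) * p.2)) (G.E p.1 (((s + 1 : ℝ) : ℂ) * p.2)) with hF
  have h4 : ∀ s : ℝ, f (G.E (phi G x p).1 ((s : ℂ) * (phi G x p).2))
      (G.E (phi G x p).1 (((s + 1 : ℝ) : ℂ) * (phi G x p).2)) = F (x + s) := by
    intro s
    rw [h3, h3, ← add_assoc]
  have h5 : avg G f M (phi G x p).1 (phi G x p).2 = (1 / M) * ∫ s in x..(x + M), F s := by
    unfold avg
    rw [intervalIntegral.integral_congr (fun s _ => h4 s),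
      intervalIntegral.integral_comp_add_left F x, add_zero]
  rw [h5]
  rcases eq_or_ne M 0 with rfl | hM
  · simp
  · rw [← mul_assoc, mul_one_div, div_self hM, one_mul]

theorem prod_eq2 (hX : Surface Γ D) (h : HG D G) {A : Pl × ℂ → ℝ≥0∞} (hA : Measurable A)
    {b : Pl → ℂ → ℝ} (hb : Continuous fun q : Pl × ℂ => b q.1 q.2) (hb0 : ∀ x u, 0 ≤ b x u)
    {N : Set Pl} (hN : IsCompact N) (hbN : ∀ x ∉ N, ∀ u, b x u = 0) {x M : ℝ} (hM : 0 ≤ M) :
    M7_F G ((volume : Measure ℝ).restrict (Ioc x (x + M)))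
      (fun (g : Γ) (s : ℝ) (p : Pl × ℂ) => act G g⁻¹ (phi G s p))
      (fun p q => A p * ENNReal.ofReal (b q.1 q.2)) =
    ∫⁻ p, A p * ENNReal.ofReal (M * avg G (persum G b) M (phi G x p).1 (phi G x p).2)
      ∂(muS G) := by
  have hcΓ := M7_count hX
  have hbm : Measurable fun q : Pl × ℂ => ENNReal.ofReal (b q.1 q.2) :=
    (ENNReal.continuous_ofReal.comp hb).measurable
  have hm : ∀ g : Γ, Measurable fun q : ℝ × (Pl × ℂ) =>
      ENNReal.ofReal (b (act G g (phi G q.1 q.2)).1 (act G g (phi G q.1 q.2)).2) :=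
    fun g => hbm.comp ((act_meas hX h g).comp (phi_cont h).measurable)
  have h1 : ∀ g : Γ, ∫⁻ s in Ioc x (x + M), ∫⁻ p, A p *
      ENNReal.ofReal (b (act G g⁻¹ (phi G s p)).1 (act G g⁻¹ (phi G s p)).2) ∂(muS G) =
      ∫⁻ p, A p * (∫⁻ s in Ioc x (x + M),
        ENNReal.ofReal (b (act G g⁻¹ (phi G s p)).1 (act G g⁻¹ (phi G s p)).2)) ∂(muS G) := by
    intro g
    rw [lintegral_lintegral_swap]
    · congr 1
      funext p
      exact lintegral_const_mul _ ((hm g⁻¹).comp measurable_prodMk_right)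
    · exact ((hA.comp measurable_snd).mul (hm g⁻¹)).aemeasurable
  unfold M7_F
  rw [tsum_congr h1, ← lintegral_tsum (fun g => ?_)]
  · apply lintegral_congr_ae
    filter_upwards [muS_unit G] with p hp
    rw [ENNReal.tsum_mul_left]
    congr 1
    have hm2 : ∀ g : Γ, Measurable fun s : ℝ =>
        ENNReal.ofReal (b (act G g⁻¹ (phi G s p)).1 (act G g⁻¹ (phi G s p)).2) :=
      fun g => (hm g⁻¹).comp measurable_prodMk_right
    rw [← lintegral_tsum (fun g => (hm2 g).aemeasurable)]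
    have h2 : ∀ s : ℝ, ∑' g : Γ,
        ENNReal.ofReal (b (act G g⁻¹ (phi G s p)).1 (act G g⁻¹ (phi G s p)).2) =
        ENNReal.ofReal (persum G b (G.E p.1 ((s : ℂ) * p.2))
          (G.E p.1 (((s + 1 : ℝ) : ℂ) * p.2))) := by
      intro s
      rw [persum_phi hX h hb0 hN hbN hp s]
      exact (Equiv.inv Γ).tsum_eq (fun g => ENNReal.ofReal
        (b (act G g (phi G s p)).1 (act G g (phi G s p)).2))
    simp_rw [h2]
    have hc := M5_cont' h (persum_cont hX h hb hN hbN) p.1 p.2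
    rw [← ofReal_integral_eq_lintegral_ofReal
      ((hc.integrableOn_Icc (a := x) (b := x + M)).mono_set Ioc_subset_Icc_self)
      (Eventually.of_forall fun s => finsum_nonneg fun g => hb0 _ _)]
    congr 1
    rw [← avg_shift h hp x M, intervalIntegral.integral_of_le (by linarith)]
  · exact (hA.mul ((hm g⁻¹).comp measurable_swap).lintegral_prod_right').aemeasurable

end SR85
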