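import Pool.Agent.LibSW73.R1
import Pool.Agent.LibSW73.R2

/-! Row R3: equidistribution for products, in windows. 50 min.
PLAN. Copy of `M7_prod_lim` (`LibSR85/M7`): replace `T` by `q : ℝ × ℝ`, `Ioc 0 T` by `Ioc q.1 (q.1 + q.2)`,
`avg G (persum G b) T p.1 p.2` by `avg G (persum G b) q.2 (phi G q.1 p).1 (phi G q.1 p).2`, `M7_prod_eq` by `prod_eq2`,
`mean_erg_N` by `mean_erg_W`, `atTop` by `atTop ×ˢ atTop`. Measurability of the new average: `avg_cont` and `phi_cont`.
Finiteness: `phi G x p` is a unit vector (`h.dr_norm`), so `E5_avg_le` applies; for `M < 0` the window is empty. -/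

open MeasureTheory Set Filter Topology
open scoped ContDiff ENNReal NNReal ComplexConjugate

namespace SR85

open BGS (Pl Surface)

variable {Γ : Type} [Group Γ] [MulAction Γ Pl] {D : Set Pl} {G : Dat Γ}

theorem prod_lim2 (hX : Surface Γ D) (h : HG D G) {A : Pl × ℂ → ℝ≥0∞} (hA : Measurable A)
    (hA1 : ∀ p, A p ≤ 1) {M : Set Pl} (hM : IsCompact M) (hAM : ∀ p, p.1 ∉ M → A p = 0)
    {b : Pl → ℂ → ℝ} (hb : Continuous fun q : Pl × ℂ => b q.1 q.2) (hb0 : ∀ x u, 0 ≤ b x u)
    {N : Set Pl} (hN : IsCompact N) (hbN : ∀ x ∉ N, ∀ u, b x u = 0) :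
    Tendsto (fun q : ℝ × ℝ => M7_F G ((volume : Measure ℝ).restrict (Ioc q.1 (q.1 + q.2)))
      (fun (g : Γ) (s : ℝ) (p : Pl × ℂ) => act G g⁻¹ (phi G s p))
      (fun p q => A p * ENNReal.ofReal (b q.1 q.2)) / ENNReal.ofReal q.2) (atTop ×ˢ atTop)
      (𝓝 (M7_F G (ENNReal.ofReal (1 / (2 * Real.pi)) • muS G)
        (fun (_ : Unit) (q : Pl × ℂ) (_ : Pl × ℂ) => q)
        (fun p q => A p * ENNReal.ofReal (b q.1 q.2)))) ∧
      M7_F G (ENNReal.ofReal (1 / (2 * Real.pi)) • muS G)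
        (fun (_ : Unit) (q : Pl × ℂ) (_ : Pl × ℂ) => q)
        (fun p q => A p * ENNReal.ofReal (b q.1 q.2)) < ⊤ ∧
      ∀ x T : ℝ, M7_F G ((volume : Measure ℝ).restrict (Ioc x (x + T)))
      (fun (g : Γ) (s : ℝ) (p : Pl × ℂ) => act G g⁻¹ (phi G s p))
      (fun p q => A p * ENNReal.ofReal (b q.1 q.2)) < ⊤ := by
  have hpc := persum_cont hX h hb hN hbN
  have hpi := persum_inv G b
  have hbm : Measurable fun q : Pl × ℂ => ENNReal.ofReal (b q.1 q.2) :=
    (ENNReal.continuous_ofReal.comp hb).measurable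
  have hMm : MeasurableSet (M ×ˢ (univ : Set ℂ)) := hM.measurableSet.prod MeasurableSet.univ
  have hAχ : ∀ p, A p ≤ (M ×ˢ (univ : Set ℂ)).indicator 1 p := by
    intro p
    by_cases hp : p.1 ∈ M
    · rw [Set.indicator_of_mem (show p ∈ M ×ˢ (univ : Set ℂ) from ⟨hp, mem_univ _⟩)]
      exact hA1 p
    · rw [hAM p hp]
      exact zero_le
  have hAI : ∫⁻ p, A p ∂(muS G) < ⊤ := by
    refine lt_of_le_of_lt (lintegral_mono hAχ) ?_
    rw [lintegral_indicator_one hMm]
    exact muS_fin h hM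
  have hbI : ∫⁻ q, ENNReal.ofReal (b q.1 q.2) ∂(muS G) =
      ENNReal.ofReal (∫ q, b q.1 q.2 ∂(muS G)) :=
    (ofReal_integral_eq_lintegral_ofReal (M7_int h hb hN hbN)
      (Eventually.of_forall fun q => hb0 _ _)).symm
  have hL : M7_F G (ENNReal.ofReal (1 / (2 * Real.pi)) • muS G)
        (fun (_ : Unit) (q : Pl × ℂ) (_ : Pl × ℂ) => q)
        (fun p q => A p * ENNReal.ofReal (b q.1 q.2)) =
      (∫⁻ p, A p ∂(muS G)) * ENNReal.ofReal (mean D G (persum G b)) := by
    unfold M7_F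
    rw [tsum_fintype, Finset.univ_unique, Finset.sum_singleton, lintegral_smul_measure]
    have h2 : ∀ q : Pl × ℂ, ∫⁻ p, A p * ENNReal.ofReal (b q.1 q.2) ∂(muS G) =
        (∫⁻ p, A p ∂(muS G)) * ENNReal.ofReal (b q.1 q.2) := fun q => lintegral_mul_const _ hA
    simp_rw [h2]
    rw [lintegral_const_mul _ hbm, hbI, persum_mean hX h hb hb0 hN hbN,
      ENNReal.ofReal_mul (by positivity), smul_eq_mul]
    ring
  have hLt : (∫⁻ p, A p ∂(muS G)) * ENNReal.ofReal (mean D G (persum G b)) < ⊤ :=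
    ENNReal.mul_lt_top hAI ENNReal.ofReal_lt_top
  have havm : ∀ T : ℝ × ℝ, Measurable fun p : Pl × ℂ =>
      ENNReal.ofReal (avg G (persum G b) T.2 (phi G T.1 p).1 (phi G T.1 p).2) := fun T =>
    ((ENNReal.continuous_ofReal.comp (avg_cont h hpc T.2)).comp
      ((phi_cont h).comp (continuous_const.prodMk continuous_id))).measurable
  have hAm : ∀ T : ℝ × ℝ, Measurable fun p : Pl × ℂ =>
      A p * ENNReal.ofReal (avg G (persum G b) T.2 (phi G T.1 p).1 (phi G T.1 p).2) :=
    fun T => hA.mul (havm T)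
  refine ⟨?_, by rw [hL]; exact hLt, fun x T => ?_⟩
  · rw [hL]
    have he := mean_erg_W hX h hpc hpi hM
    set m : ℝ := mean D G (persum G b) with hm
    set c : ℝ≥0∞ := (∫⁻ p, A p ∂(muS G)) * ENNReal.ofReal m with hc
    set e : ℝ × ℝ → ℝ≥0∞ := fun T => ∫⁻ p in M ×ˢ univ,
      ENNReal.ofReal |avg G (persum G b) T.2 (phi G T.1 p).1 (phi G T.1 p).2 - m| ∂(muS G) with hedef
    set a : ℝ × ℝ → ℝ≥0∞ := fun T => ∫⁻ p, A p *
      ENNReal.ofReal (avg G (persum G b) T.2 (phi G T.1 p).1 (phi G T.1 p).2) ∂(muS G) with ha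
    have hcI : c = ∫⁻ p, A p * ENNReal.ofReal m ∂(muS G) := (lintegral_mul_const _ hA).symm
    have heI : ∀ T, e T = ∫⁻ p, (M ×ˢ (univ : Set ℂ)).indicator
        (fun p : Pl × ℂ => ENNReal.ofReal |avg G (persum G b) T.2 (phi G T.1 p).1 (phi G T.1 p).2 - m|) p ∂(muS G) :=
      fun T => (lintegral_indicator hMm _).symm
    have hpt : ∀ (v w : ℝ) (p : Pl × ℂ), A p * ENNReal.ofReal v ≤ A p * ENNReal.ofReal w +
        (M ×ˢ (univ : Set ℂ)).indicator (fun _ => ENNReal.ofReal |v - w|) p := by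
      intro v w p
      have h3 : ENNReal.ofReal v ≤ ENNReal.ofReal w + ENNReal.ofReal |v - w| := by
        refine le_trans (ENNReal.ofReal_le_ofReal ?_) ENNReal.ofReal_add_le
        linarith [le_abs_self (v - w)]
      refine (mul_le_mul_right h3 (A p)).trans ?_
      rw [mul_add]
      gcongr
      by_cases hp : p.1 ∈ M
      · rw [Set.indicator_of_mem (show p ∈ M ×ˢ (univ : Set ℂ) from ⟨hp, mem_univ _⟩)]
        calc A p * ENNReal.ofReal |v - w| ≤ 1 * ENNReal.ofReal |v - w| := by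
              gcongr
              exact hA1 p
          _ = _ := one_mul _
      · rw [hAM p hp, zero_mul]
        exact zero_le
    have hup : ∀ T, a T ≤ c + e T := by
      intro T
      rw [hcI, heI, ← lintegral_add_left (hA.mul_const _)]
      exact lintegral_mono fun p => hpt _ _ p
    have hlo : ∀ T, c ≤ a T + e T := by
      intro T
      rw [hcI, heI, ← lintegral_add_left (hAm T)]
      refine lintegral_mono fun p => ?_
      refine (hpt m (avg G (persum G b) T.2 (phi G T.1 p).1 (phi G T.1 p).2) p).trans (le_of_eq ?_)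
      congr 1
      by_cases hp : p ∈ M ×ˢ (univ : Set ℂ)
      · rw [Set.indicator_of_mem hp, Set.indicator_of_mem hp, abs_sub_comm]
      · rw [Set.indicator_of_notMem hp, Set.indicator_of_notMem hp]
    have hat : Tendsto a (atTop ×ˢ atTop) (𝓝 c) := by
      have h4 : Tendsto (fun T => c + e T) (atTop ×ˢ atTop) (𝓝 c) := by
        have := tendsto_const_nhds (x := c) (f := (atTop ×ˢ atTop : Filter (ℝ × ℝ))) |>.add he
        rwa [add_zero] at this
      have h5 : Tendsto (fun T => c - e T) (atTop ×ˢ atTop) (𝓝 c) := by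
        have := ENNReal.Tendsto.sub (tendsto_const_nhds (x := c) (f := (atTop ×ˢ atTop : Filter (ℝ × ℝ)))) he
          (Or.inl hLt.ne)
        rwa [tsub_zero] at this
      exact tendsto_of_tendsto_of_tendsto_of_le_of_le h5 h4
        (fun T => tsub_le_iff_right.mpr (hlo T)) hup
    refine hat.congr' ?_
    filter_upwards [tendsto_snd.eventually (eventually_gt_atTop (0 : ℝ))] with T hT
    rw [prod_eq2 hX h hA hb hb0 hN hbN hT.le]
    have h6 : ∀ p : Pl × ℂ, A p * ENNReal.ofReal (T.2 * avg G (persum G b) T.2 (phi G T.1 p).1 (phi G T.1 p).2) =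
        ENNReal.ofReal T.2 * (A p * ENNReal.ofReal (avg G (persum G b) T.2 (phi G T.1 p).1 (phi G T.1 p).2)) := by
      intro p
      rw [ENNReal.ofReal_mul hT.le]
      ring
    simp_rw [h6]
    rw [lintegral_const_mul _ (hAm T), mul_comm,
      ENNReal.mul_div_cancel_right (ENNReal.ofReal_pos.mpr hT).ne' ENNReal.ofReal_ne_top]
  · rcases lt_or_ge T 0 with hT | hT
    · unfold M7_F
      rw [Ioc_eq_empty (by linarith), Measure.restrict_empty]
      simp
    · rw [prod_eq2 hX h hA hb hb0 hN hbN hT]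
      obtain ⟨B, hB, hbd⟩ := bdd hX h hpc hpi
      have h7 : ∫⁻ p, A p * ENNReal.ofReal (T * avg G (persum G b) T (phi G x p).1 (phi G x p).2) ∂(muS G) ≤
          ∫⁻ p, A p * ENNReal.ofReal (T * B) ∂(muS G) := by
        apply lintegral_mono_ae
        filter_upwards [muS_unit G] with p hp
        gcongr
        exact (le_abs_self _).trans (E5_avg_le h hB hbd T _ (h.dr_norm p.1 p.2 hp x))
      refine lt_of_le_of_lt h7 ?_
      rw [lintegral_mul_const _ hA]
      exact ENNReal.mul_lt_top hAI ENNReal.ofReal_lt_top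

end SR85
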