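import Pool.Agent.LibSW73.R3

/-! Row R4: equidistribution for kernels, in windows. 50 min.
PLAN. Copy of `equi` (`LibSR85/M7`): replace `FT T` by `FT q` with the measure `volume.restrict (Ioc q.1 (q.1 + q.2))`,
`M7_prod_lim` by `prod_lim2`, `atTop` by `atTop ×ˢ atTop` (`q : ℝ × ℝ`), `M7_okW` by its copy for the new measure (it does not
depend on the set), `ENNReal.ofReal T` by `ENNReal.ofReal q.2`. `WK2 G K q.1 (q.1 + q.2) = FT q KK` by definition. The second
part: `WK2 G K a b = WK2 G K a (a + (b - a))`. -/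

open MeasureTheory Set Filter Topology
open scoped ContDiff ENNReal NNReal ComplexConjugate

namespace SR85

open BGS (Pl Surface)

variable {Γ : Type} [Group Γ] [MulAction Γ Pl] {D : Set Pl} {G : Dat Γ}

theorem equi2 (hX : Surface Γ D) (h : HG D G) {K : Pl × ℂ → Pl × ℂ → ℝ}
    (hK : Continuous fun q : (Pl × ℂ) × (Pl × ℂ) => K q.1 q.2) (hK0 : ∀ p q, 0 ≤ K p q)
    {N : Set Pl} (hN : IsCompact N) (hKN : ∀ p q, K p q ≠ 0 → p.1 ∈ N ∧ q.1 ∈ N) :
    Tendsto (fun q : ℝ × ℝ => (WK2 G K q.1 (q.1 + q.2)).toReal / q.2) (atTop ×ˢ atTop)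
      (𝓝 ((1 / (2 * Real.pi)) * ∫ p, ∫ q, K p q ∂(muS G) ∂(muS G))) ∧
      ∀ a b, WK2 G K a b < ⊤ := by
  obtain ⟨β, hβ1, _, hβc, hβI⟩ := exists_continuous_one_zero_of_isCompact hN isClosed_empty
    (disjoint_empty N)
  have hβ1' : ∀ x ∈ N, β x = 1 := fun x hx => hβ1 hx
  have hβ0 : ∀ x, 0 ≤ β x := fun x => (hβI x).1
  set φW : Γ → ℝ → Pl × ℂ → Pl × ℂ := fun g s p => act G g⁻¹ (phi G s p) with hφW
  set φL : Unit → Pl × ℂ → Pl × ℂ → Pl × ℂ := fun _ q _ => q with hφL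
  set cπ : ℝ≥0∞ := ENNReal.ofReal (1 / (2 * Real.pi)) with hcπ
  set FT : ℝ × ℝ → (Pl × ℂ → Pl × ℂ → ℝ≥0∞) → ℝ≥0∞ :=
    fun T k => M7_F G ((volume : Measure ℝ).restrict (Ioc T.1 (T.1 + T.2))) φW k with hFT
  set L : (Pl × ℂ → Pl × ℂ → ℝ≥0∞) → ℝ≥0∞ := fun k => M7_F G (cπ • muS G) φL k with hLdef
  set KK : Pl × ℂ → Pl × ℂ → ℝ≥0∞ := fun p q => ENNReal.ofReal (K p q) with hKK
  set R : Pl × ℂ → Pl × ℂ → ℝ≥0∞ := fun p q =>
    (N ×ˢ (univ : Set ℂ)).indicator 1 p * ENNReal.ofReal (β q.1) with hR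
  have hNm : MeasurableSet (N ×ˢ (univ : Set ℂ)) := hN.measurableSet.prod MeasurableSet.univ
  have hχm : Measurable ((N ×ˢ (univ : Set ℂ)).indicator (1 : Pl × ℂ → ℝ≥0∞)) :=
    measurable_one.indicator hNm
  have hRm : Measurable fun q : (Pl × ℂ) × (Pl × ℂ) => R q.1 q.2 :=
    (hχm.comp measurable_fst).mul
      (ENNReal.continuous_ofReal.comp (β.continuous.comp
        (continuous_fst.comp continuous_snd))).measurable
  have hKKm : Measurable fun q : (Pl × ℂ) × (Pl × ℂ) => KK q.1 q.2 :=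
    (ENNReal.continuous_ofReal.comp hK).measurable
  have hRlim := prod_lim2 hX h hχm (M := N)
    (fun p => Set.indicator_le_self' (fun _ _ => zero_le) p) hN
    (fun p hp => Set.indicator_of_notMem (fun hh => hp hh.1) _)
    (b := fun x _ => β x) (β.continuous.comp continuous_fst) (fun x _ => hβ0 x)
    (N := tsupport β) hβc (fun x hx _ => image_eq_zero_of_notMem_tsupport hx)
  have hKv : ∀ v : Pl × ℂ, Continuous fun q : Pl × ℂ => K v q := fun v =>
    hK.comp (continuous_const.prodMk continuous_id)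
  have hwk : ∀ T : ℝ × ℝ, WK2 G K T.1 (T.1 + T.2) = FT T KK := fun T => rfl
  have hokW : ∀ T : ℝ × ℝ, M7_OK ((volume : Measure ℝ).restrict (Ioc T.1 (T.1 + T.2)))
      (fun (g : Γ) (s : ℝ) (p : Pl × ℂ) => act G g⁻¹ (phi G s p)) := fun T =>
    { meas := fun g => (act_meas hX h g⁻¹).comp (phi_cont h).measurable
      unit := fun g => Eventually.of_forall fun s p hp => M7_unit h g⁻¹ s hp }
  -- the two approximations
  have happ : ∀ ε : ℝ, 0 < ε → ∃ kε : Pl × ℂ → Pl × ℂ → ℝ≥0∞,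
      (∀ T, FT T KK ≤ FT T kε + ENNReal.ofReal ε * FT T R) ∧
      (∀ T, FT T kε ≤ FT T KK + ENNReal.ofReal ε * FT T R) ∧
      (L KK ≤ L kε + ENNReal.ofReal ε * L R) ∧ (L kε ≤ L KK + ENNReal.ofReal ε * L R) ∧
      Tendsto (fun T : ℝ × ℝ => FT T kε / ENNReal.ofReal T.2) (atTop ×ˢ atTop) (𝓝 (L kε)) ∧ L kε < ⊤ ∧
      ∀ T, FT T kε < ⊤ := by
    intro ε hε
    obtain ⟨s, A, hA, hA1, hAN, hsand⟩ := M7_sandwich hK0 hK hN hKN hβ1' hβ0 hε
    have hkm : ∀ v, Measurable fun q : (Pl × ℂ) × (Pl × ℂ) =>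
        A v q.1 * ENNReal.ofReal (K v q.2) := fun v =>
      ((hA v).comp measurable_fst).mul
        (ENNReal.continuous_ofReal.comp ((hKv v).comp continuous_snd)).measurable
    have hksm : Measurable fun q : (Pl × ℂ) × (Pl × ℂ) =>
        ∑ v ∈ s, A v q.1 * ENNReal.ofReal (K v q.2) :=
      Finset.measurable_sum s fun v _ => hkm v
    have hlim := fun v => prod_lim2 hX h (hA v) (hA1 v) hN (hAN v)
      (b := fun x u => K v (x, u)) (hKv v) (fun x u => hK0 _ _) hN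
      (fun x hx u => by
        by_contra hne
        exact hx (hKN _ _ hne).2)
    have hsW : ∀ T : ℝ × ℝ, FT T (fun p q => ∑ v ∈ s, A v p * ENNReal.ofReal (K v q)) =
        ∑ v ∈ s, FT T (fun p q => A v p * ENNReal.ofReal (K v q)) := fun T =>
      M7_sum G (hokW T) s hkm
    have hsL : L (fun p q => ∑ v ∈ s, A v p * ENNReal.ofReal (K v q)) =
        ∑ v ∈ s, L (fun p q => A v p * ENNReal.ofReal (K v q)) :=
      M7_sum G (M7_okL G cπ) s hkm
    refine ⟨fun p q => ∑ v ∈ s, A v p * ENNReal.ofReal (K v q), fun T => ?_, fun T => ?_, ?_, ?_,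
      ?_, ?_, fun T => ?_⟩
    · refine (M7_mono G (hokW T) fun p q hp hq => (hsand p q hp hq).1).trans ?_
      rw [M7_add G (hokW T) hksm, M7_smul G (hokW T) _ hRm]
    · refine (M7_mono G (hokW T) fun p q hp hq => (hsand p q hp hq).2).trans ?_
      rw [M7_add G (hokW T) hKKm, M7_smul G (hokW T) _ hRm]
    · refine (M7_mono G (M7_okL G cπ) fun p q hp hq => (hsand p q hp hq).1).trans ?_
      rw [M7_add G (M7_okL G cπ) hksm, M7_smul G (M7_okL G cπ) _ hRm]
    · refine (M7_mono G (M7_okL G cπ) fun p q hp hq => (hsand p q hp hq).2).trans ?_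
      rw [M7_add G (M7_okL G cπ) hKKm, M7_smul G (M7_okL G cπ) _ hRm]
    · rw [hsL]
      have h1 : ∀ T : ℝ × ℝ, FT T (fun p q => ∑ v ∈ s, A v p * ENNReal.ofReal (K v q)) /
          ENNReal.ofReal T.2 =
          ∑ v ∈ s, FT T (fun p q => A v p * ENNReal.ofReal (K v q)) / ENNReal.ofReal T.2 := by
        intro T
        rw [hsW, ENNReal.div_eq_inv_mul, Finset.mul_sum]
        exact Finset.sum_congr rfl fun v _ => (ENNReal.div_eq_inv_mul).symm
      simp_rw [h1]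
      exact tendsto_finset_sum s fun v _ => (hlim v).1
    · rw [hsL]
      exact ENNReal.sum_lt_top.mpr fun v _ => (hlim v).2.1
    · rw [hsW]
      exact ENNReal.sum_lt_top.mpr fun v _ => (hlim v).2.2 T.1 T.2
  have hfin : ∀ T, FT T KK < ⊤ := by
    intro T
    obtain ⟨kε, h1, _, _, _, _, _, h7⟩ := happ 1 one_pos
    refine lt_of_le_of_lt (h1 T) (ENNReal.add_lt_top.mpr ⟨h7 T, ?_⟩)
    exact ENNReal.mul_lt_top ENNReal.ofReal_lt_top (hRlim.2.2 T.1 T.2)
  have hLfin : L KK < ⊤ := by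
    obtain ⟨kε, _, _, h3, _, _, h6, _⟩ := happ 1 one_pos
    refine lt_of_le_of_lt h3 (ENNReal.add_lt_top.mpr ⟨h6, ?_⟩)
    exact ENNReal.mul_lt_top ENNReal.ofReal_lt_top hRlim.2.1
  set r : ℝ≥0∞ := L R with hr
  have hrt : r < ⊤ := hRlim.2.1
  have hRl : Tendsto (fun T : ℝ × ℝ => FT T R / ENNReal.ofReal T.2) (atTop ×ˢ atTop) (𝓝 r) := hRlim.1
  have hεr : ∀ ε : ℝ, Tendsto (fun T : ℝ × ℝ => ENNReal.ofReal ε * (FT T R / ENNReal.ofReal T.2)) (atTop ×ˢ atTop)
      (𝓝 (ENNReal.ofReal ε * r)) := fun ε =>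
    ENNReal.Tendsto.const_mul hRl (Or.inr ENNReal.ofReal_ne_top)
  have hup : ∀ ε : ℝ, 0 < ε → limsup (fun T : ℝ × ℝ => FT T KK / ENNReal.ofReal T.2) (atTop ×ˢ atTop) ≤
      L KK + (ENNReal.ofReal ε * r + ENNReal.ofReal ε * r) := by
    intro ε hε
    obtain ⟨kε, h1, h2, h3, h4, h5, h6, h7⟩ := happ ε hε
    have h8 : Tendsto (fun T : ℝ × ℝ => FT T kε / ENNReal.ofReal T.2 +
        ENNReal.ofReal ε * (FT T R / ENNReal.ofReal T.2)) (atTop ×ˢ atTop)
        (𝓝 (L kε + ENNReal.ofReal ε * r)) := h5.add (hεr ε)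
    have h9 : limsup (fun T : ℝ × ℝ => FT T KK / ENNReal.ofReal T.2) (atTop ×ˢ atTop) ≤
        limsup (fun T : ℝ × ℝ => FT T kε / ENNReal.ofReal T.2 +
          ENNReal.ofReal ε * (FT T R / ENNReal.ofReal T.2)) (atTop ×ˢ atTop) := by
      refine limsup_le_limsup (Eventually.of_forall fun T => ?_)
      refine (ENNReal.div_le_div_right (h1 T) _).trans (le_of_eq ?_)
      rw [ENNReal.add_div, mul_div_assoc]
    rw [h8.limsup_eq] at h9
    refine h9.trans ?_
    rw [← add_assoc]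
    gcongr
  have hlo : ∀ ε : ℝ, 0 < ε → L KK ≤ liminf (fun T : ℝ × ℝ => FT T KK / ENNReal.ofReal T.2) (atTop ×ˢ atTop) +
      (ENNReal.ofReal ε * r + ENNReal.ofReal ε * r) := by
    intro ε hε
    obtain ⟨kε, h1, h2, h3, h4, h5, h6, h7⟩ := happ ε hε
    have h8 : Tendsto (fun T : ℝ × ℝ => FT T kε / ENNReal.ofReal T.2 -
        ENNReal.ofReal ε * (FT T R / ENNReal.ofReal T.2)) (atTop ×ˢ atTop)
        (𝓝 (L kε - ENNReal.ofReal ε * r)) := ENNReal.Tendsto.sub h5 (hεr ε) (Or.inl h6.ne)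
    have h9 : liminf (fun T : ℝ × ℝ => FT T kε / ENNReal.ofReal T.2 -
        ENNReal.ofReal ε * (FT T R / ENNReal.ofReal T.2)) (atTop ×ˢ atTop) ≤
        liminf (fun T : ℝ × ℝ => FT T KK / ENNReal.ofReal T.2) (atTop ×ˢ atTop) := by
      refine liminf_le_liminf (Eventually.of_forall fun T => ?_)
      rw [tsub_le_iff_right]
      refine (ENNReal.div_le_div_right (h2 T) _).trans (le_of_eq ?_)
      rw [ENNReal.add_div, mul_div_assoc]
    rw [h8.liminf_eq, tsub_le_iff_right] at h9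
    rw [← add_assoc]
    refine h3.trans ?_
    gcongr
  have hzero : Tendsto (fun n : ℕ => ENNReal.ofReal (1 / ((n : ℝ) + 1)) * r +
      ENNReal.ofReal (1 / ((n : ℝ) + 1)) * r) atTop (𝓝 0) := by
    have h1 : Tendsto (fun n : ℕ => ENNReal.ofReal (1 / ((n : ℝ) + 1))) atTop (𝓝 0) := by
      rw [← ENNReal.ofReal_zero]
      exact ENNReal.tendsto_ofReal tendsto_one_div_add_atTop_nhds_zero_nat
    have h2 := ENNReal.Tendsto.mul_const h1 (Or.inr hrt.ne)
    have h3 := h2.add h2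
    rwa [zero_mul, add_zero] at h3
  have hup' : limsup (fun T : ℝ × ℝ => FT T KK / ENNReal.ofReal T.2) (atTop ×ˢ atTop) ≤ L KK := by
    have h1 := tendsto_const_nhds (x := L KK) (f := atTop (α := ℕ)) |>.add hzero
    rw [add_zero] at h1
    exact ge_of_tendsto' h1 fun n => hup _ (by positivity)
  have hlo' : L KK ≤ liminf (fun T : ℝ × ℝ => FT T KK / ENNReal.ofReal T.2) (atTop ×ˢ atTop) := by
    have h1 := tendsto_const_nhds (x := liminf (fun T : ℝ × ℝ => FT T KK / ENNReal.ofReal T.2) (atTop ×ˢ atTop))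
      (f := atTop (α := ℕ)) |>.add hzero
    rw [add_zero] at h1
    exact ge_of_tendsto' h1 fun n => hlo _ (by positivity)
  have hmain : Tendsto (fun T : ℝ × ℝ => FT T KK / ENNReal.ofReal T.2) (atTop ×ˢ atTop) (𝓝 (L KK)) :=
    tendsto_of_le_liminf_of_limsup_le hlo' hup'
  refine ⟨?_, fun a b => ?_⟩
  swap
  · have h1 := hfin (a, b - a)
    rw [← hwk (a, b - a)] at h1
    simpa using h1
  have hval : (L KK).toReal = (1 / (2 * Real.pi)) * ∫ p, ∫ q, K p q ∂(muS G) ∂(muS G) := by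
    have h1 : L KK = cπ * ∫⁻ q, ∫⁻ p, KK p q ∂(muS G) ∂(muS G) := by
      show M7_F G (cπ • muS G) φL KK = _
      unfold M7_F
      rw [tsum_fintype, Finset.univ_unique, Finset.sum_singleton, lintegral_smul_measure,
        smul_eq_mul]
    have h2 : ∫⁻ q, ∫⁻ p, KK p q ∂(muS G) ∂(muS G) =
        ∫⁻ z, KK z.1 z.2 ∂((muS G).prod (muS G)) := by
      rw [lintegral_prod _ hKKm.aemeasurable]
      exact lintegral_lintegral_swap (hKKm.comp measurable_swap).aemeasurable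
    have h3 : ∫⁻ z, KK z.1 z.2 ∂((muS G).prod (muS G)) < ⊤ := by
      rw [← h2]
      by_contra hcon
      rw [not_lt, top_le_iff] at hcon
      rw [h1, hcon, ENNReal.mul_top (ENNReal.ofReal_pos.mpr (by positivity)).ne'] at hLfin
      exact lt_irrefl _ hLfin
    have h4 : Integrable (fun z : (Pl × ℂ) × (Pl × ℂ) => K z.1 z.2) ((muS G).prod (muS G)) := by
      refine ⟨hK.aestronglyMeasurable, ?_⟩
      rw [hasFiniteIntegral_iff_ofReal (Eventually.of_forall fun z => hK0 _ _)]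
      exact h3
    rw [integral_integral h4, integral_eq_lintegral_of_nonneg_ae
      (Eventually.of_forall fun z => hK0 _ _) hK.aestronglyMeasurable, h1, h2, ENNReal.toReal_mul,
      ENNReal.toReal_ofReal (by positivity)]
  rw [← hval]
  have h1 := (ENNReal.tendsto_toReal hLfin.ne).comp hmain
  refine h1.congr' ?_
  filter_upwards [tendsto_snd.eventually (eventually_gt_atTop (0 : ℝ))] with T hT
  show (FT T KK / ENNReal.ofReal T.2).toReal = _
  rw [ENNReal.toReal_div, ENNReal.toReal_ofReal hT.le, hwk]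

end SR85
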