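import Pool.Agent.LibSW73.Defs

/-! Row R5: the two-point form, in windows. 30 min.
PLAN. Copy of `M8_one`, `WK_eq` (`LibSR85/M8`) with `H = fun t p q => if a < t ∧ t ≤ b then .. else 0`; for `0 ≤ a` the
set `Ioc a b` is contained in `Ioi 0`. -/

open MeasureTheory Set Filter Topology
open scoped ContDiff ENNReal NNReal ComplexConjugate

namespace SR85

open BGS (Pl Surface)

variable {Γ : Type} [Group Γ] [MulAction Γ Pl] {D : Set Pl} {G : Dat Γ}

private theorem R5_J_nonneg (h : HG D G) (x y : Pl) : 0 ≤ G.J x y := by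
  by_cases hxy : x = y
  · subst hxy
    have h1 : G.J x x = 0 := by
      unfold Dat.J
      rw [d_self h, show G.di x x = 0 by
        unfold Dat.di un
        rw [V_self h, zero_div]]
      exact h.B_diag x
    rw [h1]
  · exact (J_pos h hxy).le

private theorem R5_one (hX : Surface Γ D) (h : HG D G) {K : Pl × ℂ → Pl × ℂ → ℝ}
    (hK : Measurable fun q : (Pl × ℂ) × (Pl × ℂ) => K q.1 q.2) {a : ℝ} (ha : 0 ≤ a) (b : ℝ)
    (g : Γ) :
    ∫⁻ s in Ioc a b, ∫⁻ p,
      ENNReal.ofReal (K p (act G g⁻¹ (phi G s p))) ∂(muS G) = wg2 G K a b g := by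
  obtain ⟨H, hH⟩ : ∃ H : ℝ → Pl × ℂ → Pl × ℂ → ℝ≥0∞, H = fun t p q =>
    if a < t ∧ t ≤ b then ENNReal.ofReal (K p (act G g⁻¹ q)) else 0 := ⟨_, rfl⟩
  have hKm : Measurable fun q : (Pl × ℂ) × (Pl × ℂ) => K q.1 (act G g⁻¹ q.2) :=
    hK.comp (measurable_fst.prodMk ((act_meas hX h g⁻¹).comp measurable_snd))
  have hHm : Measurable fun q : ℝ × (Pl × ℂ) × (Pl × ℂ) => H q.1 q.2.1 q.2.2 := by
    rw [hH]
    exact Measurable.ite (measurable_fst (measurableSet_Ioc : MeasurableSet (Ioc a b)))
      (hKm.comp measurable_snd).ennreal_ofReal measurable_const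
  have h1 : ∫⁻ s in Ioc a b, ∫⁻ p,
      ENNReal.ofReal (K p (act G g⁻¹ (phi G s p))) ∂(muS G) =
      ∫⁻ t in Ioi (0 : ℝ), ∫⁻ p, H t p (phi G t p) ∂(muS G) := by
    rw [← lintegral_indicator measurableSet_Ioc, ← lintegral_indicator measurableSet_Ioi]
    refine lintegral_congr fun t => ?_
    by_cases ht : 0 < t
    · by_cases hT : a < t ∧ t ≤ b
      · rw [Set.indicator_of_mem (show t ∈ Ioc a b from hT),
          Set.indicator_of_mem (show t ∈ Ioi (0 : ℝ) from ht)]
        refine lintegral_congr fun p => ?_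
        rw [hH]
        simp only [if_pos hT]
      · rw [Set.indicator_of_notMem (fun hc : t ∈ Ioc a b => hT hc),
          Set.indicator_of_mem (show t ∈ Ioi (0 : ℝ) from ht), hH]
        simp only [if_neg hT, lintegral_zero]
    · rw [Set.indicator_of_notMem (fun hc : t ∈ Ioc a b => ht (ha.trans_lt hc.1)),
        Set.indicator_of_notMem (fun hc : t ∈ Ioi (0 : ℝ) => ht hc)]
  rw [h1, two_point h hHm]
  unfold wg2
  refine lintegral_congr fun x => ?_
  congr 1
  -- the substitution
  have hfm : Measurable fun y : Pl =>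
      H (G.d x y) (x, G.di x y) (y, -G.di y x) * ENNReal.ofReal (1 / G.J x y) := by
    have hd : Measurable fun y : Pl => G.d x y :=
      ((d_cont h).comp (continuous_const.prodMk continuous_id)).measurable
    have hi1 : Measurable fun y : Pl => G.di x y :=
      (di_meas h).comp (measurable_const.prodMk measurable_id)
    have hi2 : Measurable fun y : Pl => G.di y x :=
      (di_meas h).comp (measurable_id.prodMk measurable_const)
    have hJ : Measurable fun y : Pl => G.J x y :=
      (J_meas h).comp (measurable_const.prodMk measurable_id)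
    refine Measurable.mul ?_ ?_
    · exact hHm.comp (hd.prodMk ((measurable_const.prodMk hi1).prodMk
        (measurable_id.prodMk hi2.neg)))
    · exact (measurable_const.div hJ).ennreal_ofReal
  have h2 := h.rho_inv g _ hfm
  rw [← h2]
  refine lintegral_congr fun x' => ?_
  congr 1
  have h3 : act G g⁻¹ (g • x', -G.di (g • x') x) = (x', -G.di x' (g⁻¹ • x)) := by
    unfold act
    have h4 := di_smul h g⁻¹ (g • x') x
    rw [inv_smul_smul] at h4
    simp only [inv_smul_smul, mul_neg]
    rw [h4]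
  rw [hH]
  simp only [h3]
  by_cases hT : a < G.d x (g • x') ∧ G.d x (g • x') ≤ b
  · simp only [if_pos hT]
    rw [← ENNReal.ofReal_mul' (one_div_nonneg.2 (R5_J_nonneg h _ _)), mul_one_div]
  · simp only [if_neg hT, zero_mul]

theorem WK_eq2 (hX : Surface Γ D) (h : HG D G) {K : Pl × ℂ → Pl × ℂ → ℝ}
    (hK : Measurable fun q : (Pl × ℂ) × (Pl × ℂ) => K q.1 q.2) {a : ℝ} (ha : 0 ≤ a) (b : ℝ) :
    WK2 G K a b = ∑' g : Γ, wg2 G K a b g := by
  unfold WK2
  exact tsum_congr fun g => R5_one hX h hK ha b g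

end SR85
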