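import Pool.Agent.LibSW73.R4
import Pool.Agent.LibSW73.R5

/-! Row R6: the localised kernel, in windows. 30 min.
PLAN. `kern_lim2`: copy of `kern_lim` (`LibSR85/M9`) with `equi2`, `WK_eq2` (eventually `0 ≤ q.1`: `Tendsto.congr'`,
`tendsto_fst.eventually`). `kern_zero2`: as in `kern_one`: if the kernel is not zero then `x, x'` are in the compact set
`cthickening η (tsupport ψ)`, so `d x (g x') ≤ T₀` and the window `(a, b]` with `T₀ ≤ a` gives `0`. -/

open MeasureTheory Set Filter Topology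
open scoped ContDiff ENNReal NNReal ComplexConjugate

namespace SR85

open BGS (Pl Surface)

variable {Γ : Type} [Group Γ] [MulAction Γ Pl] {D : Set Pl} {G : Dat Γ}

theorem kern_lim2 (hX : Surface Γ D) (h : HG D G) {κ : ℂ → ℝ} (hκ : Continuous κ)
    (hκ0 : ∀ z, 0 ≤ κ z) {ψ χ : Pl → ℝ} (hψ : Continuous ψ) (hψ0 : ∀ x, 0 ≤ ψ x)
    (hψc : HasCompactSupport ψ) (hχ : Bump χ) {η : ℝ} (hη : 0 < η) :
    Tendsto (fun q : ℝ × ℝ => (∑' g : Γ, wg2 G (KK G κ ψ χ η) q.1 (q.1 + q.2) g).toReal / q.2)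
      (atTop ×ˢ atTop)
      (𝓝 ((∫ x, ψ x * G.rho x) *
        ∫ θ in (-Real.pi)..Real.pi, κ (Complex.exp ((θ : ℂ) * Complex.I)))) ∧
      ∀ a b, 0 ≤ a → ∑' g : Γ, wg2 G (KK G κ ψ χ η) a b g < ⊤ := by
  have hKc := M9_KK_cont h hκ hψ hχ η
  have hN : IsCompact (Metric.cthickening η (tsupport ψ)) := hψc.isCompact.cthickening
  obtain ⟨h1, h2⟩ := equi2 hX h hKc (M9_KK_nonneg h hκ0 hψ0 hχ η) hN (M9_KK_supp hχ hη)
  rw [M9_outer h hκ hψ hχ hη] at h1
  have h3 : ∀ a b, 0 ≤ a → ∑' g : Γ, wg2 G (KK G κ ψ χ η) a b g =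
      WK2 G (KK G κ ψ χ η) a b := fun a b ha => (WK_eq2 hX h hKc.measurable ha b).symm
  refine ⟨?_, fun a b ha => by rw [h3 a b ha]; exact h2 a b⟩
  refine h1.congr' ?_
  have h4 : ∀ᶠ q : ℝ × ℝ in atTop ×ˢ atTop, 0 ≤ q.1 :=
    tendsto_fst.eventually (eventually_ge_atTop 0)
  filter_upwards [h4] with q hq
  rw [h3 _ _ hq]

theorem kern_zero2 (hX : Surface Γ D) (h : HG D G) {κ : ℂ → ℝ} {ψ χ : Pl → ℝ}
    (hψc : HasCompactSupport ψ) (hχ : Bump χ) {η : ℝ} (hη : 0 < η) (g : Γ) :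
    ∃ T₀ : ℝ, ∀ a b, T₀ ≤ a → wg2 G (KK G κ ψ χ η) a b g = 0 := by
  have hN : IsCompact (Metric.cthickening η (tsupport ψ)) := hψc.isCompact.cthickening
  have hc : Continuous fun q : Pl × Pl => G.d q.1 (g • q.2) :=
    (d_cont h).comp (continuous_fst.prodMk ((hX.smooth g).continuous.comp continuous_snd))
  obtain ⟨T₀, hT₀⟩ := (hN.prod hN).exists_bound_of_continuousOn hc.continuousOn
  refine ⟨T₀, fun a b ha => ?_⟩
  unfold wg2
  have h0 : ∀ x x' : Pl, (if a < G.d x (g • x') ∧ G.d x (g • x') ≤ b then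
      ENNReal.ofReal (KK G κ ψ χ η (x, G.di x (g • x')) (x', -G.di x' (g⁻¹ • x)) /
        G.J x (g • x')) else 0) = 0 := by
    intro x x'
    split_ifs with h1
    · by_cases hK : KK G κ ψ χ η (x, G.di x (g • x')) (x', -G.di x' (g⁻¹ • x)) = 0
      · rw [hK, zero_div, ENNReal.ofReal_zero]
      · exfalso
        obtain ⟨h3, h4⟩ := M9_KK_supp hχ hη _ _ hK
        have h5 := hT₀ (x, x') ⟨h3, h4⟩
        rw [Real.norm_eq_abs] at h5
        have h6 : G.d x (g • x') ≤ T₀ := (le_abs_self _).trans h5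
        linarith [h1.1]
    · rfl
  simp only [h0, zero_mul, lintegral_zero]

end SR85
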