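import Pool.Agent.LibSW73.Defs

/-! Row R9: elementary facts on the loop integrals. 30 min.
PLAN. `lg_add`: pointwise `[d ≤ b] = [d ≤ a] + [a < d ≤ b]`; measurability of one of the two terms: `d_cont`, `J_meas`,
`di_meas` (`al` is measurable), `hκ`, `hψ` continuous. `lg_far`: if `ψ x ≠ 0` then `x` is in the compact set `tsupport ψ`, on
which `d x (g x) ≤ T₀` (continuous). -/

open MeasureTheory Set Filter Topology
open scoped ContDiff ENNReal NNReal ComplexConjugate

namespace SR85

open BGS (Pl Surface)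

variable {Γ : Type} [Group Γ] [MulAction Γ Pl] {D : Set Pl} {G : Dat Γ}

theorem lg_add (hX : Surface Γ D) (h : HG D G) {κ : ℂ → ℝ} (hκ : Continuous κ) {ψ : Pl → ℝ}
    (hψ : Continuous ψ) {a b : ℝ} (hab : a ≤ b) (g : Γ) :
    lg G κ ψ b g = lg G κ ψ a g + lg2 G κ ψ a b g := by
  have hsm : Continuous fun x : Pl => g • x := (hX.smooth g).continuous
  have hsm' : Continuous fun x : Pl => g⁻¹ • x := (hX.smooth g⁻¹).continuous
  have hd : Continuous fun x : Pl => G.d x (g • x) := (d_cont h).comp (continuous_id.prodMk hsm)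
  have hal : Measurable fun x : Pl => al G g x := by
    have h1 : Measurable fun x : Pl => G.di x (g⁻¹ • x) :=
      (di_meas h).comp (measurable_id.prodMk hsm'.measurable)
    have h2 : Measurable fun x : Pl => G.di x (g • x) :=
      (di_meas h).comp (measurable_id.prodMk hsm.measurable)
    exact h1.neg.mul (Complex.continuous_conj.measurable.comp h2)
  have hJ : Measurable fun x : Pl => G.J x (g • x) :=
    (J_meas h).comp (measurable_id.prodMk hsm.measurable)
  have hf : Measurable fun x : Pl => ENNReal.ofReal (ψ x * κ (al G g x) / G.J x (g • x)) :=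
    ((hψ.measurable.mul (hκ.measurable.comp hal)).div hJ).ennreal_ofReal
  have hr : Measurable fun x : Pl => ENNReal.ofReal (G.rho x) :=
    h.rho_cont.measurable.ennreal_ofReal
  have hm : Measurable fun x : Pl => (if G.d x (g • x) ≤ a then
      ENNReal.ofReal (ψ x * κ (al G g x) / G.J x (g • x)) else 0) * ENNReal.ofReal (G.rho x) :=
    (Measurable.ite (measurableSet_le hd.measurable measurable_const) hf measurable_const).mul hr
  unfold lg lg2
  rw [← lintegral_add_left hm]
  refine lintegral_congr fun x => ?_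
  rw [← add_mul]
  congr 1
  by_cases h1 : G.d x (g • x) ≤ a
  · have h2 : G.d x (g • x) ≤ b := h1.trans hab
    have h3 : ¬ (a < G.d x (g • x) ∧ G.d x (g • x) ≤ b) := fun h4 => absurd h1 (not_le.mpr h4.1)
    rw [if_pos h1, if_pos h2, if_neg h3, add_zero]
  · by_cases h2 : G.d x (g • x) ≤ b
    · rw [if_neg h1, if_pos h2, if_pos ⟨not_le.mp h1, h2⟩, zero_add]
    · have h3 : ¬ (a < G.d x (g • x) ∧ G.d x (g • x) ≤ b) := fun h4 => h2 h4.2
      rw [if_neg h1, if_neg h2, if_neg h3, zero_add]

theorem lg2_le (κ : ℂ → ℝ) (ψ : Pl → ℝ) (a b : ℝ) (g : Γ) :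
    lg2 G κ ψ a b g ≤ lg G κ ψ b g := by
  unfold lg lg2
  refine lintegral_mono fun x => mul_le_mul' ?_ le_rfl
  split_ifs with h1 h2 h2
  · exact le_rfl
  · exact absurd h1.2 h2
  · exact bot_le
  · exact le_rfl

theorem lg_far (hX : Surface Γ D) (h : HG D G) {κ : ℂ → ℝ} {ψ : Pl → ℝ}
    (hψc : HasCompactSupport ψ) (g : Γ) :
    ∃ T₀ : ℝ, ∀ a b, T₀ ≤ a → lg2 G κ ψ a b g = 0 := by
  have hsm : Continuous fun x : Pl => g • x := (hX.smooth g).continuous
  have hd : Continuous fun x : Pl => G.d x (g • x) := (d_cont h).comp (continuous_id.prodMk hsm)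
  obtain ⟨T₀, hT₀⟩ := hψc.isCompact.exists_bound_of_continuousOn hd.continuousOn
  refine ⟨T₀, fun a b ha => ?_⟩
  unfold lg2
  have h0 : ∀ x : Pl, (if a < G.d x (g • x) ∧ G.d x (g • x) ≤ b then
      ENNReal.ofReal (ψ x * κ (al G g x) / G.J x (g • x)) else 0) = 0 := by
    intro x
    split_ifs with h1
    · by_cases hx : ψ x = 0
      · rw [hx, zero_mul, zero_div, ENNReal.ofReal_zero]
      · exfalso
        have h5 := hT₀ x (subset_tsupport ψ hx)
        rw [Real.norm_eq_abs] at h5
        have h6 : G.d x (g • x) ≤ T₀ := (le_abs_self _).trans h5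
        linarith [h1.1]
    · rfl
  simp only [h0, zero_mul, lintegral_zero]

end SR85
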