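import Pool.Agent.LibSW73.R6
import Pool.Agent.LibSW73.R7
import Pool.Agent.LibSW73.R9

/-! Row R8: equidistribution of loops, in windows. 60 min.
PLAN. As `loops` (`LibSR85/M11`), simpler: let `F, η` be from `loop_cmp2` for `ε`. For `g ∈ F` (finite) the terms
`lg2 .. a b g` and, for `g ∈ insert 1 F`, `wg2 .. a b g` vanish for `a` large (`lg_far`, `kern_zero2`). So for `a` large
`∑' g : {g // g ≠ 1}, lg2 a b g ≤ exp ε * ∑' g : Γ, wg2 (κ + ε) (a - 1) (b + 1) g` and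
`∑' g : Γ, wg2 (max (κ - ε) 0) (a + 1) (b - 1) g ≤ exp ε * ∑' g : {g // g ≠ 1}, lg2 a b g`.
With `a = x`, `b = x + M`: `(a - 1, b + 1] = (x - 1, (x - 1) + (M + 2)]`, `(a + 1, b - 1] = (x + 1, (x + 1) + (M - 2)]`, and
`q ↦ (q.1 - 1, q.2 + 2)`, `q ↦ (q.1 + 1, q.2 - 2)` tend to `atTop ×ˢ atTop`. Divide by `M`: the limits are
`exp ε * R * I(κ + ε) ≤ exp ε * R * (I + 2 π ε)` and `exp (-ε) * R * I(max (κ - ε) 0) ≥ exp (-ε) * R * (I - 2 π ε)`
(`M11_limit`, private in M11, has this argument along `atTop`: copy and adapt). -/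

open MeasureTheory Set Filter Topology
open scoped ContDiff ENNReal NNReal ComplexConjugate

namespace SR85

open BGS (Pl Surface)

variable {Γ : Type} [Group Γ] [MulAction Γ Pl] {D : Set Pl} {G : Dat Γ}

/-- the limit argument, in windows -/
private theorem R8_limit (f : ℝ → ℝ → ℝ≥0∞) (R I : ℝ) (hR : 0 ≤ R)
    (hfin : ∀ a b, f a b < ⊤)
    (hup : ∀ ε : ℝ, 0 < ε → ∃ (W : ℝ → ℝ → ℝ≥0∞) (I' : ℝ), (∀ a b, 0 ≤ a → W a b < ⊤) ∧
      Tendsto (fun q : ℝ × ℝ => (W q.1 (q.1 + q.2)).toReal / q.2) (atTop ×ˢ atTop)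
        (𝓝 (R * I')) ∧
      I' ≤ I + 2 * Real.pi * ε ∧
      ∃ T₀ : ℝ, ∀ a b, T₀ ≤ a → f a b ≤ ENNReal.ofReal (Real.exp ε) * W (a - 1) (b + 1))
    (hlo : ∀ ε : ℝ, 0 < ε → ∃ (W : ℝ → ℝ → ℝ≥0∞) (I' : ℝ), (∀ a b, 0 ≤ a → W a b < ⊤) ∧
      Tendsto (fun q : ℝ × ℝ => (W q.1 (q.1 + q.2)).toReal / q.2) (atTop ×ˢ atTop)
        (𝓝 (R * I')) ∧
      I - 2 * Real.pi * ε ≤ I' ∧
      ∃ T₀ : ℝ, ∀ a b, T₀ ≤ a → W (a + 1) (b - 1) ≤ ENNReal.ofReal (Real.exp ε) * f a b) :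
    Tendsto (fun q : ℝ × ℝ => (f q.1 (q.1 + q.2)).toReal / q.2) (atTop ×ˢ atTop)
      (𝓝 (R * I)) := by
  have hinv : Tendsto (fun T : ℝ => T⁻¹) atTop (𝓝 0) := tendsto_inv_atTop_zero
  have hfst : Tendsto (fun q : ℝ × ℝ => q.1) ((atTop : Filter ℝ) ×ˢ (atTop : Filter ℝ)) atTop :=
    tendsto_fst
  have hsnd : Tendsto (fun q : ℝ × ℝ => q.2) ((atTop : Filter ℝ) ×ˢ (atTop : Filter ℝ)) atTop :=
    tendsto_snd
  rw [tendsto_order]
  constructor
  · intro a ha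
    have hcont : Continuous fun ε : ℝ => Real.exp (-ε) * (R * (I - 2 * Real.pi * ε)) := by
      fun_prop
    have h0 : ∀ᶠ ε : ℝ in 𝓝 0, a < Real.exp (-ε) * (R * (I - 2 * Real.pi * ε)) := by
      apply hcont.continuousAt.eventually_const_lt
      simpa using ha
    obtain ⟨ε, hε, hεpos⟩ : ∃ ε : ℝ, a < Real.exp (-ε) * (R * (I - 2 * Real.pi * ε)) ∧ 0 < ε := by
      have h1 : ∀ᶠ ε : ℝ in 𝓝[>] 0, a < Real.exp (-ε) * (R * (I - 2 * Real.pi * ε)) :=
        h0.filter_mono nhdsWithin_le_nhds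
      exact (h1.and self_mem_nhdsWithin).exists
    obtain ⟨W, I', hW, hlim, hI, T₀, hf⟩ := hlo ε hεpos
    have ha2 : a < Real.exp (-ε) * (R * I') := hε.trans_le
      (mul_le_mul_of_nonneg_left (mul_le_mul_of_nonneg_left hI hR) (Real.exp_pos _).le)
    have hsh : Tendsto (fun q : ℝ × ℝ => (q.1 + 1, q.2 + -2))
        ((atTop : Filter ℝ) ×ˢ (atTop : Filter ℝ)) (atTop ×ˢ atTop) :=
      (tendsto_atTop_add_const_right _ 1 hfst).prodMk
        (tendsto_atTop_add_const_right _ (-2) hsnd)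
    have hl1 : Tendsto (fun q : ℝ × ℝ => (W (q.1 + 1) (q.1 + q.2 - 1)).toReal / (q.2 - 2))
        ((atTop : Filter ℝ) ×ˢ (atTop : Filter ℝ)) (𝓝 (R * I')) := by
      refine (hlim.comp hsh).congr fun q => ?_
      show (W (q.1 + 1) (q.1 + 1 + (q.2 + -2))).toReal / (q.2 + -2) = _
      rw [show q.1 + 1 + (q.2 + -2) = q.1 + q.2 - 1 by ring, ← sub_eq_add_neg]
    have hl2 : Tendsto (fun q : ℝ × ℝ => (q.2 - 2) / q.2)
        ((atTop : Filter ℝ) ×ˢ (atTop : Filter ℝ)) (𝓝 1) := by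
      have h2 : Tendsto (fun T : ℝ => 1 - 2 * T⁻¹) atTop (𝓝 (1 - 2 * 0)) :=
        (hinv.const_mul 2).const_sub 1
      rw [mul_zero, sub_zero] at h2
      refine (h2.comp hsnd).congr' ?_
      filter_upwards [hsnd.eventually (eventually_gt_atTop (0 : ℝ))] with q hq
      show 1 - 2 * q.2⁻¹ = (q.2 - 2) / q.2
      field_simp
    have hl3 : Tendsto (fun q : ℝ × ℝ => Real.exp (-ε) *
        ((W (q.1 + 1) (q.1 + q.2 - 1)).toReal / (q.2 - 2) * ((q.2 - 2) / q.2)))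
        ((atTop : Filter ℝ) ×ˢ (atTop : Filter ℝ))
        (𝓝 (Real.exp (-ε) * (R * I' * 1))) :=
      (hl1.mul hl2).const_mul _
    rw [mul_one] at hl3
    filter_upwards [hl3.eventually_const_lt ha2, hsnd.eventually (eventually_gt_atTop (2 : ℝ)),
      hfst.eventually (eventually_ge_atTop T₀)] with q hq1 hq2 hq3
    refine hq1.trans_le ?_
    have hT0 : 0 < q.2 := by linarith
    have h3 : (W (q.1 + 1) (q.1 + q.2 - 1)).toReal ≤
        Real.exp ε * (f q.1 (q.1 + q.2)).toReal := by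
      have h4 := ENNReal.toReal_mono
        (ENNReal.mul_lt_top ENNReal.ofReal_lt_top (hfin q.1 (q.1 + q.2))).ne (hf q.1 _ hq3)
      rwa [ENNReal.toReal_mul, ENNReal.toReal_ofReal (Real.exp_pos _).le] at h4
    have h5 : (W (q.1 + 1) (q.1 + q.2 - 1)).toReal / (q.2 - 2) * ((q.2 - 2) / q.2) =
        (W (q.1 + 1) (q.1 + q.2 - 1)).toReal / q.2 := by
      have : q.2 - 2 ≠ 0 := by linarith
      field_simp
    rw [h5, Real.exp_neg, ← div_eq_inv_mul, div_div, div_le_div_iff₀ (by positivity) hT0]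
    calc (W (q.1 + 1) (q.1 + q.2 - 1)).toReal * q.2 ≤
          (Real.exp ε * (f q.1 (q.1 + q.2)).toReal) * q.2 :=
          mul_le_mul_of_nonneg_right h3 hT0.le
      _ = (f q.1 (q.1 + q.2)).toReal * (q.2 * Real.exp ε) := by ring
  · intro a ha
    have hcont : Continuous fun ε : ℝ => Real.exp ε * (R * (I + 2 * Real.pi * ε)) := by
      fun_prop
    have h0 : ∀ᶠ ε : ℝ in 𝓝 0, Real.exp ε * (R * (I + 2 * Real.pi * ε)) < a := by
      apply hcont.continuousAt.eventually_lt_const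
      simpa using ha
    obtain ⟨ε, hε, hεpos⟩ : ∃ ε : ℝ, Real.exp ε * (R * (I + 2 * Real.pi * ε)) < a ∧ 0 < ε := by
      have h1 : ∀ᶠ ε : ℝ in 𝓝[>] 0, Real.exp ε * (R * (I + 2 * Real.pi * ε)) < a :=
        h0.filter_mono nhdsWithin_le_nhds
      exact (h1.and self_mem_nhdsWithin).exists
    obtain ⟨W, I', hW, hlim, hI, T₀, hf⟩ := hup ε hεpos
    have ha2 : Real.exp ε * (R * I') < a := (mul_le_mul_of_nonneg_left
      (mul_le_mul_of_nonneg_left hI hR) (Real.exp_pos _).le).trans_lt hε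
    have hsh : Tendsto (fun q : ℝ × ℝ => (q.1 + -1, q.2 + 2))
        ((atTop : Filter ℝ) ×ˢ (atTop : Filter ℝ)) (atTop ×ˢ atTop) :=
      (tendsto_atTop_add_const_right _ (-1) hfst).prodMk
        (tendsto_atTop_add_const_right _ 2 hsnd)
    have hl1 : Tendsto (fun q : ℝ × ℝ => (W (q.1 - 1) (q.1 + q.2 + 1)).toReal / (q.2 + 2))
        ((atTop : Filter ℝ) ×ˢ (atTop : Filter ℝ)) (𝓝 (R * I')) := by
      refine (hlim.comp hsh).congr fun q => ?_
      show (W (q.1 + -1) (q.1 + -1 + (q.2 + 2))).toReal / (q.2 + 2) = _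
      rw [show q.1 + -1 + (q.2 + 2) = q.1 + q.2 + 1 by ring, ← sub_eq_add_neg]
    have hl2 : Tendsto (fun q : ℝ × ℝ => (q.2 + 2) / q.2)
        ((atTop : Filter ℝ) ×ˢ (atTop : Filter ℝ)) (𝓝 1) := by
      have h2 : Tendsto (fun T : ℝ => 1 + 2 * T⁻¹) atTop (𝓝 (1 + 2 * 0)) :=
        (hinv.const_mul 2).const_add 1
      rw [mul_zero, add_zero] at h2
      refine (h2.comp hsnd).congr' ?_
      filter_upwards [hsnd.eventually (eventually_gt_atTop (0 : ℝ))] with q hq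
      show 1 + 2 * q.2⁻¹ = (q.2 + 2) / q.2
      field_simp
    have hl3 : Tendsto (fun q : ℝ × ℝ => Real.exp ε *
        ((W (q.1 - 1) (q.1 + q.2 + 1)).toReal / (q.2 + 2) * ((q.2 + 2) / q.2)))
        ((atTop : Filter ℝ) ×ˢ (atTop : Filter ℝ))
        (𝓝 (Real.exp ε * (R * I' * 1))) :=
      (hl1.mul hl2).const_mul _
    rw [mul_one] at hl3
    filter_upwards [hl3.eventually_lt_const ha2, hsnd.eventually (eventually_gt_atTop (0 : ℝ)),
      hfst.eventually (eventually_ge_atTop T₀), hfst.eventually (eventually_ge_atTop (1 : ℝ))]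
      with q hq1 hT0 hq3 hq4
    refine lt_of_le_of_lt ?_ hq1
    have hW1 : W (q.1 - 1) (q.1 + q.2 + 1) < ⊤ := hW _ _ (by linarith)
    have h3 : (f q.1 (q.1 + q.2)).toReal ≤
        Real.exp ε * (W (q.1 - 1) (q.1 + q.2 + 1)).toReal := by
      have h4 := ENNReal.toReal_mono
        (ENNReal.mul_lt_top ENNReal.ofReal_lt_top hW1).ne (hf q.1 _ hq3)
      rwa [ENNReal.toReal_mul, ENNReal.toReal_ofReal (Real.exp_pos _).le] at h4
    have h5 : Real.exp ε * ((W (q.1 - 1) (q.1 + q.2 + 1)).toReal / (q.2 + 2) *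
        ((q.2 + 2) / q.2)) =
        (Real.exp ε * (W (q.1 - 1) (q.1 + q.2 + 1)).toReal) / q.2 := by
      have : q.2 + 2 ≠ 0 := by linarith
      field_simp
    rw [h5]
    exact div_le_div_of_nonneg_right h3 hT0.le

private theorem R8_bound {ι : Type} {F : Set ι} (hF : F.Finite) (T : ι → ℝ) :
    ∃ B : ℝ, ∀ g ∈ F, T g ≤ B := by
  obtain ⟨B, hB⟩ := (hF.image T).bddAbove
  exact ⟨B, fun g hg => hB (mem_image_of_mem T hg)⟩

theorem loops2 (hX : Surface Γ D) (h : HG D G) {κ : ℂ → ℝ} (hκ : Continuous κ)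
    (hκ0 : ∀ z, 0 ≤ κ z) {ψ : Pl → ℝ} (hψ : Continuous ψ) (hψ0 : ∀ x, 0 ≤ ψ x)
    (hψc : HasCompactSupport ψ) :
    Tendsto (fun q : ℝ × ℝ =>
      (∑' g : {g : Γ // g ≠ 1}, lg2 G κ ψ q.1 (q.1 + q.2) g.1).toReal / q.2) (atTop ×ˢ atTop)
      (𝓝 ((∫ x, ψ x * G.rho x) *
        ∫ θ in (-Real.pi)..Real.pi, κ (Complex.exp ((θ : ℂ) * Complex.I)))) ∧
      ∀ a b, ∑' g : {g : Γ // g ≠ 1}, lg2 G κ ψ a b g.1 < ⊤ := by
  classical
  have hfin : ∀ a b, ∑' g : {g : Γ // g ≠ 1}, lg2 G κ ψ a b g.1 < ⊤ := fun a b =>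
    (ENNReal.tsum_le_tsum fun g : {g : Γ // g ≠ 1} => lg2_le κ ψ a b g.1).trans_lt
      ((loops hX h hκ hκ0 hψ hψ0 hψc).2 b)
  refine ⟨?_, hfin⟩
  obtain ⟨χ, hχ⟩ := exists_bump
  have hcexp : Continuous fun θ : ℝ => κ (Complex.exp ((θ : ℂ) * Complex.I)) := by
    fun_prop
  have hpi : -Real.pi ≤ Real.pi := by linarith [Real.pi_pos]
  have hfar : ∀ g : Γ, ∃ T₀ : ℝ, ∀ a b, T₀ ≤ a → lg2 G κ ψ a b g = 0 := fun g =>
    lg_far hX h hψc g
  choose T₁ hT₁ using hfar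
  apply R8_limit (fun a b => ∑' g : {g : Γ // g ≠ 1}, lg2 G κ ψ a b g.1)
  · exact integral_nonneg fun x => mul_nonneg (hψ0 x) (h.rho_pos x).le
  · exact hfin
  · intro ε hε
    obtain ⟨F, hF, η, hη, hcmp⟩ := loop_cmp2 hX h hκ hκ0 hψ hψ0 hψc hχ hε
    obtain ⟨hlim, hWfin⟩ := kern_lim2 hX h (κ := fun z => κ z + ε) (hκ.add continuous_const)
      (fun z => add_nonneg (hκ0 z) hε.le) hψ hψ0 hψc hχ hη
    obtain ⟨B, hB⟩ := R8_bound hF T₁
    refine ⟨fun a b => ∑' g : Γ, wg2 G (KK G (fun z => κ z + ε) ψ χ η) a b g, _, hWfin,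
      hlim, ?_, B, ?_⟩
    · rw [intervalIntegral.integral_add (hcexp.intervalIntegrable _ _)
        (continuous_const.intervalIntegrable _ _), intervalIntegral.integral_const, smul_eq_mul]
      apply le_of_eq
      ring
    · intro a b hab
      have h1 : ∀ g : {g : Γ // g ≠ 1}, lg2 G κ ψ a b g.1 ≤
          (fun g : Γ => ENNReal.ofReal (Real.exp ε) *
            wg2 G (KK G (fun z => κ z + ε) ψ χ η) (a - 1) (b + 1) g) g.1 := by
        intro g
        by_cases hgF : g.1 ∈ F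
        · rw [hT₁ g.1 a b ((hB g.1 hgF).trans hab)]
          exact zero_le
        · exact (hcmp g.1 hgF a b).1
      refine (ENNReal.tsum_le_tsum h1).trans ?_
      have h2 := ENNReal.tsum_comp_le_tsum_of_injective
        (f := fun g : {g : Γ // g ≠ 1} => g.1) Subtype.val_injective
        (fun g : Γ => ENNReal.ofReal (Real.exp ε) *
            wg2 G (KK G (fun z => κ z + ε) ψ χ η) (a - 1) (b + 1) g)
      refine h2.trans ?_
      rw [ENNReal.tsum_mul_left]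
  · intro ε hε
    obtain ⟨F, hF, η, hη, hcmp⟩ := loop_cmp2 hX h hκ hκ0 hψ hψ0 hψc hχ hε
    have hκ2 : Continuous fun z => max (κ z - ε) 0 := (hκ.sub continuous_const).max continuous_const
    have hκ20 : ∀ z, 0 ≤ max (κ z - ε) 0 := fun z => le_max_right _ _
    obtain ⟨hlim, hWfin⟩ := kern_lim2 hX h (κ := fun z => max (κ z - ε) 0) hκ2 hκ20 hψ hψ0 hψc
      hχ hη
    have hz : ∀ g : Γ, ∃ T₀ : ℝ, ∀ a b, T₀ ≤ a →
        wg2 G (KK G (fun z => max (κ z - ε) 0) ψ χ η) a b g = 0 := fun g =>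
      kern_zero2 hX h hψc hχ hη g
    choose T₂ hT₂ using hz
    obtain ⟨B, hB⟩ := R8_bound (hF.insert 1) T₂
    refine ⟨fun a b => ∑' g : Γ, wg2 G (KK G (fun z => max (κ z - ε) 0) ψ χ η) a b g, _, hWfin,
      hlim, ?_, B, ?_⟩
    · have h1 : (∫ θ in (-Real.pi)..Real.pi, κ (Complex.exp ((θ : ℂ) * Complex.I))) -
          2 * Real.pi * ε =
          ∫ θ in (-Real.pi)..Real.pi, (κ (Complex.exp ((θ : ℂ) * Complex.I)) - ε) := by
        rw [intervalIntegral.integral_sub (hcexp.intervalIntegrable _ _)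
          (continuous_const.intervalIntegrable _ _), intervalIntegral.integral_const, smul_eq_mul]
        ring
      rw [h1]
      apply intervalIntegral.integral_mono_on hpi
      · exact (hcexp.sub continuous_const).intervalIntegrable _ _
      · exact ((hcexp.sub continuous_const).max continuous_const).intervalIntegrable _ _
      · intro θ _
        exact le_max_left _ _
    · intro a b hab
      have h1 : ∀ g : Γ, wg2 G (KK G (fun z => max (κ z - ε) 0) ψ χ η) (a + 1) (b - 1) g ≤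
          ENNReal.ofReal (Real.exp ε) *
            ({g : Γ | g ≠ 1}.indicator (fun g => lg2 G κ ψ a b g) g) := by
        intro g
        by_cases hgF : g ∈ insert 1 F
        · rw [hT₂ g (a + 1) (b - 1) (((hB g hgF).trans hab).trans (by linarith))]
          exact zero_le
        · have h2 : g ≠ 1 := fun h => hgF (h ▸ Set.mem_insert _ _)
          have h3 : g ∉ F := fun h => hgF (Set.mem_insert_of_mem _ h)
          rw [Set.indicator_of_mem (show g ∈ {g : Γ | g ≠ 1} from h2)]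
          exact (hcmp g h3 a b).2
      refine (ENNReal.tsum_le_tsum h1).trans ?_
      rw [ENNReal.tsum_mul_left, ← tsum_subtype]
      rfl

end SR85
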